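import Pool.Agent.Lib.MP_a7239a_co.RS.Defs

/-!
# Groups of every rank: the characters with values in `ZMod n`
-/

open Finset

namespace Pool.Agent.Lib.MPa7239a.RG

open Pool.Agent.Lib.MPa7239a.GC

/-- an injective homomorphism `ZMod d → ZMod n` for `d ∣ n` -/
theorem exists_inj {d n : ℕ} (hn : n ≠ 0) (h : d ∣ n) :
    ∃ φ : ZMod d →+ ZMod n, Function.Injective φ := by
  obtain ⟨k, rfl⟩ := h
  have hk : k ≠ 0 := by
    rintro rfl
    exact hn (mul_zero d)
  let f : ℤ →+ ZMod (d * k) := (Int.castAddHom (ZMod (d * k))).comp (AddMonoidHom.mulLeft (k : ℤ))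
  have hf : ∀ a : ℤ, f a = ((k * a : ℤ) : ZMod (d * k)) := fun a => rfl
  have hf0 : f d = 0 := by
    rw [hf, ZMod.intCast_zmod_eq_zero_iff_dvd]
    exact ⟨1, by push_cast; ring⟩
  refine ⟨ZMod.lift d ⟨f, hf0⟩, (ZMod.lift_injective d (f := ⟨f, hf0⟩)).2 ?_⟩
  intro a ha
  change f a = 0 at ha
  rw [hf, ZMod.intCast_zmod_eq_zero_iff_dvd] at ha
  rw [ZMod.intCast_zmod_eq_zero_iff_dvd]
  push_cast at ha
  rw [mul_comm (d : ℤ) (k : ℤ)] at ha
  exact Int.dvd_of_mul_dvd_mul_left (by exact_mod_cast hk) ha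

/-- the characters separate the points -/
theorem exists_apply_ne_zero {G : Type*} [AddCommGroup G] [Finite G] {n : ℕ} (hn : n ≠ 0)
    (hG : ∀ x : G, n • x = 0) {x : G} (hx : x ≠ 0) : ∃ ξ : G →+ ZMod n, ξ x ≠ 0 := by
  classical
  obtain ⟨ι, _, d, -, ⟨e⟩⟩ := AddCommGroup.equiv_directSum_zmod_of_finite' G
  have h1 : e x ≠ 0 := by
    intro h
    exact hx ((map_eq_zero_iff e e.injective).1 h)
  obtain ⟨i, hi⟩ : ∃ i, e x i ≠ 0 := by
    by_contra hcon
    push Not at hcon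
    exact h1 (DFinsupp.ext hcon)
  have hdn : d i ∣ n := by
    rw [← ZMod.natCast_eq_zero_iff]
    have h2 : n • e.symm (DirectSum.of (fun i => ZMod (d i)) i 1) = 0 := hG _
    rw [← map_nsmul, map_eq_zero_iff e.symm e.symm.injective] at h2
    have h3 := DFinsupp.ext_iff.1 h2 i
    change (n • DirectSum.of (fun i => ZMod (d i)) i 1) i = 0 at h3
    rw [← map_nsmul, DirectSum.of_eq_same, nsmul_eq_mul, mul_one] at h3
    exact h3
  obtain ⟨φ, hφ⟩ := exists_inj hn hdn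
  let ev : (DirectSum ι fun i => ZMod (d i)) →+ ZMod (d i) :=
    ⟨⟨fun y => y i, rfl⟩, fun _ _ => rfl⟩
  refine ⟨φ.comp (ev.comp e.toAddMonoidHom), ?_⟩
  change φ (e x i) ≠ 0
  rw [Ne, map_eq_zero_iff φ hφ]
  exact hi

noncomputable instance {G : Type*} [AddCommGroup G] [Finite G] {n : ℕ} [NeZero n] :
    Fintype (G →+ ZMod n) := by
  have : Finite (G →+ ZMod n) := DFunLike.finite _
  exact Fintype.ofFinite _

/-- the character `ξ` with values in `ZMod n` -/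
def ph {G : Type*} [AddCommGroup G] {n : ℕ} (ξ : G →+ ZMod n) (v : G) : ZMod n := ξ v

/-- the sum of the character `ξ` over `F` -/
noncomputable def cs {G : Type*} [AddCommGroup G] {n : ℕ} [NeZero n] (F : Finset G)
    (ξ : G →+ ZMod n) : ℂ := ∑ x ∈ F, (ZMod.stdAddChar (ph ξ x) : ℂ)

section

variable {G : Type*} [AddCommGroup G] {n : ℕ} (ξ : G →+ ZMod n)

theorem ph_add (u v : G) : ph ξ (u + v) = ph ξ u + ph ξ v := map_add ξ u v

theorem ph_zero : ph ξ 0 = 0 := map_zero ξ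

theorem ph_neg (v : G) : ph ξ (-v) = -ph ξ v := map_neg ξ v

theorem ph_sub (u v : G) : ph ξ (u - v) = ph ξ u - ph ξ v := map_sub ξ u v

theorem ph_nsmul (k : ℕ) (v : G) : ph ξ (k • v) = k * ph ξ v := by
  rw [ph, ph, map_nsmul, nsmul_eq_mul]

theorem ph_zsmul (k : ℤ) (v : G) : ph ξ (k • v) = k * ph ξ v := by
  rw [ph, ph, map_zsmul, zsmul_eq_mul]

end

/-- orthogonality -/
theorem orth {G : Type*} [AddCommGroup G] [Finite G] [DecidableEq G] {n : ℕ} [NeZero n]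
    (hG : ∀ x : G, n • x = 0) (x : G) :
    ∑ ξ : G →+ ZMod n, (ZMod.stdAddChar (ph ξ x) : ℂ) =
      if x = 0 then (Fintype.card (G →+ ZMod n) : ℂ) else 0 := by
  split_ifs with hx
  · subst hx
    rw [sum_congr rfl fun ξ _ => by rw [ph_zero, AddChar.map_zero_eq_one], sum_const, card_univ,
      nsmul_eq_mul, mul_one]
  · obtain ⟨ψ, hψ⟩ := exists_apply_ne_zero (NeZero.ne n) hG hx
    have h1 : (ZMod.stdAddChar (ψ x) : ℂ) ≠ 1 := by
      intro h
      rw [← (ZMod.stdAddChar (N := n)).map_zero_eq_one] at h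
      exact hψ (ZMod.injective_stdAddChar h)
    have h2 : (ZMod.stdAddChar (ψ x) : ℂ) * ∑ ξ : G →+ ZMod n, (ZMod.stdAddChar (ph ξ x) : ℂ) =
        ∑ ξ : G →+ ZMod n, (ZMod.stdAddChar (ph ξ x) : ℂ) := by
      rw [mul_sum]
      refine Fintype.sum_equiv (Equiv.addLeft ψ) _ _ fun ξ => ?_
      rw [Equiv.coe_addLeft, ph, ph, AddMonoidHom.add_apply, AddChar.map_add_eq_mul]
    have h3 : ((ZMod.stdAddChar (ψ x) : ℂ) - 1) *
        ∑ ξ : G →+ ZMod n, (ZMod.stdAddChar (ph ξ x) : ℂ) = 0 := by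
      rw [sub_mul, h2, one_mul, sub_self]
    rcases mul_eq_zero.1 h3 with h4 | h4
    · exact absurd (sub_eq_zero.1 h4) h1
    · exact h4

end Pool.Agent.Lib.MPa7239a.RG
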