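import Pool.Agent.Lib.MP_a7239a_co.RS.SPC
import Pool.Agent.Lib.MP_a7239a_co.RG.Defs

/-!
# Large characters of a set with popular differences are nearly trivial on the differences
-/

open Finset

namespace Pool.Agent.Lib.MPa7239a.RG

open Pool.Agent.Lib.MPa7239a.GC

namespace SPCM

variable {G : Type*} [AddCommGroup G] [DecidableEq G] {n : ℕ} [NeZero n]

omit [DecidableEq G] in
/-- the character `ξ` -/
theorem cs_eq (F : Finset G) (ξ : G →+ ZMod n) :
    cs F ξ = ∑ x ∈ F, (ZMod.stdAddChar (ph ξ x) : ℂ) := rfl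

/-- `(χ(v) - 1) F^(χ)` is a sum over the symmetric difference of `F` and `F + v` -/
theorem mul_cs (F : Finset G) (ξ : G →+ ZMod n) (v : G) :
    ((ZMod.stdAddChar (ph ξ v) : ℂ) - 1) * cs F ξ =
      ∑ x ∈ F.filter (fun f => f + v ∉ F), (ZMod.stdAddChar (ph ξ (x + v)) : ℂ) -
        ∑ x ∈ F.filter (fun f => f - v ∉ F), (ZMod.stdAddChar (ph ξ x) : ℂ) := by
  classical
  have h1 : (ZMod.stdAddChar (ph ξ v) : ℂ) * cs F ξ =
      ∑ x ∈ F, (ZMod.stdAddChar (ph ξ (x + v)) : ℂ) := by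
    rw [cs_eq, mul_sum]
    refine sum_congr rfl (fun x _ => ?_)
    rw [ph_add, AddChar.map_add_eq_mul, mul_comm]
  have h2 : ∑ x ∈ F.filter (fun f => f + v ∈ F), (ZMod.stdAddChar (ph ξ (x + v)) : ℂ) =
      ∑ x ∈ F.filter (fun f => f - v ∈ F), (ZMod.stdAddChar (ph ξ x) : ℂ) := by
    refine sum_bij (fun x _ => x + v) ?_ ?_ ?_ ?_
    · intro x hx
      rw [mem_filter] at hx ⊢
      exact ⟨hx.2, by rw [add_sub_cancel_right]; exact hx.1⟩
    · intro x _ y _ hxy
      exact add_right_cancel hxy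
    · intro y hy
      rw [mem_filter] at hy
      exact ⟨y - v, by rw [mem_filter, sub_add_cancel]; exact ⟨hy.2, hy.1⟩, sub_add_cancel y v⟩
    · intro x _
      rfl
  rw [sub_mul, one_mul, h1, ← sum_filter_add_sum_filter_not F (fun f => f + v ∈ F), h2, cs_eq,
    ← sum_filter_add_sum_filter_not F (fun f => f - v ∈ F) (fun x => (ZMod.stdAddChar (ph ξ x) : ℂ))]
  ring

omit [NeZero n] in
theorem card_eq (F : Finset G) (v : G) :
    #(F.filter (fun f => f - v ∉ F)) = #(F.filter (fun f => f + v ∉ F)) := by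
  classical
  have h1 : #(F.filter (fun f => f + v ∈ F)) = #(F.filter (fun f => f - v ∈ F)) := by
    refine card_bij (fun x _ => x + v) ?_ ?_ ?_
    · intro x hx
      rw [mem_filter] at hx ⊢
      exact ⟨hx.2, by rw [add_sub_cancel_right]; exact hx.1⟩
    · intro x _ y _ hxy
      exact add_right_cancel hxy
    · intro y hy
      rw [mem_filter] at hy
      exact ⟨y - v, by rw [mem_filter, sub_add_cancel]; exact ⟨hy.2, hy.1⟩, sub_add_cancel y v⟩
  have h2 := card_filter_add_card_filter_not (s := F) (fun f => f + v ∈ F)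
  have h3 := card_filter_add_card_filter_not (s := F) (fun f => f - v ∈ F)
  omega

theorem norm_mul_cs (F : Finset G) (ξ : G →+ ZMod n) (v : G) :
    ‖(ZMod.stdAddChar (ph ξ v) : ℂ) - 1‖ * ‖cs F ξ‖ ≤
      2 * #(F.filter (fun f => f + v ∉ F)) := by
  rw [← norm_mul, mul_cs]
  refine (norm_sub_le _ _).trans ?_
  have h1 : ∀ (s : Finset G) (g : G → ZMod n),
      ‖∑ x ∈ s, (ZMod.stdAddChar (g x) : ℂ)‖ ≤ #s := by
    intro s g
    refine (norm_sum_le _ _).trans ?_
    rw [sum_congr rfl (fun x _ => AddChar.norm_apply (ZMod.stdAddChar (N := n)) (g x)), sum_const,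
      nsmul_eq_mul, mul_one]
  have h2 := h1 (F.filter (fun f => f + v ∉ F)) (fun x => ph ξ (x + v))
  have h3 := h1 (F.filter (fun f => f - v ∉ F)) (fun x => ph ξ x)
  rw [card_eq] at h3
  linarith

end SPCM

open SPCM in
/-- a large character of a set with popular difference `v` is nearly trivial at `v` -/
theorem spec_small {G : Type*} [AddCommGroup G] [DecidableEq G] {n N Λ : ℕ} [NeZero n] {F : Finset G} (hF : F.Nonempty)
    (hΛ : 1 ≤ Λ) {v : G} {ξ : G →+ ZMod n} (hp : N * #(F.filter (fun f => f + v ∉ F)) ≤ #F)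
    (hξ : (#F : ℝ) ≤ 4 * Λ * ‖cs F ξ‖) : N * (ph ξ v).valMinAbs.natAbs ≤ 2 * Λ * n := by
  have hn : (0 : ℝ) < n := by
    have := Nat.pos_of_ne_zero (NeZero.ne n)
    exact_mod_cast this
  have hFp : (0 : ℝ) < #F := by exact_mod_cast hF.card_pos
  set a : ℤ := (ph ξ v).valMinAbs with ha
  have ha2 : 2 * |a| ≤ n := by
    have h := ZMod.natAbs_valMinAbs_le (ph ξ v)
    rw [← ha] at h
    have h2 : (a.natAbs : ℤ) = |a| := Int.natCast_natAbs a
    omega
  have h1 := RS.SPCM.le_norm ha2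
  rw [ha, ZMod.coe_valMinAbs, ← ha] at h1
  have h2 := norm_mul_cs F ξ v
  have h3 : (N : ℝ) * #(F.filter (fun f => f + v ∉ F)) ≤ #F := by exact_mod_cast hp
  set nu : ℝ := ‖(ZMod.stdAddChar (ph ξ v) : ℂ) - 1‖ with hnu
  have hnu0 : 0 ≤ nu := norm_nonneg _
  have hN0 : (0 : ℝ) ≤ N := Nat.cast_nonneg N
  have h4 : (N : ℝ) * nu * #F ≤ 8 * Λ * #F := by
    calc (N : ℝ) * nu * #F ≤ N * nu * (4 * Λ * ‖cs F ξ‖) :=
          mul_le_mul_of_nonneg_left hξ (mul_nonneg hN0 hnu0)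
      _ = 4 * Λ * N * (nu * ‖cs F ξ‖) := by ring
      _ ≤ 4 * Λ * N * (2 * #(F.filter (fun f => f + v ∉ F))) :=
          mul_le_mul_of_nonneg_left h2 (by positivity)
      _ = 8 * Λ * (N * #(F.filter (fun f => f + v ∉ F))) := by ring
      _ ≤ 8 * Λ * #F := mul_le_mul_of_nonneg_left h3 (by positivity)
  have h5 : (N : ℝ) * nu ≤ 8 * Λ := le_of_mul_le_mul_right h4 hFp
  have h6 : (N : ℝ) * |(a : ℝ)| ≤ 2 * Λ * n := by
    have h7 := mul_le_mul_of_nonneg_left h1 hN0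
    have h8 := mul_le_mul_of_nonneg_right h5 hn.le
    nlinarith
  have h9 : ((a.natAbs : ℕ) : ℝ) = |(a : ℝ)| := by
    rw [Nat.cast_natAbs, Int.cast_abs]
  have h10 : ((N * a.natAbs : ℕ) : ℝ) ≤ ((2 * Λ * n : ℕ) : ℝ) := by
    push_cast [h9]
    exact h6
  exact_mod_cast h10

end Pool.Agent.Lib.MPa7239a.RG
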