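import Pool.Agent.Lib.MP_a7239a_co.RK.Defs

/-!
# CYCG: cyclically free sets depend on the order and the exponent only (Theorem G, helper28)
-/

set_option autoImplicit false

open Finset

namespace Pool.Agent.Lib.MPa7239a.RG

open Pool.Agent.Lib.MPa7239a.GC
open Pool.Agent.Lib.MPa7239a.RK

/-- a finite commutative group maps onto a cyclic group whose order is the exponent -/
theorem exists_mul_phi {G : Type*} [CommGroup G] [Finite G] :
    ∃ φ : G →* ℂˣ, Nat.card φ.range = Monoid.exponent G := by
  have hne : NeZero (Monoid.exponent G) := ⟨Monoid.exponent_ne_zero_of_finite⟩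
  have : HasEnoughRootsOfUnity ℂ (Monoid.exponent G) := inferInstance
  obtain ⟨E⟩ := CommGroup.monoidHom_mulEquiv_of_hasEnoughRootsOfUnity G ℂ
  obtain ⟨g, hg⟩ := Monoid.exists_orderOf_eq_exponent
    (Monoid.ExponentExists.of_finite (G := G))
  refine ⟨E.symm g, ?_⟩
  have h1 : orderOf (E.symm g) = Monoid.exponent G := by
    rw [MulEquiv.orderOf_eq, hg]
  have : Finite (E.symm g).range := (Set.finite_range (E.symm g)).to_subtype
  have : IsCyclic (E.symm g).range := inferInstance
  rw [← IsCyclic.exponent_eq_card, ← h1]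
  apply Nat.dvd_antisymm
  · refine Monoid.exponent_dvd_of_forall_pow_eq_one ?_
    rintro ⟨_, x, rfl⟩
    apply Subtype.ext
    rw [Subgroup.coe_pow, Subgroup.coe_one]
    change (E.symm g) x ^ _ = 1
    rw [← MonoidHom.pow_apply, pow_orderOf_eq_one, MonoidHom.one_apply]
  · refine orderOf_dvd_of_pow_eq_one ?_
    ext x
    have h2 := Monoid.pow_exponent_eq_one (⟨(E.symm g) x, x, rfl⟩ : (E.symm g).range)
    have h3 := congrArg Subtype.val h2
    rw [Subgroup.coe_pow, Subgroup.coe_one] at h3
    rw [MonoidHom.pow_apply, MonoidHom.one_apply]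
    exact congrArg Units.val h3

/-- a finite abelian group of exponent `n` maps onto `ZMod n` -/
theorem exists_phi {G : Type*} [AddCommGroup G] [Finite G] {n : ℕ}
    (hn : AddMonoid.exponent G = n) : ∃ φ : G →+ ZMod n, Function.Surjective φ := by
  obtain ⟨f, hf⟩ := exists_mul_phi (G := Multiplicative G)
  rw [Monoid.exponent_multiplicative, hn] at hf
  have : Finite f.range := (Set.finite_range f).to_subtype
  have hc : IsCyclic f.range := inferInstance
  subst hf
  refine ⟨AddMonoidHom.toMultiplicative.symm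
    ((zmodCyclicMulEquiv hc).symm.toMonoidHom.comp f.rangeRestrict), ?_⟩
  intro y
  obtain ⟨x, hx⟩ := f.rangeRestrict_surjective (zmodCyclicMulEquiv hc (Multiplicative.ofAdd y))
  refine ⟨Multiplicative.toAdd x, ?_⟩
  change Multiplicative.toAdd ((zmodCyclicMulEquiv hc).symm (f.rangeRestrict x)) = y
  rw [hx, MulEquiv.symm_apply_apply, toAdd_ofAdd]

/-- the fibres of a map onto `ZMod o` -/
theorem card_fib {G : Type*} [AddCommGroup G] [Fintype G] {o : ℕ} [NeZero o]
    {φ : G →+ ZMod o} (hφ : Function.Surjective φ) (c : ZMod o) :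
    o * #{x : G | φ x = c} = Nat.card G := by
  classical
  have h1 : ∀ b : ZMod o, #{x : G | φ x = b} = #{x : G | φ x = c} := fun b =>
    AddMonoidHom.card_fiber_eq_of_mem_range φ (hφ b) (hφ c)
  have h2 := card_eq_sum_card_fiberwise (f := φ) (s := (univ : Finset G)) (t := univ)
    (fun x _ => mem_coe.2 (mem_univ _))
  rw [sum_congr rfl (fun b _ => h1 b), sum_const, card_univ, card_univ, ZMod.card,
    smul_eq_mul] at h2
  rw [Nat.card_eq_fintype_card, h2]

/-- the kernel of a map onto `ZMod n` -/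
theorem card_ker {G : Type*} [AddCommGroup G] [Fintype G] {n m : ℕ} [NeZero n]
    {φ : G →+ ZMod n} (hφ : Function.Surjective φ) (h : Nat.card G = m * n) :
    Nat.card φ.ker = m := by
  classical
  have h1 := card_fib hφ 0
  rw [h, mul_comm m n] at h1
  rw [← Nat.eq_of_mul_eq_mul_left (Nat.pos_of_neZero n) h1, ← Fintype.card_subtype,
    ← Nat.card_eq_fintype_card]
  exact Nat.card_congr (Equiv.subtypeEquivRight fun x => AddMonoidHom.mem_ker)

/-- the order of a cyclic quotient divides the exponent -/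
theorem dvd_of_surj {G : Type*} [AddCommGroup G] {n o : ℕ} (hG : ∀ x : G, n • x = 0)
    {φ : G →+ ZMod o} (hφ : Function.Surjective φ) : o ∣ n := by
  obtain ⟨x, hx⟩ := hφ 1
  have h2 : ((n : ℕ) : ZMod o) = 0 := by
    have h3 := congrArg φ (hG x)
    rw [map_nsmul, hx, map_zero, nsmul_one] at h3
    exact h3
  exact (ZMod.natCast_eq_zero_iff _ _).1 h2

/-- cyclically free sets are the same for two groups of the same order and exponent -/
theorem cyc_transport {G G' : Type*} [AddCommGroup G] [Fintype G] [AddCommGroup G'] [Fintype G']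
    {n : ℕ} (h : Nat.card G = Nat.card G') (hG : AddMonoid.exponent G = n)
    (hG' : AddMonoid.exponent G' = n) {A : Finset G} (hA : CycFree A n) :
    ∃ B : Finset G', #B = #A ∧ CycFree B n := by
  classical
  obtain ⟨o, φ, ho, hφ, hT⟩ := hA
  have hon : o ∣ n := dvd_of_surj
    (fun x => by rw [← hG]; exact AddMonoid.exponent_nsmul_eq_zero x) hφ
  obtain ⟨ψ, hψ⟩ := exists_phi hG'
  obtain ⟨φ', hφ'⟩ : ∃ φ' : G' →+ ZMod o, Function.Surjective φ' :=
    ⟨(ZMod.castHom hon (ZMod o)).toAddMonoidHom.comp ψ,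
      (ZMod.castHom_surjective hon).comp hψ⟩
  have : NeZero o := ⟨by omega⟩
  have hfib : ∀ c : ZMod o, Nonempty ({a : G // φ a = c} ≃ {b : G' // φ' b = c}) := by
    intro c
    apply Fintype.card_eq.1
    rw [Fintype.card_subtype, Fintype.card_subtype]
    have h1 := card_fib hφ c
    have h2 := card_fib hφ' c
    rw [← h, ← h1] at h2
    exact (Nat.eq_of_mul_eq_mul_left (by omega) h2).symm
  let E : G ≃ G' := Equiv.ofFiberEquiv (f := φ) (g := φ') (fun c => (hfib c).some)
  have hE : ∀ x : G, φ' (E x) = φ x := fun x => Equiv.ofFiberEquiv_map _ x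
  refine ⟨A.map E.toEmbedding, card_map _, o, φ', ho, hφ', fun T hTB hTn h0 => ?_⟩
  obtain ⟨T', hT', rfl⟩ := subset_map_iff.1 hTB
  rw [card_map] at hTn
  refine hT T' hT' hTn ?_
  rw [sum_map, map_sum] at h0
  rw [map_sum, ← h0]
  exact sum_congr rfl fun x _ => (hE x).symm

end Pool.Agent.Lib.MPa7239a.RG
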