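import Pool.Agent.Lib.MP_a7239a_co.RG.FULL
import Pool.Agent.Lib.MP_a7239a_co.GC.MainA

/-!
# FULL with at least three elements: no condition on the elements of order two
-/

set_option autoImplicit false

open Finset

namespace Pool.Agent.Lib.MPa7239a.RG

open Pool.Agent.Lib.MPa7239a.GC
open Pool.Agent.Lib.MPa7239a.RK

/-- as `FatFull`, with at least three elements taken and at least three omitted -/
def FatFull3 {G : Type*} [AddCommGroup G] (H : AddSubgroup G) (θ : ℕ) : Prop :=
  ∀ (B : Finset G) (x₀ : G), (∀ x ∈ B, x - x₀ ∈ H) → Nat.card H + θ ≤ 2 * #B →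
    ∀ d : ℕ, 3 ≤ d → d + 3 ≤ #B → ∀ y : G, y - d • x₀ ∈ H → Hit B d y

/-- a set of more than half of a coset: every element is a sum of three distinct elements -/
theorem exists_three {G : Type*} [AddCommGroup G] [Finite G] [DecidableEq G] (K : AddSubgroup G)
    {B : Finset G} {x₀ : G} (hB : ∀ x ∈ B, x - x₀ ∈ K) (hK : Nat.card K + 4 ≤ 2 * #B) {s : G}
    (hs : s - 3 • x₀ ∈ K) :
    ∃ a ∈ B, ∃ b ∈ B, ∃ c ∈ B, a ≠ b ∧ a ≠ c ∧ b ≠ c ∧ a + b + c = s := by
  classical
  have hcoset : ∀ (C : Finset G), (∀ x ∈ C, x - x₀ ∈ K) → #C ≤ Nat.card K :=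
    fun C hC => card_le_of_coset K x₀ hC
  -- it is enough to have an element with few solutions
  have key : ∀ b ∈ B, #(B.filter (fun a => a + a = s - b)) ≤ 1 →
      ∃ a ∈ B, ∃ b ∈ B, ∃ c ∈ B, a ≠ b ∧ a ≠ c ∧ b ≠ c ∧ a + b + c = s := by
    intro b hb hfew
    set I : Finset G := B.image (fun a => s - b - a) with hI
    have hIc : #I = #B := card_image_of_injective _ sub_right_injective
    have hsub : #(B ∪ I) ≤ Nat.card K := by
      refine hcoset _ fun x hx => ?_
      rw [mem_union] at hx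
      rcases hx with hx | hx
      · exact hB x hx
      · rw [hI, mem_image] at hx
        obtain ⟨a, ha, rfl⟩ := hx
        have h1 : s - b - a - x₀ = (s - 3 • x₀) - (b - x₀) - (a - x₀) := by
          rw [show (3 : ℕ) = 1 + 1 + 1 from rfl, add_nsmul, add_nsmul, one_nsmul]
          abel
        rw [h1]
        exact K.sub_mem (K.sub_mem hs (hB b hb)) (hB a ha)
    have h2 := card_union_add_card_inter B I
    have h3 : 4 ≤ #(B ∩ I) := by omega
    have h4 : #(B.filter (fun a => a + a = s - b) ∪ {b, s - b - b}) ≤ 3 := by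
      refine (card_union_le _ _).trans ?_
      have := card_le_two (a := b) (b := s - b - b)
      omega
    obtain ⟨a, ha, ha'⟩ := exists_mem_notMem_of_card_lt_card
      (s := B.filter (fun a => a + a = s - b) ∪ {b, s - b - b}) (t := B ∩ I) (by omega)
    rw [mem_inter, hI, mem_image] at ha
    obtain ⟨haB, c, hc, hca⟩ := ha
    rw [mem_union, mem_filter, mem_insert, mem_singleton] at ha'
    push Not at ha'
    obtain ⟨h5, h6, h7⟩ := ha'
    have h8 : a + b + c = s := by rw [← hca]; abel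
    refine ⟨a, haB, b, hb, c, hc, h6, ?_, ?_, h8⟩
    · rintro rfl
      apply h5 haB
      rw [← h8]
      abel
    · rintro rfl
      apply h7
      rw [← h8]
      abel
  have hpos : 0 < Nat.card K := Nat.card_pos
  by_cases h : ∃ b ∈ B, ∀ a, a - x₀ ∈ K → a + a ≠ s - b
  · obtain ⟨b, hb, hb'⟩ := h
    refine key b hb ?_
    rw [filter_false_of_mem fun a ha => hb' a (hB a ha), card_empty]
    omega
  · push Not at h
    choose! f hf hf2 using h
    -- no element of order two in `K`
    have h2 : ∀ t ∈ K, t + t = 0 → t = 0 := by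
      intro t ht htt
      by_contra ht0
      have hinj : Set.InjOn f B := by
        intro b hb b' hb' hbb
        have h3 := hf2 b hb
        rw [hbb, hf2 b' hb'] at h3
        exact (sub_right_injective h3).symm
      have hdis : Disjoint (B.image f) (B.image (fun b => f b + t)) := by
        rw [disjoint_left]
        intro x hx hx'
        obtain ⟨b, hb, rfl⟩ := mem_image.1 hx
        obtain ⟨b', hb', hbb⟩ := mem_image.1 hx'
        have h3 : s - b' = s - b := by
          rw [← hf2 b hb, ← hf2 b' hb', ← hbb, add_add_add_comm, htt, add_zero]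
        have h4 : b' = b := sub_right_injective h3
        rw [h4] at hbb
        exact ht0 (add_eq_left.1 hbb)
      have h5 : #(B.image f ∪ B.image (fun b => f b + t)) ≤ Nat.card K := by
        refine hcoset _ fun x hx => ?_
        rw [mem_union, mem_image, mem_image] at hx
        rcases hx with ⟨b, hb, rfl⟩ | ⟨b, hb, rfl⟩
        · exact hf b hb
        · rw [add_sub_right_comm]
          exact K.add_mem (hf b hb) ht
      rw [card_union_of_disjoint hdis, card_image_of_injOn hinj, card_image_of_injOn (by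
        intro b hb b' hb' hbb
        exact hinj hb hb' (add_right_cancel hbb))] at h5
      omega
    obtain ⟨b, hb⟩ : B.Nonempty := card_pos.1 (by omega)
    refine key b hb ?_
    rw [card_le_one]
    intro a ha a' ha'
    rw [mem_filter] at ha ha'
    have h3 := h2 (a - a') (by
      have h4 : a - a' = (a - x₀) - (a' - x₀) := by abel
      rw [h4]
      exact K.sub_mem (hB a ha.1) (hB a' ha'.1)) (by
      rw [sub_add_sub_comm, ha.2, ha'.2, sub_self])
    exact sub_eq_zero.1 h3

/-- nearly all elements taken -/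
theorem dense_three {G : Type*} [AddCommGroup G] [Finite G] [DecidableEq G] (K : AddSubgroup G)
    (B : Finset G) (x₀ : G) (hB : ∀ x ∈ B, x - x₀ ∈ K) {k : ℕ} (hk : k + 3 ≤ #B)
    (hK : Nat.card K + 4 ≤ 2 * (k + 3)) {y : G} (hy : y - k • x₀ ∈ K) : Hit B k y := by
  obtain ⟨B', hB', hc⟩ := exists_subset_card_eq hk
  have hsum : ∑ a ∈ B', a - (k + 3) • x₀ ∈ K := by
    have h1 := sum_mem_coset (K := K) (x₀ := x₀) (T := B') fun a ha => hB a (hB' ha)
    rwa [hc] at h1
  obtain ⟨a, ha, b, hb, c, hc', hab, hac, hbc, hs⟩ := exists_three K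
    (B := B') (x₀ := x₀) (s := ∑ a ∈ B', a - y) (fun x hx => hB x (hB' hx)) (by omega) (by
    have h2 : ∑ a ∈ B', a - y - 3 • x₀ = (∑ a ∈ B', a - (k + 3) • x₀) - (y - k • x₀) := by
      rw [add_smul]
      abel
    rw [h2]
    exact K.sub_mem hsum hy)
  refine ⟨((B'.erase a).erase b).erase c, (erase_subset _ _).trans ((erase_subset _ _).trans
    ((erase_subset _ _).trans hB')), ?_, ?_⟩
  · rw [card_erase_of_mem (mem_erase.2 ⟨hbc.symm, mem_erase.2 ⟨hac.symm, hc'⟩⟩),
      card_erase_of_mem (mem_erase.2 ⟨hab.symm, hb⟩), card_erase_of_mem ha, hc]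
    omega
  · have h4 := add_sum_erase ((B'.erase a).erase b) (fun x : G => x)
      (mem_erase.2 ⟨hbc.symm, mem_erase.2 ⟨hac.symm, hc'⟩⟩)
    have h5 := add_sum_erase (B'.erase a) (fun x : G => x) (mem_erase.2 ⟨hab.symm, hb⟩)
    have h6 := add_sum_erase B' (fun x : G => x) ha
    have h7 : ∑ x ∈ ((B'.erase a).erase b).erase c, x = ∑ x ∈ B', x - (a + b + c) := by
      rw [← h6, ← h5, ← h4]
      abel
    rw [h7, hs]
    abel

/-- **FULL** with at least three elements, general form. -/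
theorem fat_full3 {G : Type*} [AddCommGroup G] [Fintype G] [DecidableEq G] {ℓ b : ℕ}
    (hcard : Nat.card G ≤ 4 ^ ℓ)
    (hb : (b + 1) * Fintype.card G < 2 ^ b) (K : AddSubgroup G) {B : Finset G} {x₀ : G}
    (hB : ∀ x ∈ B, x - x₀ ∈ K) (hK : Nat.card K + (56 * (ℓ * b) + 4) ≤ 2 * #B) {d : ℕ}
    (hd : 3 ≤ d) (hd2 : d + 3 ≤ #B) {y : G} (hy : y - d • x₀ ∈ K) : Hit B d y := by
  classical
  by_cases h1 : Nat.card K + 4 ≤ 2 * (d + 3)
  · exact dense_three K B x₀ hB hd2 h1 hy
  by_cases h2 : Nat.card K + 4 ≤ 2 * (#B - d + 3)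
  · refine Hit.compl (by omega) (dense_three K B x₀ hB (by omega) h2 ?_)
    have h3 := sum_mem_coset hB
    have h5 : ∑ a ∈ B, a - y - (#B - d) • x₀ = (∑ a ∈ B, a - #B • x₀) - (y - d • x₀) := by
      have h6 : #B • x₀ = (#B - d) • x₀ + d • x₀ := by
        rw [← add_smul]
        congr 1
        omega
      rw [h6]
      abel
    rw [h5]
    exact K.sub_mem h3 hy
  obtain ⟨V, S, hbox⟩ := exists_boxes (⊥ : AddSubgroup G) B (14 * ℓ) b hb
  have hwb : 14 * ℓ * (2 * b) = 28 * (ℓ * b) := by ring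
  have hloss := hbox.loss
  rw [hwb] at hloss
  have hVB : (range (14 * ℓ)).biUnion V ⊆ B := by
    intro x hx
    obtain ⟨i, hi, hxi⟩ := mem_biUnion.1 hx
    exact hbox.sub i (mem_range.1 hi) hxi
  have hVc : #((range (14 * ℓ)).biUnion V) ≤ 28 * (ℓ * b) := by
    rw [← hwb]
    refine (card_biUnion_le_card_mul _ _ _ fun i hi => hbox.card i (mem_range.1 hi)).trans ?_
    rw [card_range]
  have hbot : Fills (⊥ : AddSubgroup G) (∅ : Finset G) := by
    refine ⟨0, 0, fun h hh => ?_⟩
    rw [AddSubgroup.mem_bot.1 hh]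
    exact ⟨∅, Subset.rfl, by simp, by simp⟩
  have hF : Fills K (∅ ∪ (range (14 * ℓ)).biUnion V) := by
    refine fill_of_ball hbot (disjoint_empty_left B) hbox hcard (k := 1) (by omega) ?_
    intro x hx
    rw [mem_ball_one, mem_Dif]
    obtain ⟨a, ha, c, hc, hac⟩ := exists_sub (K := K) (S := S) (x₀ := x₀)
      (fun x hx => hB x (hbox.ssub hx)) (by omega) hx
    exact ⟨a, ha, c, hc, by rw [hac]⟩
  rw [empty_union] at hF
  exact hit_of_fills hVB hB hF (by omega) (by omega) hy

/-- **FULL** with at least three elements, for a group of order at most `n ^ 2`: no condition on the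
elements of order two -/
theorem fatFull3 {G : Type*} [AddCommGroup G] [Fintype G] [DecidableEq G] {n ℓ : ℕ}
    (hcard : Nat.card G ≤ n ^ 2) (hℓ : n < 2 ^ ℓ)
    (hb : (3 * ℓ + 1) * n ^ 2 < 2 ^ (3 * ℓ)) (H : AddSubgroup G) :
    FatFull3 H (600 * ℓ ^ 3 + 4) := by
  intro B x₀ hB hK d hd hd2 y hy
  refine fat_full3 (ℓ := ℓ) (b := 3 * ℓ) ?_ ?_ H hB ?_ hd hd2 hy
  · calc Nat.card G ≤ n ^ 2 := hcard
      _ ≤ (2 ^ ℓ) ^ 2 := Nat.pow_le_pow_left hℓ.le 2
      _ = 4 ^ ℓ := by rw [← pow_mul, mul_comm, pow_mul]; norm_num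
  · rw [← Nat.card_eq_fintype_card]
    exact lt_of_le_of_lt (Nat.mul_le_mul_left _ hcard) hb
  · have h2 : 56 * (ℓ * (3 * ℓ)) = 168 * ℓ ^ 2 := by ring
    have h3 : 168 * ℓ ^ 2 ≤ 600 * ℓ ^ 3 := by
      rcases Nat.eq_zero_or_pos ℓ with h | h
      · rw [h]
        norm_num
      · calc 168 * ℓ ^ 2 ≤ 600 * ℓ ^ 2 := Nat.mul_le_mul_right _ (by norm_num)
          _ ≤ 600 * ℓ ^ 3 := Nat.mul_le_mul_left _ (Nat.pow_le_pow_right h (by norm_num))
    omega

end Pool.Agent.Lib.MPa7239a.RG
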