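import Pool.Agent.Lib.MP_a7239a_co.RG.INP
import Pool.Agent.Lib.MP_a7239a_co.RK.AMJ2
import Pool.Agent.Lib.MP_a7239a_co.RK.PAR2

/-!
# The ambient structure for a general group (Theorem G, module AMB, helper25)

As `RK/MAIN2`, for a finite abelian group of exponent `n` and order `m * n`; `w` bounds the number
of solutions of `2 x = s`.
-/

set_option autoImplicit false

open Finset

namespace Pool.Agent.Lib.MPa7239a.RG

open Pool.Agent.Lib.MPa7239a.GC hiding cs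
open Pool.Agent.Lib.MPa7239a.RK (Amb amb_of_amj)

/-- the numbers of the argument -/
structure Nums (n m t ℓ w loss E L : ℕ) : Prop where
  ht : 2 ≤ t
  hn : n = t * m
  hℓ : n < 2 ^ ℓ
  hb : (3 * ℓ + 1) * n ^ 2 < 2 ^ (3 * ℓ)
  hE : E = (t + 3) * (loss + 1)
  hL : L = (t + 2) * (E + 10)
  big : 100 * (t + 1) * (t + 1) * (L + 2 * E + (600 * ℓ ^ 3 + w) + 10) ≤ m

/-- the ambient structure exists for all subsets of `G` -/
def HasAmb (G : Type*) [AddCommGroup G] (n m t loss : ℕ) : Prop :=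
  ∀ (A : Finset G) (c : ℕ), #A = n + c → m ≤ c → c + 3 * loss ≤ n → ¬ Hit A n 0 →
    ∃ (H : AddSubgroup G) (e q₀ : G) (S : Finset G) (z : G → ℤ) (s o k t' : ℕ) (u v : ℤ),
      Amb H e q₀ A S z m t n c s o loss k t' u v

section

variable {n m t ℓ w loss E L : ℕ}

theorem Nums.ne_zero (N : Nums n m t ℓ w loss E L) : n ≠ 0 := by
  have h1 := N.ht
  have h2 := N.big
  rw [N.hn]
  refine Nat.mul_ne_zero (by omega) ?_
  rintro rfl
  have h3 : 0 < 100 * (t + 1) * (t + 1) * (L + 2 * E + (600 * ℓ ^ 3 + w) + 10) := by positivity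
  omega

theorem Nums.loss_le (N : Nums n m t ℓ w loss E L) : 1000 * t * (loss + 1) ≤ m := by
  refine le_trans ?_ N.big
  have ht := N.ht
  have h1 : 5 * (loss + 1) ≤ E := by
    rw [N.hE]
    exact Nat.mul_le_mul_right _ (by omega)
  have h3 : 200 * t ≤ 100 * (t + 1) * (t + 1) := by nlinarith
  calc 1000 * t * (loss + 1) = 200 * t * (5 * (loss + 1)) := by ring
    _ ≤ 100 * (t + 1) * (t + 1) * E := Nat.mul_le_mul h3 h1
    _ ≤ _ := Nat.mul_le_mul_left _ (by omega)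

theorem Nums.loss_le' (N : Nums n m t ℓ w loss E L) : 2000 * (loss + 1) ≤ m := by
  refine le_trans (Nat.mul_le_mul_right _ ?_) N.loss_le
  have := N.ht
  omega

theorem Nums.two_le (N : Nums n m t ℓ w loss E L) : 2 * m ≤ n := by
  rw [N.hn]
  exact Nat.mul_le_mul_right _ N.ht

end

/-- the ambient structure -/
theorem hasAmb {G : Type*} [AddCommGroup G] [Fintype G] [DecidableEq G]
    {m n t ℓ w M Λ k₀ loss E L : ℕ} (hexp : ∀ x : G, n • x = 0) (hG : Nat.card G = m * n)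
    (hpar : RS.Par m n ℓ M Λ k₀) (N : Nums n m t ℓ w loss E L) (hloss : loss = 2592 * M * ℓ ^ 3) :
    HasAmb G n m t loss := by
  intro A c hc hmc hcn hno
  have : NeZero n := ⟨N.ne_zero⟩
  have ht := N.ht
  have hbig := N.big
  have h1 : 2 * (n + m) ≤ m * m := by
    have h2 : 2 * (t + 1) ≤ m := by
      refine le_trans ?_ hbig
      calc 2 * (t + 1) ≤ 100 * (t + 1) * (t + 1) * 10 := by nlinarith
        _ ≤ _ := Nat.mul_le_mul_left _ (by omega)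
    calc 2 * (n + m) = 2 * (t + 1) * m := by
          rw [N.hn]
          ring
      _ ≤ m * m := Nat.mul_le_mul_right _ h2
  have hGc : Fintype.card G ≤ n ^ 2 := by
    rw [← Nat.card_eq_fintype_card, hG, sq]
    exact Nat.mul_le_mul_right _ hpar.hmn
  have htop : Nat.card (⊤ : AddSubgroup G) = m * n := by
    rw [AddSubgroup.card_top, hG]
  obtain ⟨H, e, q, S, z, o, k, t', Z, u, v, h⟩ :=
    input' hexp hGc hpar htop hloss (fun x _ => AddSubgroup.mem_top x) hc le_rfl (by omega) hmc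
      (Or.inr (Or.inr h1)) (N.hn ▸ Dvd.intro_left t rfl) hcn hno
  have h2 : 100 * (t + 1) * (loss + 1) ≤ m := by
    refine le_trans ?_ hbig
    have h3 : loss + 1 ≤ E := by
      rw [N.hE]
      exact Nat.le_mul_of_pos_left _ (by omega)
    calc 100 * (t + 1) * (loss + 1) ≤ 100 * (t + 1) * (t + 1) * E :=
          Nat.mul_le_mul (Nat.le_mul_of_pos_right _ (by omega)) h3
      _ ≤ _ := Nat.mul_le_mul_left _ (by omega)
  obtain ⟨s, hs⟩ := amb_of_amj h N.hn ht hmc (hexp q) h2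
  exact ⟨H, e, q, S, z, s, o, k, t', u, v, hs⟩

/-- the last inequality, with room for `w` -/
theorem final_w {m a x t loss E L : ℕ} (h1 : a ^ 4 ≤ m) (hx : 1 ≤ x) (ht : 2 ≤ t)
    (ha : 10 ^ 10 * (t + 1) ^ 4 * x ≤ a) (hl : loss = 2592 * (5 * a ^ 3) * x)
    (hE : E = (t + 3) * (loss + 1)) (hL : L = (t + 2) * (E + 10)) :
    200 * (t + 1) * (t + 1) * (L + 2 * E + 600 * x + 10) ≤ m := by
  have ha1 : 1 ≤ a := by
    have : 1 ≤ 10 ^ 10 * (t + 1) ^ 4 * x := by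
      have h2 : 1 ≤ (t + 1) ^ 4 := Nat.one_le_pow _ _ (by omega)
      calc 1 = 1 * 1 * 1 := by norm_num
        _ ≤ 10 ^ 10 * (t + 1) ^ 4 * x := Nat.mul_le_mul (Nat.mul_le_mul (by norm_num) h2) hx
    omega
  have ha3 : 1 ≤ a ^ 3 := Nat.one_le_pow _ _ ha1
  set y := x * a ^ 3 with hy
  have hy1 : x ≤ y := Nat.le_mul_of_pos_right x (by omega)
  have hl' : loss = 12960 * y := by
    rw [hl, hy]
    ring
  have hE' : E ≤ 2 * (t + 1) * (12961 * y) := by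
    rw [hE]
    refine Nat.mul_le_mul (by omega) (by omega)
  have hL' : L + 2 * E + 600 * x + 10 ≤ 2 * (t + 1) * (E + 10 + 600 * y) := by
    have h2 : 2 * (t + 1) * (E + 10 + 600 * y) = (t + 2) * (E + 10) + t * (E + 10) +
        2 * (t + 1) * (600 * y) := by ring
    have h3 : 2 * (E + 10) ≤ t * (E + 10) := Nat.mul_le_mul_right _ ht
    have h4 : 1 * (600 * y) ≤ 2 * (t + 1) * (600 * y) := Nat.mul_le_mul_right _ (by omega)
    rw [h2, hL]
    omega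
  have h5 : E + 10 + 600 * y ≤ 2 * (t + 1) * (13600 * y) := by
    have h6 : 1 * (610 * y) ≤ 2 * (t + 1) * (610 * y) := Nat.mul_le_mul_right _ (by omega)
    have h7 : 2 * (t + 1) * (13600 * y) = 2 * (t + 1) * (12961 * y) + 2 * (t + 1) * (610 * y) +
      2 * (t + 1) * (29 * y) := by ring
    omega
  calc 200 * (t + 1) * (t + 1) * (L + 2 * E + 600 * x + 10)
      ≤ 200 * (t + 1) * (t + 1) * (2 * (t + 1) * (2 * (t + 1) * (13600 * y))) :=
        Nat.mul_le_mul_left _ (hL'.trans (Nat.mul_le_mul_left _ h5))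
    _ = (10880000 * (t + 1) ^ 4 * x) * a ^ 3 := by
        rw [hy]
        ring
    _ ≤ a * a ^ 3 := by
        refine Nat.mul_le_mul_right _ (le_trans ?_ ha)
        exact Nat.mul_le_mul_right _ (Nat.mul_le_mul_right _ (by norm_num))
    _ = a ^ 4 := by ring
    _ ≤ m := h1

open RK.PAR2M in
/-- the parameters for `m ≥ 10 ^ 40 (t + 1) ^ 16 (log n) ^ 12`, with room for `w` -/
theorem exists_parw {m t n : ℕ} (hn : n = t * m) (ht : 2 ≤ t)
    (hm : 10 ^ 40 * (t + 1) ^ 16 * (Nat.log 2 n + 1) ^ 12 ≤ m) :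
    ∃ ℓ M Λ k E L loss : ℕ, RS.Par m n ℓ M Λ k ∧ loss = 2592 * M * ℓ ^ 3 ∧
      E = (t + 3) * (loss + 1) ∧ L = (t + 2) * (E + 10) ∧
      200 * (t + 1) * (t + 1) * (L + 2 * E + 600 * ℓ ^ 3 + 10) ≤ m := by
  obtain ⟨a, ha1, ha2⟩ := exists_fourth m
  set ℓ := Nat.log 2 n + 1 with hℓ
  have hℓ1 : 1 ≤ ℓ := by omega
  have hx : 1 ≤ ℓ ^ 3 := Nat.one_le_pow _ _ hℓ1
  have ha : 10 ^ 10 * (t + 1) ^ 4 * ℓ ^ 3 ≤ a := by
    by_contra hlt
    push Not at hlt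
    have h1 : (a + 1) ^ 4 ≤ (10 ^ 10 * (t + 1) ^ 4 * ℓ ^ 3) ^ 4 := Nat.pow_le_pow_left hlt 4
    have h2 : (10 ^ 10 * (t + 1) ^ 4 * ℓ ^ 3) ^ 4 = 10 ^ 40 * (t + 1) ^ 16 * ℓ ^ 12 := by ring
    omega
  obtain ⟨n1, n2, n3, n4, n5⟩ := numbers ha1 ha2 hx ha
  have hmn : m ≤ n := by
    rw [hn]
    exact Nat.le_mul_of_pos_left m (by omega)
  have ha16 : 16 ≤ a := by
    have h2 : 1 ≤ (t + 1) ^ 4 := Nat.one_le_pow _ _ (by omega)
    have h3 : 10 ^ 10 * 1 * 1 ≤ 10 ^ 10 * (t + 1) ^ 4 * ℓ ^ 3 :=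
      Nat.mul_le_mul (Nat.mul_le_mul_left _ h2) hx
    omega
  have ha3 : 1 ≤ a ^ 3 := Nat.one_le_pow _ _ (by omega)
  have ha2' : 1 ≤ a ^ 2 := Nat.one_le_pow _ _ (by omega)
  have hn16 : 16 ≤ n := by
    have h1 : a ≤ a ^ 4 := Nat.le_self_pow (by norm_num) a
    omega
  have hℓ5 : 5 ≤ ℓ := by
    have h1 : 4 ≤ Nat.log 2 n := by
      refine Nat.le_log_of_pow_le (by norm_num) ?_
      norm_num
      exact hn16
    omega
  have hnℓ : n < 2 ^ ℓ := by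
    rw [hℓ]
    exact Nat.lt_pow_succ_log_self (by norm_num) n
  have hk : 6 * a ^ 2 - 1 + 1 = 6 * a ^ 2 := by omega
  refine ⟨ℓ, 5 * a ^ 3, 3 * m / (5 * a ^ 3) + 1, 6 * a ^ 2 - 1, _, _, _,
    ⟨hnℓ, ?_, by omega, hmn, n1, ?_, ?_, n4, n5⟩, rfl, rfl, rfl, ?_⟩
  · have hpow : ∀ x : ℕ, 5 ≤ x → 3 * x + 1 ≤ 2 ^ x := by
      intro x hx
      induction x, hx using Nat.le_induction with
      | base => norm_num
      | succ x hx ih =>
        have h9 : 2 ^ (x + 1) = 2 * 2 ^ x := by ring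
        omega
    have h9 : n ^ 2 < (2 ^ ℓ) ^ 2 := Nat.pow_lt_pow_left hnℓ (by norm_num)
    have h10 : 2 ^ (3 * ℓ) = 2 ^ ℓ * (2 ^ ℓ) ^ 2 := by
      rw [← pow_mul, ← pow_add]
      congr 1
      ring
    rw [h10]
    calc (3 * ℓ + 1) * n ^ 2 ≤ 2 ^ ℓ * n ^ 2 := Nat.mul_le_mul_right _ (hpow ℓ hℓ5)
      _ < 2 ^ ℓ * (2 ^ ℓ) ^ 2 := Nat.mul_lt_mul_of_pos_left h9 (by positivity)
  · rw [hk]
    exact n2
  · rw [hk]
    exact n3
  · exact final_w ha1 hx ht ha rfl rfl rfl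

/-- everything that is needed -/
theorem exists_nums {G : Type*} [AddCommGroup G] [Fintype G] [DecidableEq G] {m t n w : ℕ}
    (hexp : ∀ x : G, n • x = 0) (hG : Nat.card G = m * n) (hn : n = t * m) (ht : 2 ≤ t)
    (hm : 10 ^ 40 * (t + 1) ^ 16 * (Nat.log 2 n + 1) ^ 12 ≤ m)
    (hw : 10 ^ 8 * (t + 1) ^ 2 * w ≤ m) :
    ∃ ℓ loss E L : ℕ, Nums n m t ℓ w loss E L ∧ HasAmb G n m t loss := by
  obtain ⟨ℓ, M, Λ, k, E, L, loss, hpar, hloss, hE, hL, hbig⟩ := exists_parw hn ht hm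
  have hbig' : 100 * (t + 1) * (t + 1) * (L + 2 * E + (600 * ℓ ^ 3 + w) + 10) ≤ m := by
    have h1 : 200 * ((t + 1) ^ 2 * (L + 2 * E + 600 * ℓ ^ 3 + 10)) ≤ m := by
      refine le_trans (le_of_eq ?_) hbig
      ring
    have h2 : 10 ^ 8 * ((t + 1) ^ 2 * w) ≤ m := by
      refine le_trans (le_of_eq ?_) hw
      ring
    calc 100 * (t + 1) * (t + 1) * (L + 2 * E + (600 * ℓ ^ 3 + w) + 10)
        = 100 * ((t + 1) ^ 2 * (L + 2 * E + 600 * ℓ ^ 3 + 10)) + 100 * ((t + 1) ^ 2 * w) := by ring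
      _ ≤ m := by omega
  have N : Nums n m t ℓ w loss E L := ⟨ht, hn, hpar.hℓ, hpar.hb, hE, hL, hbig'⟩
  exact ⟨ℓ, loss, E, L, N, hasAmb hexp hG hpar N hloss⟩

end Pool.Agent.Lib.MPa7239a.RG
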