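import Pool.Agent.Lib.MP_a7239a_co.RS.TwoOne

/-!
# TwoOne for groups with at most `w` solutions of `x + x = s`
-/

set_option autoImplicit false

open Finset

namespace Pool.Agent.Lib.MPa7239a.RG.TwoOne

open Pool.Agent.Lib.MPa7239a.GC
open Pool.Agent.Lib.MPa7239a.RS.TwoOne

section core
variable {Q : Type*} [AddCommGroup Q] [Fintype Q] [DecidableEq Q]

theorem inter_refl_le {w : ℕ} (h4 : ∀ s : Q, #{x : Q | x + x = s} ≤ w) {A : Finset Q} {g : Q}
    (hg : g ∈ nonsum A) : #(A ∩ A.image (fun a => g - a)) ≤ w := by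
  refine (card_le_card ?_).trans (h4 g)
  intro a ha
  rw [mem_inter, mem_image] at ha
  obtain ⟨ha, b, hb, hab⟩ := ha
  rw [mem_filter]
  refine ⟨mem_univ _, ?_⟩
  have hs : a + b = g := by rw [← hab]; abel
  by_cases hne : a = b
  · rw [← hne] at hs
    exact hs
  · exact absurd hs ((mem_filter.1 hg).2 a ha b hb hne)

/-- two nonsums: their difference is almost a period -/
theorem miss_nonsum {w : ℕ} (h4 : ∀ s : Q, #{x : Q | x + x = s} ≤ w) {A : Finset Q} {g g' : Q}
    (hg : g ∈ nonsum A) (hg' : g' ∈ nonsum A) :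
    2 * #A + miss A (g - g') ≤ Fintype.card Q + 2 * w := by
  classical
  set X := A.image (fun a => g - a) with hX
  set Y := A.image (fun a => g' - a) with hY
  have hXc : #X = #A := card_image_of_injective _ (sub_right_injective)
  have hYc : #Y = #A := card_image_of_injective _ (sub_right_injective)
  have h1 : #(A ∩ X) ≤ w := inter_refl_le h4 hg
  have h2 : #(A ∩ Y) ≤ w := inter_refl_le h4 hg'
  have h3 : #(X ∩ Y) ≤ #(A.filter (fun a => a - (g - g') ∈ A)) := by
    refine card_le_card_of_injOn (fun x => g - x) ?_ ?_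
    · intro x hx
      have hx' := mem_inter.1 (mem_coe.1 hx)
      obtain ⟨a, ha, hax⟩ := mem_image.1 hx'.1
      obtain ⟨b, hb, hbx⟩ := mem_image.1 hx'.2
      rw [mem_coe, mem_filter]
      have e1 : g - x = a := by rw [← hax]; abel
      have e2 : g - x - (g - g') = b := by
        rw [← hbx]; abel
      show g - x ∈ A ∧ g - x - (g - g') ∈ A
      rw [e2, e1]
      exact ⟨ha, hb⟩
    · intro x _ y _ hxy
      exact sub_right_injective hxy
  have h5 : #(A.filter (fun a => a - (g - g') ∈ A)) + miss A (g - g') = #A :=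
    card_filter_add_card_filter_not (s := A) (fun a => a - (g - g') ∈ A)
  have h6 := card_union_add_card_inter X Y
  have h7 := card_union_add_card_inter A (X ∪ Y)
  have h8 : #(A ∪ (X ∪ Y)) ≤ Fintype.card Q := card_le_univ _
  have h9 : #(A ∩ (X ∪ Y)) ≤ 2 * w := by
    rw [inter_union_distrib_left]
    exact (card_union_le _ _).trans (by omega)
  omega

theorem two_card_le {w : ℕ} (h4 : ∀ s : Q, #{x : Q | x + x = s} ≤ w) {A : Finset Q} {g : Q}
    (hg : g ∈ nonsum A) : 2 * #A ≤ Fintype.card Q + w := by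
  have h1 := inter_refl_le h4 hg
  have h2 : #(A.image (fun a => g - a)) = #A := card_image_of_injective _ (sub_right_injective)
  have h3 := card_union_add_card_inter A (A.image (fun a => g - a))
  have h5 : #(A ∪ A.image (fun a => g - a)) ≤ Fintype.card Q := card_le_univ _
  omega

/-- a subgroup `K` that contains `P - P`, where `P` is the set of nonsums -/
theorem index_two {w : ℕ} (h4 : ∀ s : Q, #{x : Q | x + x = s} ≤ w) (hQ : 10000 * w ≤ Fintype.card Q)
    {A : Finset Q} (hA : 99 * Fintype.card Q ≤ 200 * #A)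
    (hP : 99 * Fintype.card Q ≤ 200 * #(nonsum A)) :
    ∃ K : AddSubgroup Q, 2 * Nat.card K = Nat.card Q ∧ (∀ a ∈ A, ∀ a' ∈ A, a' - a ∈ K) ∧
      ∀ g ∈ nonsum A, ∀ g' ∈ nonsum A, g' - g ∈ K := by
  classical
  set N := Fintype.card Q with hN
  set P := nonsum A with hPd
  have hw1 : 1 ≤ w := (card_pos.2 ⟨0, mem_filter.2 ⟨mem_univ _, add_zero 0⟩⟩ :
    0 < #{x : Q | x + x = 0}).trans_le (h4 0)
  obtain ⟨g₀, hg₀⟩ : P.Nonempty := card_pos.1 (by omega)
  have hA2 : 2 * #A ≤ N + w := two_card_le h4 hg₀
  set D : Finset Q := (P ×ˢ P).image (fun p => p.2 - p.1) with hD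
  have hDmem : ∀ {x : Q}, x ∈ D ↔ ∃ a ∈ P, ∃ b ∈ P, b - a = x := by
    intro x
    rw [hD, mem_image]
    constructor
    · rintro ⟨⟨a, b⟩, hp, rfl⟩
      rw [mem_product] at hp
      exact ⟨a, hp.1, b, hp.2, rfl⟩
    · rintro ⟨a, ha, b, hb, rfl⟩
      exact ⟨(a, b), mem_product.2 ⟨ha, hb⟩, rfl⟩
  have h0 : (0 : Q) ∈ D := hDmem.2 ⟨g₀, hg₀, g₀, hg₀, sub_self _⟩
  have hneg : ∀ x ∈ D, -x ∈ D := by
    intro x hx
    obtain ⟨a, ha, b, hb, rfl⟩ := hDmem.1 hx
    exact hDmem.2 ⟨b, hb, a, ha, by abel⟩
  have hPD : #P ≤ #D := by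
    refine card_le_card_of_injOn (fun x => x - g₀) ?_ ?_
    · intro x hx
      exact mem_coe.2 (hDmem.2 ⟨g₀, hg₀, x, hx, rfl⟩)
    · intro x _ y _ hxy
      exact sub_left_injective hxy
  have hDm : ∀ v ∈ D, 100 * miss A v ≤ N + 200 * w := by
    intro v hv
    obtain ⟨a, ha, b, hb, rfl⟩ := hDmem.1 hv
    have h1 := miss_nonsum h4 hb ha
    omega
  set K : AddSubgroup Q := AddSubgroup.closure (D : Set Q) with hK
  have hPK : ∀ g ∈ P, ∀ g' ∈ P, g' - g ∈ K := fun g hg g' hg' =>
    AddSubgroup.subset_closure (mem_coe.2 (hDmem.2 ⟨g, hg, g', hg', rfl⟩))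
  have hcardQ : Nat.card Q = N := Nat.card_eq_fintype_card
  have hKdvd : Nat.card K * K.index = N := by rw [AddSubgroup.card_mul_index, hcardQ]
  have hPcardK : #P ≤ Nat.card K := by
    have : Fintype K := Fintype.ofFinite K
    rw [Nat.card_eq_fintype_card, ← card_univ]
    refine card_le_card_of_injOn (fun x => if h : x - g₀ ∈ K then (⟨x - g₀, h⟩ : K) else 0) ?_ ?_
    · intro x _
      exact mem_coe.2 (mem_univ _)
    · intro x hx y hy hxy
      have h1 := hPK g₀ hg₀ x hx
      have h2 := hPK g₀ hg₀ y hy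
      simp only [h1, h2, dif_pos] at hxy
      exact sub_left_injective (congrArg Subtype.val hxy)
  have hidx : K.index = 1 ∨ K.index = 2 := by
    have h1 : K.index ≠ 0 := AddSubgroup.index_ne_zero_of_finite
    have h2 : ¬ 3 ≤ K.index := by
      intro h3
      have h5 : Nat.card K * 3 ≤ N := by
        rw [← hKdvd]
        exact Nat.mul_le_mul_left _ h3
      omega
    omega
  rcases hidx with hi | hi
  · exfalso
    have hK1 : K = ⊤ := AddSubgroup.index_eq_one.1 hi
    obtain ⟨i, hi7, hst⟩ : ∃ i < 7, ball D (i + 1) = ball D i := by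
      by_contra hcon
      push Not at hcon
      have h1 := growth h0 hneg (N := 7) hcon (a := 1) (k := 7) le_rfl (by norm_num)
      have h2 : #(ball D (1 * 7)) ≤ N := card_le_univ _
      rw [card_ball_one] at h1
      omega
    have hall : ∀ v ∈ (univ : Finset Q), 100 * miss A v ≤ 7 * (N + 200 * w) := by
      intro v _
      have h1 : v ∈ ball D i := closure_le_ball h0 hneg hst (by
        rw [← hK, hK1]
        exact AddSubgroup.mem_top v)
      refine (miss_ball hDm h1).trans ?_
      exact Nat.mul_le_mul_right _ (by omega)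
    have h2 := miss_count (A := A) (A' := A) (V := univ) (X := univ) Subset.rfl hall
      (fun a _ x _ => mem_univ _)
    rw [card_univ, ← hN, card_sdiff_of_subset (subset_univ _), card_univ, ← hN] at h2
    obtain ⟨y, hy⟩ : ∃ y, N = #A + y := ⟨N - #A, by omega⟩
    rw [show N - #A = y by omega] at h2
    nlinarith
  · have hKN : Nat.card K * 2 = N := by rw [← hKdvd, hi]
    have hVD : ∀ v ∈ K, v ∈ D := by
      intro v hv
      obtain ⟨a, ha, b, hb, hab⟩ := exists_diff (K := K) (S := P) (x₀ := g₀)
        (fun x hx => hPK g₀ hg₀ x hx) (by omega) hv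
      exact hDmem.2 ⟨a, ha, b, hb, hab⟩
    have hsub2 : ∀ {x y : Q}, x ∉ K → y ∉ K → x - y ∈ K := by
      intro x y hx hy
      rw [sub_eq_add_neg, AddSubgroup.add_mem_iff_of_index_two hi]
      simp [hx, hy]
    -- the larger half
    obtain ⟨a₀, ha₀, hlarge⟩ : ∃ a₀ ∈ A, #A ≤ 2 * #(A.filter (fun a => a - a₀ ∈ K)) := by
      obtain ⟨a, ha⟩ : A.Nonempty := card_pos.1 (by omega)
      have h1 := card_filter_add_card_filter_not (s := A) (fun x => x - a ∈ K)
      by_cases h2 : #(A.filter (fun x => ¬ x - a ∈ K)) ≤ #(A.filter (fun x => x - a ∈ K))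
      · exact ⟨a, ha, by omega⟩
      · obtain ⟨b, hb⟩ : (A.filter (fun x => ¬ x - a ∈ K)).Nonempty := card_pos.1 (by omega)
        rw [mem_filter] at hb
        refine ⟨b, hb.1, ?_⟩
        have h3 : A.filter (fun x => ¬ x - a ∈ K) ⊆ A.filter (fun x => x - b ∈ K) := by
          intro x hx
          rw [mem_filter] at hx ⊢
          refine ⟨hx.1, ?_⟩
          have h5 := hsub2 hx.2 hb.2
          rwa [sub_sub_sub_cancel_right] at h5
        have h6 := card_le_card h3
        omega
    set A' := A.filter (fun a => a - a₀ ∈ K) with hA'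
    set X : Finset Q := univ.filter (fun x => x - a₀ ∈ K) with hX
    set V : Finset Q := univ.filter (fun x => x ∈ K) with hV
    have hVc : #V = Nat.card K := by
      rw [hV, ← Fintype.card_subtype, Nat.card_eq_fintype_card]
    have hXc : #X = Nat.card K := by
      rw [← hVc]
      refine card_bij (fun x _ => x - a₀) ?_ ?_ ?_
      · intro x hx
        rw [hX, mem_filter] at hx
        rw [hV, mem_filter]
        exact ⟨mem_univ _, hx.2⟩
      · intro x _ y _ hxy
        exact sub_left_injective hxy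
      · intro y hy
        rw [hV, mem_filter] at hy
        refine ⟨y + a₀, ?_, by abel⟩
        rw [hX, mem_filter]
        refine ⟨mem_univ _, ?_⟩
        rw [add_sub_cancel_right]
        exact hy.2
    have hA'X : A' ⊆ X := by
      intro a ha
      rw [hA', mem_filter] at ha
      rw [hX, mem_filter]
      exact ⟨mem_univ _, ha.2⟩
    have hXA : X \ A = X \ A' := by
      ext x
      simp only [mem_sdiff, hA', mem_filter, hX, mem_univ, true_and]
      tauto
    have hcount := miss_count (A := A) (A' := A') (V := V) (X := X) (filter_subset _ _)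
      (M := N + 200 * w) (fun v hv => hDm v (hVD v (mem_filter.1 hv).2)) (by
        intro a ha x hx
        rw [hA', mem_filter] at ha
        rw [hX, mem_filter] at hx
        rw [hV, mem_filter]
        refine ⟨mem_univ _, ?_⟩
        have h1 := K.sub_mem ha.2 hx.2
        rwa [sub_sub_sub_cancel_right] at h1)
    rw [hXA, card_sdiff_of_subset hA'X, hXc, hVc, ← hKN] at hcount
    have hαk : #A' ≤ Nat.card K := by
      rw [← hXc]
      exact card_le_card hA'X
    obtain ⟨y, hy⟩ : ∃ y, Nat.card K = #A' + y := ⟨Nat.card K - #A', by omega⟩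
    have hy20 : 20 * y ≤ Nat.card K := by
      by_contra hcon
      push Not at hcon
      rw [show Nat.card K - #A' = y by omega] at hcount
      have h1 : 99 * Nat.card K ≤ 200 * #A' := by omega
      have h2 : 5000 ≤ Nat.card K := by omega
      set κ := Nat.card K
      have h3 : 99 * κ * (κ + 1) ≤ 200 * #A' * (20 * y) := Nat.mul_le_mul h1 (by omega)
      nlinarith
    refine ⟨K, by omega, ?_, hPK⟩
    have hAK : ∀ a ∈ A, a - a₀ ∈ K := by
      by_contra hcon
      push Not at hcon
      obtain ⟨b, hb, hbK⟩ := hcon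
      have hg1 : ∀ g ∈ P, g - a₀ - a₀ ∉ K := by
        intro g hg hgK
        have h1 := inter_refl_le h4 hg
        have h2 : A' ∩ A'.image (fun a => g - a) ⊆ A ∩ A.image (fun a => g - a) :=
          inter_subset_inter (filter_subset _ _) (image_subset_image (filter_subset _ _))
        have h3 := card_le_card h2
        have h5 := card_union_add_card_inter A' (A'.image (fun a => g - a))
        have h6 : #(A'.image (fun a => g - a)) = #A' :=
          card_image_of_injective _ sub_right_injective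
        have h7 : #(A' ∪ A'.image (fun a => g - a)) ≤ Nat.card K := by
          rw [← hXc]
          refine card_le_card (union_subset hA'X ?_)
          intro x hx
          obtain ⟨a, ha, rfl⟩ := mem_image.1 hx
          rw [hA', mem_filter] at ha
          rw [hX, mem_filter]
          refine ⟨mem_univ _, ?_⟩
          have h8 := K.sub_mem hgK ha.2
          have h9 : g - a - a₀ = g - a₀ - a₀ - (a - a₀) := by abel
          rw [h9]
          exact h8
        omega
      have hPX : #P ≤ #(X \ A') := by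
        refine card_le_card_of_injOn (fun g => g - b) ?_ ?_
        · intro g hg
          rw [mem_coe] at hg
          rw [mem_coe, mem_sdiff, hX, mem_filter]
          refine ⟨⟨mem_univ _, ?_⟩, ?_⟩
          · have h1 := hsub2 (hg1 g hg) hbK
            have h2 : g - b - a₀ = g - a₀ - a₀ - (b - a₀) := by abel
            rw [h2]
            exact h1
          · intro h1
            rw [hA', mem_filter] at h1
            have h2 := (mem_filter.1 hg).2 b hb (g - b) h1.1 (by
              intro h3
              have h6 : g - b - a₀ ∈ K := h1.2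
              rw [← h3] at h6
              exact hbK h6)
            exact h2 (by abel)
        · intro x _ y _ hxy
          exact sub_left_injective hxy
      rw [card_sdiff_of_subset hA'X, hXc] at hPX
      omega
    intro a ha a' ha'
    have h1 := K.sub_mem (hAK a' ha') (hAK a ha)
    rwa [sub_sub_sub_cancel_right] at h1

/-- **TWO-ONE.** -/
theorem two_one {w : ℕ} (h4 : ∀ s : Q, #{x : Q | x + x = s} ≤ w) (hQ : 10000 * w ≤ Fintype.card Q)
    {A B : Finset Q} (hA : 99 * Fintype.card Q ≤ 200 * #A)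
    (hB : 99 * Fintype.card Q ≤ 200 * #B) :
    (∀ x : Q, ∃ a ∈ A, ∃ a' ∈ A, a ≠ a' ∧ ∃ b ∈ B, a + a' + b = x) ∨
      ∃ K : AddSubgroup Q, 2 * Nat.card K = Nat.card Q ∧ (∀ a ∈ A, ∀ a' ∈ A, a' - a ∈ K) ∧
        ∀ b ∈ B, ∀ b' ∈ B, b' - b ∈ K := by
  classical
  by_cases hall : ∀ x : Q, ∃ a ∈ A, ∃ a' ∈ A, a ≠ a' ∧ ∃ b ∈ B, a + a' + b = x
  · exact Or.inl hall
  push Not at hall
  obtain ⟨x, hx⟩ := hall
  have hBP : ∀ b ∈ B, x - b ∈ nonsum A := by
    intro b hb
    rw [nonsum, mem_filter]
    refine ⟨mem_univ _, fun a ha a' ha' hne h => hx a ha a' ha' hne b hb ?_⟩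
    rw [h]
    abel
  have hcard : #B ≤ #(nonsum A) :=
    card_le_card_of_injOn (fun b => x - b) (fun b hb => mem_coe.2 (hBP b (mem_coe.1 hb)))
      (fun _ _ _ _ h => sub_right_injective h)
  obtain ⟨K, hK, hAK, hPK⟩ := index_two h4 hQ hA (by omega)
  refine Or.inr ⟨K, hK, hAK, fun b hb b' hb' => ?_⟩
  have h1 := hPK _ (hBP b' hb') _ (hBP b hb)
  rwa [sub_sub_sub_cancel_left] at h1

end core

end Pool.Agent.Lib.MPa7239a.RG.TwoOne
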