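import Pool.Agent.Lib.MP_a7239a_co.RG.Defs

/-!
# BOHR: a threefold sumset contains a translate of a Bohr set (module BOHR, helper84)

Finite Fourier analysis on `G`: if `F₂`, `F₃` are dense in the subgroup `Γ`, then
`F₁ + F₂ + F₃` contains `g₀ + y` for all `y` at which the characters with large sum over `F₁` are
near to `1`.
-/

set_option autoImplicit false

open Finset

namespace Pool.Agent.Lib.MPa7239a.RG

open Pool.Agent.Lib.MPa7239a.GC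

namespace BohrM

variable {G : Type*} [AddCommGroup G] [Fintype G] [DecidableEq G] {n : ℕ} [NeZero n]

/-- the number of representations -/
def rep3 (F₁ F₂ F₃ : Finset G) (g : G) : ℕ :=
  #((F₁ ×ˢ F₂ ×ˢ F₃).filter (fun p => p.1 + p.2.1 + p.2.2 = g))

omit [Fintype G] [DecidableEq G] in
theorem char_add (ξ : G →+ ZMod n) (x y : G) : (ZMod.stdAddChar (ph ξ (x + y)) : ℂ) =
    ZMod.stdAddChar (ph ξ x) * ZMod.stdAddChar (ph ξ y) := by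
  rw [ph_add, AddChar.map_add_eq_mul]

/-- Fourier inversion -/
theorem inversion (hG : ∀ x : G, n • x = 0) (F₁ F₂ F₃ : Finset G) (g : G) :
    (Fintype.card (G →+ ZMod n) : ℂ) * rep3 F₁ F₂ F₃ g =
      ∑ ξ : G →+ ZMod n, cs F₁ ξ * cs F₂ ξ * cs F₃ ξ * ZMod.stdAddChar (ph ξ (-g)) := by
  have h1 : ∀ ξ : G →+ ZMod n,
      cs F₁ ξ * cs F₂ ξ * cs F₃ ξ * ZMod.stdAddChar (ph ξ (-g)) =
        ∑ p ∈ F₁ ×ˢ F₂ ×ˢ F₃, (ZMod.stdAddChar (ph ξ (p.1 + p.2.1 + p.2.2 + -g)) : ℂ) := by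
    intro ξ
    have hc : ∀ F : Finset G, cs F ξ = ∑ x ∈ F, (ZMod.stdAddChar (ph ξ x) : ℂ) :=
      fun F => rfl
    rw [hc, hc, hc, sum_product, sum_mul_sum, sum_mul, sum_mul]
    refine sum_congr rfl fun x _ => ?_
    rw [sum_product, sum_mul_sum, sum_mul]
    refine sum_congr rfl fun y _ => ?_
    rw [sum_mul]
    refine sum_congr rfl fun z _ => ?_
    rw [char_add, char_add, char_add]
  rw [sum_congr rfl fun ξ _ => h1 ξ, sum_comm]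
  have h2 : ∀ p ∈ F₁ ×ˢ F₂ ×ˢ F₃,
      ∑ ξ : G →+ ZMod n, (ZMod.stdAddChar (ph ξ (p.1 + p.2.1 + p.2.2 + -g)) : ℂ) =
        if p.1 + p.2.1 + p.2.2 = g then (Fintype.card (G →+ ZMod n) : ℂ) else 0 := by
    intro p _
    have h3 := orth hG (p.1 + p.2.1 + p.2.2 + -g)
    have h4 : (p.1 + p.2.1 + p.2.2 + -g = 0) ↔ (p.1 + p.2.1 + p.2.2 = g) := by
      rw [← sub_eq_add_neg, sub_eq_zero]
    rw [← if_congr h4 rfl rfl, ← h3]
  rw [sum_congr rfl h2, ← sum_filter, sum_const, nsmul_eq_mul, rep3]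
  ring

/-- Parseval -/
theorem parseval_cs (hG : ∀ x : G, n • x = 0) (F : Finset G) :
    ∑ ξ : G →+ ZMod n, ‖cs F ξ‖ ^ 2 = (Fintype.card (G →+ ZMod n) : ℝ) * #F := by
  have key : ∀ ξ : G →+ ZMod n, ((‖cs F ξ‖ ^ 2 : ℝ) : ℂ) =
      ∑ z ∈ F, ∑ w ∈ F, (ZMod.stdAddChar (ph ξ (z - w)) : ℂ) := by
    intro ξ
    rw [Complex.ofReal_pow, ← Complex.mul_conj', cs, map_sum, sum_mul_sum]
    refine sum_congr rfl fun z _ => sum_congr rfl fun w _ => ?_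
    rw [← AddChar.map_neg_eq_conj, sub_eq_add_neg, char_add, ph_neg]
  have h : ((∑ ξ : G →+ ZMod n, ‖cs F ξ‖ ^ 2 : ℝ) : ℂ) =
      (((Fintype.card (G →+ ZMod n) : ℝ) * #F : ℝ) : ℂ) := by
    rw [Complex.ofReal_sum, sum_congr rfl fun ξ _ => key ξ, sum_comm]
    push_cast
    have h4 : ∀ z ∈ F, ∑ ξ : G →+ ZMod n, ∑ w ∈ F, (ZMod.stdAddChar (ph ξ (z - w)) : ℂ) =
        (Fintype.card (G →+ ZMod n) : ℂ) := by
      intro z hz
      rw [sum_comm]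
      have h5 : ∀ w ∈ F, ∑ ξ : G →+ ZMod n, (ZMod.stdAddChar (ph ξ (z - w)) : ℂ) =
          if w = z then (Fintype.card (G →+ ZMod n) : ℂ) else 0 := by
        intro w _
        rw [orth hG]
        by_cases hw : w = z
        · rw [if_pos hw, if_pos (by rw [hw, sub_self])]
        · rw [if_neg hw, if_neg (fun h => hw (sub_eq_zero.mp h).symm)]
      rw [sum_congr rfl h5, sum_ite_eq' F z, if_pos hz]
    rw [sum_congr rfl h4, sum_const, nsmul_eq_mul, mul_comm]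
  exact_mod_cast h

theorem norm_char (a : ZMod n) : ‖(ZMod.stdAddChar a : ℂ)‖ = 1 := by
  simp

theorem norm_char_neg (a : ZMod n) :
    ‖(ZMod.stdAddChar (-a) : ℂ) - 1‖ = ‖(ZMod.stdAddChar a : ℂ) - 1‖ := by
  have h1 : (ZMod.stdAddChar (-a) : ℂ) - 1 =
      -(ZMod.stdAddChar (-a) * ((ZMod.stdAddChar a : ℂ) - 1)) := by
    rw [mul_sub, ← AddChar.map_add_eq_mul, neg_add_cancel, AddChar.map_zero_eq_one]
    ring
  rw [h1, norm_neg, norm_mul, norm_char, one_mul]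

theorem sum_norm_le (hG : ∀ x : G, n • x = 0) (F₂ F₃ : Finset G) :
    ∑ ξ : G →+ ZMod n, ‖cs F₂ ξ‖ * ‖cs F₃ ξ‖ ≤ (Fintype.card (G →+ ZMod n) : ℝ) * √((#F₂ : ℝ) * #F₃) := by
  have h1 := sum_mul_sq_le_sq_mul_sq univ (fun ξ : G →+ ZMod n => ‖cs F₂ ξ‖)
    (fun ξ => ‖cs F₃ ξ‖)
  rw [parseval_cs hG, parseval_cs hG] at h1
  have h2 : (Fintype.card (G →+ ZMod n) : ℝ) * √((#F₂ : ℝ) * #F₃) = √((Fintype.card (G →+ ZMod n) : ℝ) * #F₂ * ((Fintype.card (G →+ ZMod n) : ℝ) * #F₃)) := by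
    have h3 : (Fintype.card (G →+ ZMod n) : ℝ) * #F₂ * ((Fintype.card (G →+ ZMod n) : ℝ) * #F₃) =
      (Fintype.card (G →+ ZMod n) : ℝ) ^ 2 * ((#F₂ : ℝ) * #F₃) := by ring
    have h4 : (0 : ℝ) ≤ (Fintype.card (G →+ ZMod n) : ℝ) ^ 2 := by positivity
    have h5 : (0 : ℝ) ≤ (Fintype.card (G →+ ZMod n) : ℝ) := by positivity
    rw [h3, Real.sqrt_mul h4, Real.sqrt_sq h5]
  rw [h2]
  exact Real.le_sqrt_of_sq_le h1

end BohrM

open BohrM in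
theorem bohr_fill {G : Type*} [AddCommGroup G] [Fintype G] [DecidableEq G] {n g Λ : ℕ} [NeZero n]
    (hG : ∀ x : G, n • x = 0) {Γ : AddSubgroup G}
    (hΓ : Nat.card Γ = g) {F₁ F₂ F₃ : Finset G} (h₁ : ∀ x ∈ F₁, x ∈ Γ)
    (h₂ : ∀ x ∈ F₂, x ∈ Γ) (h₃ : ∀ x ∈ F₃, x ∈ Γ) (hne : F₁.Nonempty) (hΛ : 1 ≤ Λ)
    (hd₂ : g ≤ Λ * #F₂) (hd₃ : g ≤ Λ * #F₃) :
    ∃ g₀ : G, ∀ y : G,
      (∀ ξ : G →+ ZMod n, (#F₁ : ℝ) ≤ 4 * Λ * ‖cs F₁ ξ‖ →
        4 * Λ * ‖(ZMod.stdAddChar (ph ξ y) : ℂ) - 1‖ ≤ 1) →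
      ∃ f₁ ∈ F₁, ∃ f₂ ∈ F₂, ∃ f₃ ∈ F₃, f₁ + f₂ + f₃ = g₀ + y := by
  classical
  have hg : 1 ≤ g := by
    rw [← hΓ]
    exact Nat.card_pos
  set U : Finset G := univ.filter (fun x => x ∈ Γ) with hU
  have hUc : #U = g := by
    rw [hU, ← Fintype.card_subtype, ← Nat.card_eq_fintype_card, ← hΓ]
  have hUne : U.Nonempty := ⟨0, mem_filter.2 ⟨mem_univ _, Γ.zero_mem⟩⟩
  obtain ⟨g₀, -, hmax⟩ := exists_max_image U (rep3 F₁ F₂ F₃) hUne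
  have hsum : #F₁ * (#F₂ * #F₃) ≤ g * rep3 F₁ F₂ F₃ g₀ := by
    have hmap : ∀ p ∈ F₁ ×ˢ F₂ ×ˢ F₃, p.1 + p.2.1 + p.2.2 ∈ U := by
      intro p hp
      rw [mem_product, mem_product] at hp
      rw [hU, mem_filter]
      exact ⟨mem_univ _, Γ.add_mem (Γ.add_mem (h₁ _ hp.1) (h₂ _ hp.2.1)) (h₃ _ hp.2.2)⟩
    have h1 := card_eq_sum_card_fiberwise hmap
    rw [card_product, card_product] at h1
    rw [h1, ← hUc, ← smul_eq_mul]
    exact sum_le_card_nsmul _ _ _ hmax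
  refine ⟨g₀, fun y hy => ?_⟩
  by_contra hcon
  have hr0 : rep3 F₁ F₂ F₃ (g₀ + y) = 0 := by
    rw [rep3, card_eq_zero, filter_eq_empty_iff]
    rintro p hp hpe
    rw [mem_product, mem_product] at hp
    exact hcon ⟨_, hp.1, _, hp.2.1, _, hp.2.2, hpe⟩
  have hF₁ : (0 : ℝ) < #F₁ := by exact_mod_cast hne.card_pos
  have hΛ0 : (0 : ℝ) < Λ := by exact_mod_cast hΛ
  have hn0 : (0 : ℝ) < (Fintype.card (G →+ ZMod n) : ℝ) := by
    have : (0 : ℝ) < n := by exact_mod_cast NeZero.pos n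
    positivity
  -- the difference
  have hdiff : (Fintype.card (G →+ ZMod n) : ℝ) * rep3 F₁ F₂ F₃ g₀ ≤
      (#F₁ : ℝ) / (2 * Λ) * ((Fintype.card (G →+ ZMod n) : ℝ) * √((#F₂ : ℝ) * #F₃)) := by
    have e1 := inversion hG F₁ F₂ F₃ g₀
    have e2 := inversion hG F₁ F₂ F₃ (g₀ + y)
    rw [hr0] at e2
    have e3 : (Fintype.card (G →+ ZMod n) : ℂ) * rep3 F₁ F₂ F₃ g₀ = ∑ ξ : G →+ ZMod n,
        cs F₁ ξ * cs F₂ ξ * cs F₃ ξ * ZMod.stdAddChar (ph ξ (-g₀)) *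
          (1 - ZMod.stdAddChar (-ph ξ y)) := by
      have e4 : (Fintype.card (G →+ ZMod n) : ℂ) * rep3 F₁ F₂ F₃ g₀ = (Fintype.card (G →+ ZMod n) : ℂ) * rep3 F₁ F₂ F₃ g₀ -
          (Fintype.card (G →+ ZMod n) : ℂ) * ((0 : ℕ) : ℂ) := by simp
      rw [e4, e2, e1, ← sum_sub_distrib]
      refine sum_congr rfl fun ξ _ => ?_
      rw [neg_add, char_add, ← ph_neg]
      ring
    have e5 : ‖(Fintype.card (G →+ ZMod n) : ℂ) * rep3 F₁ F₂ F₃ g₀‖ = (Fintype.card (G →+ ZMod n) : ℝ) * rep3 F₁ F₂ F₃ g₀ := by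
      rw [norm_mul, Complex.norm_natCast, Complex.norm_natCast]
    rw [← e5, e3]
    refine (norm_sum_le _ _).trans ?_
    have e6 : ∀ ξ ∈ (univ : Finset (G →+ ZMod n)),
        ‖cs F₁ ξ * cs F₂ ξ * cs F₃ ξ * ZMod.stdAddChar (ph ξ (-g₀)) *
          (1 - ZMod.stdAddChar (-ph ξ y))‖ ≤ (#F₁ : ℝ) / (2 * Λ) * (‖cs F₂ ξ‖ * ‖cs F₃ ξ‖) := by
      intro ξ _
      rw [norm_mul, norm_mul, norm_mul, norm_mul, norm_char, mul_one, norm_sub_rev, norm_char_neg]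
      have e7 : ‖cs F₁ ξ‖ * ‖(ZMod.stdAddChar (ph ξ y) : ℂ) - 1‖ ≤ (#F₁ : ℝ) / (2 * Λ) := by
        rw [le_div_iff₀ (by positivity)]
        have hc0 := norm_nonneg (cs F₁ ξ)
        have hd0 := norm_nonneg ((ZMod.stdAddChar (ph ξ y) : ℂ) - 1)
        rcases le_or_gt (#F₁ : ℝ) (4 * Λ * ‖cs F₁ ξ‖) with h | h
        · have h5 := hy ξ h
          have h6 : ‖cs F₁ ξ‖ ≤ #F₁ := by
            rw [cs]
            refine (norm_sum_le _ _).trans ?_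
            simp
          nlinarith
        · have h5 : ‖(ZMod.stdAddChar (ph ξ y) : ℂ) - 1‖ ≤ 2 := by
            refine (norm_sub_le _ _).trans ?_
            rw [norm_char, norm_one]
            norm_num
          have h6 : ‖cs F₁ ξ‖ * ‖(ZMod.stdAddChar (ph ξ y) : ℂ) - 1‖ ≤ ‖cs F₁ ξ‖ * 2 :=
            mul_le_mul_of_nonneg_left h5 hc0
          nlinarith
      calc ‖cs F₁ ξ‖ * ‖cs F₂ ξ‖ * ‖cs F₃ ξ‖ * ‖(ZMod.stdAddChar (ph ξ y) : ℂ) - 1‖ =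
            (‖cs F₁ ξ‖ * ‖(ZMod.stdAddChar (ph ξ y) : ℂ) - 1‖) * (‖cs F₂ ξ‖ * ‖cs F₃ ξ‖) := by ring
        _ ≤ (#F₁ : ℝ) / (2 * Λ) * (‖cs F₂ ξ‖ * ‖cs F₃ ξ‖) :=
            mul_le_mul_of_nonneg_right e7 (by positivity)
    refine (sum_le_sum e6).trans ?_
    rw [← mul_sum]
    exact mul_le_mul_of_nonneg_left (sum_norm_le hG F₂ F₃) (by positivity)
  -- contradiction
  set s := √((#F₂ : ℝ) * #F₃) with hs
  have hF₂ : (0 : ℝ) < #F₂ := by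
    have : 0 < #F₂ := by
      rcases Nat.eq_zero_or_pos #F₂ with h | h
      · rw [h] at hd₂
        omega
      · exact h
    exact_mod_cast this
  have hF₃ : (0 : ℝ) < #F₃ := by
    have : 0 < #F₃ := by
      rcases Nat.eq_zero_or_pos #F₃ with h | h
      · rw [h] at hd₃
        omega
      · exact h
    exact_mod_cast this
  have hs0 : 0 < s := Real.sqrt_pos.2 (by positivity)
  have hss : s * s = (#F₂ : ℝ) * #F₃ := Real.mul_self_sqrt (by positivity)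
  have hgs : (g : ℝ) ≤ Λ * s := by
    have a1 : (g : ℝ) ≤ Λ * #F₂ := by exact_mod_cast hd₂
    have a2 : (g : ℝ) ≤ Λ * #F₃ := by exact_mod_cast hd₃
    have a3 : (g : ℝ) * g ≤ (Λ * s) * (Λ * s) := by
      calc (g : ℝ) * g ≤ (Λ * #F₂) * (Λ * #F₃) := mul_le_mul a1 a2 (by positivity) (by positivity)
        _ = (Λ * s) * (Λ * s) := by rw [show (Λ * s) * (Λ * s) = Λ * Λ * (s * s) by ring, hss]; ring
    exact (mul_self_le_mul_self_iff (by positivity) (by positivity)).2 a3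
  have hsum' : (#F₁ : ℝ) * (s * s) ≤ g * rep3 F₁ F₂ F₃ g₀ := by
    rw [hss]
    exact_mod_cast hsum
  have h5 : (rep3 F₁ F₂ F₃ g₀ : ℝ) ≤ (#F₁ : ℝ) / (2 * Λ) * s := by
    have h6 : (Fintype.card (G →+ ZMod n) : ℝ) * rep3 F₁ F₂ F₃ g₀ ≤ (Fintype.card (G →+ ZMod n) : ℝ) * ((#F₁ : ℝ) / (2 * Λ) * s) := by
      calc _ ≤ _ := hdiff
        _ = _ := by ring
    exact le_of_mul_le_mul_left h6 hn0
  have h7 : (#F₁ : ℝ) * (s * s) ≤ (Λ * s) * ((#F₁ : ℝ) / (2 * Λ) * s) :=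
    hsum'.trans (mul_le_mul hgs h5 (by positivity) (by positivity))
  have h8 : (Λ * s) * ((#F₁ : ℝ) / (2 * Λ) * s) = (#F₁ : ℝ) * (s * s) / 2 := by
    field_simp
  rw [h8] at h7
  have h9 : 0 < (#F₁ : ℝ) * (s * s) := by positivity
  linarith

end Pool.Agent.Lib.MPa7239a.RG
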