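import Pool.Agent.Lib.MP_a7239a_co.RK.ENDS

/-!
# The case `s = 1` for a general group (Theorem G, module ENDS, helper25)

`RK.end_S` with the hypothesis that the elements of `H` have sum zero in place of `Odd m`.
-/

set_option autoImplicit false

open Finset

namespace Pool.Agent.Lib.MPa7239a.RG

open Pool.Agent.Lib.MPa7239a.GC
open Pool.Agent.Lib.MPa7239a.RK

/-- the sum of the elements of `H` is zero -/
def SumZero {G : Type*} [AddCommGroup G] (H : AddSubgroup G) : Prop :=
  ∀ K : Finset G, (∀ x, x ∈ K ↔ x ∈ H) → ∑ x ∈ K, x = 0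

namespace ENDSM

variable {G : Type*} [AddCommGroup G]

/-- the elements of order at most two, with two different elements of order two -/
theorem sum_two [DecidableEq G] {t t' : G} (ht : t ≠ 0) (ht' : t' ≠ 0) (hne : t ≠ t')
    (h2 : t + t = 0) (h2' : t' + t' = 0) :
    ∀ (k : ℕ) (V : Finset G), #V = k → (∀ x ∈ V, x + x = 0) → (∀ x ∈ V, x + t ∈ V) →
      (∀ x ∈ V, x + t' ∈ V) → ∑ x ∈ V, x = 0 := by
  intro k
  induction k using Nat.strong_induction_on with
  | _ k ih =>
    intro V hVk hV hVt hVt'
    rcases V.eq_empty_or_nonempty with h | ⟨x, hx⟩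
    · rw [h, sum_empty]
    have htt : t + t' ≠ 0 := by
      intro h
      apply hne
      have h3 : t = - t' := eq_neg_of_add_eq_zero_left h
      have h4 : t' = - t' := eq_neg_of_add_eq_zero_left h2'
      rw [h3, ← h4]
    set W : Finset G := {x, x + t, x + t', x + (t + t')} with hW
    have hmem : ∀ y, y ∈ W ↔ y = x ∨ y = x + t ∨ y = x + t' ∨ y = x + (t + t') := by
      intro y
      rw [hW]
      simp
    have hWV : W ⊆ V := by
      intro y hy
      rcases (hmem y).1 hy with rfl | rfl | rfl | rfl
      · exact hx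
      · exact hVt x hx
      · exact hVt' x hx
      · rw [← add_assoc]
        exact hVt' _ (hVt x hx)
    have h11 : x ∉ ({x + t, x + t', x + (t + t')} : Finset G) := by
      simp [ht, ht', htt]
    have h12 : x + t ∉ ({x + t', x + (t + t')} : Finset G) := by
      simp [hne, ht']
    have h13 : x + t' ∉ ({x + (t + t')} : Finset G) := by
      simp [ht]
    have hWs : ∑ y ∈ W, y = 0 := by
      rw [hW, sum_insert h11, sum_insert h12, sum_insert h13, sum_singleton]
      have h3 := hV x hx
      have h4 : x + (x + t + (x + t' + (x + (t + t')))) =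
          (x + x) + (x + x) + ((t + t) + (t' + t')) := by abel
      rw [h4, h3, h2, h2']
      simp
    have hadd : ∀ y : G, y + t + t = y := fun y => by rw [add_assoc, h2, add_zero]
    have hadd' : ∀ y : G, y + t' + t' = y := fun y => by rw [add_assoc, h2', add_zero]
    have hWt : ∀ y ∈ W, y + t ∈ W := by
      intro y hy
      rw [hmem] at hy ⊢
      rcases hy with rfl | rfl | rfl | rfl
      · exact Or.inr (Or.inl rfl)
      · exact Or.inl (hadd _)
      · refine Or.inr (Or.inr (Or.inr ?_))
        abel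
      · refine Or.inr (Or.inr (Or.inl ?_))
        have h3 : x + (t + t') + t = x + t' + t + t := by abel
        rw [h3, hadd]
    have hWt' : ∀ y ∈ W, y + t' ∈ W := by
      intro y hy
      rw [hmem] at hy ⊢
      rcases hy with rfl | rfl | rfl | rfl
      · exact Or.inr (Or.inr (Or.inl rfl))
      · refine Or.inr (Or.inr (Or.inr ?_))
        abel
      · exact Or.inl (hadd' _)
      · refine Or.inr (Or.inl ?_)
        have h3 : x + (t + t') + t' = x + t + t' + t' := by abel
        rw [h3, hadd']
    have h5 := sum_sdiff (f := fun y : G => y) hWV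
    rw [← h5, hWs, add_zero]
    refine ih _ ?_ (V \ W) rfl ?_ ?_ ?_
    · rw [card_sdiff_of_subset hWV, hVk]
      have h6 : 0 < #W := card_pos.2 ⟨x, (hmem x).2 (Or.inl rfl)⟩
      have h7 := card_le_card hWV
      omega
    · intro y hy
      exact hV y (mem_sdiff.1 hy).1
    · intro y hy
      rw [mem_sdiff] at hy ⊢
      refine ⟨hVt y hy.1, fun h => hy.2 ?_⟩
      have := hWt _ h
      rwa [hadd] at this
    · intro y hy
      rw [mem_sdiff] at hy ⊢
      refine ⟨hVt' y hy.1, fun h => hy.2 ?_⟩
      have := hWt' _ h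
      rwa [hadd'] at this

/-- a subgroup which does not have exactly one element of order two has sum zero -/
theorem sumZero_of_ne [DecidableEq G] {H : AddSubgroup G} (V : Finset G)
    (hV : ∀ x, x ∈ V ↔ x ∈ H ∧ x + x = 0) (hc : #V ≠ 2) : SumZero H := by
  classical
  intro K hK
  have h1 : ∑ x ∈ K.filter (fun x => ¬ x + x = 0), x = 0 := by
    refine sum_involution (fun x _ => - x) ?_ ?_ ?_ ?_
    · intro x _
      exact add_neg_cancel x
    · intro x hx _ h
      rw [mem_filter] at hx
      apply hx.2
      nth_rewrite 2 [← h]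
      exact add_neg_cancel x
    · intro x hx
      rw [mem_filter, hK] at hx ⊢
      refine ⟨H.neg_mem hx.1, fun h => hx.2 ?_⟩
      have h2 : x + x = - (- x + - x) := by abel
      rw [h2, h, neg_zero]
    · intro x _
      exact neg_neg x
  have h2 : K.filter (fun x => x + x = 0) = V := by
    ext x
    rw [mem_filter, hK, hV]
  rw [← sum_filter_add_sum_filter_not K (fun x => x + x = 0), h1, add_zero, h2]
  by_cases h3 : ∃ t ∈ V, t ≠ 0
  · obtain ⟨t, ht, ht0⟩ := h3
    by_cases h4 : ∃ t' ∈ V, t' ≠ 0 ∧ t ≠ t'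
    · obtain ⟨t', ht', ht0', hne⟩ := h4
      have h5 := (hV t).1 ht
      have h6 := (hV t').1 ht'
      have key : ∀ s ∈ V, ∀ x ∈ V, x + s ∈ V := by
        intro s hs x hx
        rw [hV] at hs hx ⊢
        refine ⟨H.add_mem hx.1 hs.1, ?_⟩
        have h7 : x + s + (x + s) = (x + x) + (s + s) := by abel
        rw [h7, hx.2, hs.2, add_zero]
      exact sum_two ht0 ht0' hne h5.2 h6.2 _ V rfl (fun x hx => ((hV x).1 hx).2) (key t ht)
        (key t' ht')
    · exfalso
      push Not at h4
      apply hc
      have h5 : V = {0, t} := by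
        ext x
        rw [mem_insert, mem_singleton]
        constructor
        · intro hx
          rcases eq_or_ne x 0 with h | h
          · exact Or.inl h
          · exact Or.inr (h4 x hx h).symm
        · rintro (rfl | rfl)
          · exact (hV 0).2 ⟨H.zero_mem, add_zero 0⟩
          · exact ht
      rw [h5, card_pair ht0.symm]
  · push Not at h3
    exact sum_eq_zero h3

/-- the sum of a full row -/
theorem sum_full [Finite G] {H : AddSubgroup G} {e q₀ : G} {A : Finset G} {z : G → ℤ}
    (hlift : ∀ x ∈ A, x - q₀ - z x • e ∈ H) {i : ℤ}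
    (hfull : #(row A z i) = Nat.card H) (hH : SumZero H) :
    ∑ x ∈ row A z i, x = Nat.card H • (q₀ + i • e) := by
  classical
  have hfin : (H : Set G).Finite := Set.toFinite _
  set K : Finset G := hfin.toFinset with hK
  have hKc : #K = Nat.card H := by
    rw [hK, ← Set.ncard_eq_toFinset_card _ hfin]
    rfl
  have hinj : Set.InjOn (fun x => x - (q₀ + i • e)) (row A z i : Set G) :=
    fun x _ y _ hxy => sub_left_injective hxy
  have himg : (row A z i).image (fun x => x - (q₀ + i • e)) = K := by
    refine eq_of_subset_of_card_le ?_ ?_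
    · intro y hy
      obtain ⟨x, hx, rfl⟩ := mem_image.1 hy
      rw [mem_row] at hx
      have h1 := hlift x hx.1
      rw [hx.2] at h1
      rw [hK, Set.Finite.mem_toFinset, SetLike.mem_coe]
      have h2 : x - (q₀ + i • e) = x - q₀ - i • e := by abel
      rw [h2]
      exact h1
    · rw [card_image_of_injOn hinj, hfull, hKc]
  have h1 : ∑ x ∈ row A z i, (x - (q₀ + i • e)) = ∑ y ∈ K, y := by
    rw [← himg, sum_image hinj]
  have h3 : ∑ y ∈ K, y = 0 := by
    refine hH K fun x => ?_
    rw [hK, Set.Finite.mem_toFinset, SetLike.mem_coe]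
  rw [sum_sub_distrib, sum_const, h3, hfull] at h1
  exact sub_eq_zero.1 h1

variable {H : AddSubgroup G} {e q₀ : G} {A : Finset G} {z : G → ℤ} {m n c o b E θ : ℕ}

/-- all rows full, `b` odd -/
theorem full_case [Finite G] (h : StrP H e q₀ A z m n c 1 o b E) (hn0 : ∀ x : G, n • x = 0)
    (hc : c = m) (h1 : #(low A z 0) = 0) (h2 : #(high A z b) = 0)
    (h3 : ∀ i : ℕ, i ≤ b → #(row A z i) = m) (hbo : Odd b) (hH : SumZero H) : Hit A n 0 := by
  classical
  have hlow : low A z 0 = ∅ := card_eq_zero.1 h1
  have hhigh : high A z b = ∅ := card_eq_zero.1 h2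
  have hcard := RK.ENDS.cardH h
  have hn' := RK.ENDS.hn h
  have hsub : row A z b ⊆ A := filter_subset _ _
  refine ⟨A \ row A z b, sdiff_subset, ?_, ?_⟩
  · rw [card_sdiff_of_subset hsub, h.card, hc, h3 b le_rfl]
    omega
  · have h4 := sum_sdiff (f := fun x : G => x) hsub
    have h5 := RK.ENDS.sum_split A z (fun x : G => x) b
    rw [hlow, hhigh, sum_empty, zero_add, zero_add, sum_range_succ] at h5
    rw [h5] at h4
    have h6 := add_right_cancel h4
    rw [h6]
    have h7 : ∀ i ∈ range b, ∑ x ∈ row A z (i : ℤ), x = m • q₀ + (m * i) • e := by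
      intro i hi
      rw [mem_range] at hi
      rw [sum_full h.lift (by rw [h3 i hi.le, hcard]) hH, hcard, nsmul_add, mul_nsmul',
        natCast_zsmul]
    rw [sum_congr rfl h7, sum_add_distrib, sum_const, card_range, ← mul_nsmul', ← hn', h.nq,
      zero_add, ← sum_smul, ← mul_sum]
    obtain ⟨k, hk⟩ := hbo
    have h8 : ∑ i ∈ range b, i = b * k := by
      have h9 := sum_range_id_mul_two b
      have h10 : b - 1 = 2 * k := by omega
      rw [h10] at h9
      have h11 : (∑ i ∈ range b, i) * 2 = (b * k) * 2 := by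
        rw [h9]
        ring
      omega
    rw [h8]
    have h9 : m * (b * k) = k * n := by
      rw [hn']
      ring
    rw [h9, mul_nsmul, hn0]

end ENDSM

/-- a subgroup of order `m` with cyclic quotient of order `n`, a multiple of `m`: if the number of
solutions of `2 x = 0` in `G` is not four, the elements of the subgroup have sum zero -/
theorem sumZero_of_card_ne_four {G : Type*} [AddCommGroup G] [Fintype G] [DecidableEq G]
    {m n : ℕ} (hn : 0 < n) (hexp : ∀ x : G, n • x = 0) (hG : Nat.card G = m * n) (hmn : m ∣ n)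
    {H : AddSubgroup G} {e : G} (hH : Nat.card H = m) (he : addOrderOf (e : G ⧸ H) = n)
    (hw : #{x : G | x + x = 0} ≠ 4) : SumZero H := by
  classical
  set V : Finset G := {x : G | x ∈ H ∧ x + x = 0} with hV
  refine ENDSM.sumZero_of_ne V (fun x => by rw [hV, mem_filter]; simp) fun hc => ?_
  -- one element of order two
  have hm0 : 0 < m := by
    rw [← hH]
    exact Nat.card_pos
  obtain ⟨a, ha, b, hb, hab⟩ := one_lt_card.1 (show 1 < #V by omega)
  obtain ⟨v, hv, hv0⟩ : ∃ v ∈ V, v ≠ 0 := by
    rcases eq_or_ne a 0 with h | h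
    · exact ⟨b, hb, fun h' => hab (h.trans h'.symm)⟩
    · exact ⟨a, ha, h⟩
  rw [hV, mem_filter] at hv
  obtain ⟨-, hvH, hv2⟩ := hv
  have h2m : 2 ∣ m := by
    rw [← hH]
    have h1 : addOrderOf (⟨v, hvH⟩ : H) = 2 := by
      refine addOrderOf_eq_prime ?_ ?_
      · apply Subtype.ext
        rw [two_nsmul]
        exact hv2
      · intro h
        exact hv0 (congrArg Subtype.val h)
    rw [← h1]
    exact addOrderOf_dvd_natCard _
  obtain ⟨k, hk⟩ := h2m.trans hmn
  have hk0 : 0 < k := by omega
  -- every element is in the rows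
  have hgen : ∀ x : G, ∃ i : ℕ, i < n ∧ x - i • e ∈ H := by
    have hq : Nat.card (G ⧸ H) = n := by
      have h1 := AddSubgroup.card_eq_card_quotient_mul_card_addSubgroup H
      rw [hG, hH, mul_comm m n] at h1
      exact (Nat.eq_of_mul_eq_mul_right hm0 h1).symm
    have htop : AddSubgroup.zmultiples (e : G ⧸ H) = ⊤ := by
      apply AddSubgroup.eq_top_of_card_eq
      rw [Nat.card_zmultiples, he, hq]
    intro x
    have h1 : (x : G ⧸ H) ∈ AddSubgroup.zmultiples (e : G ⧸ H) := by
      rw [htop]
      exact AddSubgroup.mem_top _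
    rw [← mem_multiples_iff_mem_zmultiples] at h1
    obtain ⟨j, hj⟩ := (AddSubmonoid.mem_multiples_iff _ _).1 h1
    refine ⟨j % n, Nat.mod_lt _ hn, ?_⟩
    rw [← QuotientAddGroup.eq_zero_iff, QuotientAddGroup.mk_sub, QuotientAddGroup.mk_nsmul, ← hj,
      sub_eq_zero, ← he, mod_addOrderOf_nsmul]
  -- the map
  have hke : k • e + k • e = 0 := by
    rw [← two_nsmul, ← mul_nsmul', ← hk, hexp]
  have hkH : k • e ∉ H := by
    intro h
    rw [← QuotientAddGroup.eq_zero_iff, QuotientAddGroup.mk_nsmul,
      ← addOrderOf_dvd_iff_nsmul_eq_zero, he] at h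
    have := Nat.le_of_dvd hk0 h
    omega
  have hset : ({x : G | x + x = 0} : Finset G) = V ∪ V.image (fun x => x + k • e) := by
    ext x
    rw [mem_union, mem_image, mem_filter]
    constructor
    · rintro ⟨-, hx⟩
      obtain ⟨i, hi, hxi⟩ := hgen x
      have h1 : (2 * i) • e ∈ H := by
        have h2 : (2 * i) • e = - ((x - i • e) + (x - i • e)) := by
          have h3 : (2 * i) • e = i • e + i • e := by rw [two_mul, add_smul]
          rw [h3]
          have h4 : - ((x - i • e) + (x - i • e)) = i • e + i • e - (x + x) := by abel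
          rw [h4, hx, sub_zero]
        rw [h2]
        exact H.neg_mem (H.add_mem hxi hxi)
      rw [← QuotientAddGroup.eq_zero_iff, QuotientAddGroup.mk_nsmul,
        ← addOrderOf_dvd_iff_nsmul_eq_zero, he] at h1
      obtain ⟨c, hc'⟩ := h1
      have hc2 : c < 2 := by
        by_contra hlt
        push Not at hlt
        have := Nat.mul_le_mul_left n hlt
        omega
      rcases Nat.lt_or_ge c 1 with h3 | h3
      · left
        have hi0 : i = 0 := by
          have : c = 0 := by omega
          rw [this, mul_zero] at hc'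
          omega
        rw [hi0, zero_smul, sub_zero] at hxi
        rw [hV, mem_filter]
        exact ⟨mem_univ _, hxi, hx⟩
      · right
        have hik : i = k := by
          have : c = 1 := by omega
          rw [this, mul_one] at hc'
          omega
        refine ⟨x - k • e, ?_, sub_add_cancel _ _⟩
        rw [hV, mem_filter]
        refine ⟨mem_univ _, by rw [← hik]; exact hxi, ?_⟩
        have h4 : x - k • e + (x - k • e) = (x + x) - (k • e + k • e) := by abel
        rw [h4, hx, hke, sub_zero]
    · rintro (hx | ⟨y, hy, rfl⟩)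
      · rw [hV, mem_filter] at hx
        exact ⟨mem_univ _, hx.2.2⟩
      · rw [hV, mem_filter] at hy
        refine ⟨mem_univ _, ?_⟩
        have h4 : y + k • e + (y + k • e) = (y + y) + (k • e + k • e) := by abel
        rw [h4, hy.2.2, hke, add_zero]
  have hdis : Disjoint V (V.image (fun x => x + k • e)) := by
    rw [Finset.disjoint_left]
    intro x hx hx'
    obtain ⟨y, hy, hyx⟩ := mem_image.1 hx'
    rw [hV, mem_filter] at hx hy
    apply hkH
    have h4 : k • e = x - y := by rw [← hyx]; abel
    rw [h4]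
    exact H.sub_mem hx.2.1 hy.2.1
  apply hw
  rw [hset, card_union_of_disjoint hdis, card_image_of_injective _ (add_left_injective _), hc]

/-- the case `s = 1` -/
theorem end_S {G : Type*} [AddCommGroup G] [Finite G] [DecidableEq G] {H : AddSubgroup G}
    {e q₀ : G} {A : Finset G} {z : G → ℤ} {m n c o b E θ : ℕ}
    (h : StrP H e q₀ A z m n c 1 o b E) (hb : 2 ≤ b) (hn0 : ∀ x : G, n • x = 0)
    (hFF : FatFull H θ) (hm : 100 * (b + 1) * (E + θ + 10) ≤ m)
    (hcase : m + 1 ≤ c ∨ Even b ∨ SumZero H) : Hit A n 0 := by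
  have hm' : 300 * (E + θ + 10) ≤ m :=
    (Nat.mul_le_mul_right _ (show 300 ≤ 100 * (b + 1) by omega)).trans hm
  have hoe : o • e ∈ H := by
    have h1 := addOrderOf_nsmul_eq_zero ((e : G) : G ⧸ H)
    rw [h.order, ← QuotientAddGroup.mk_nsmul, QuotientAddGroup.eq_zero_iff] at h1
    exact h1
  have ho : 0 < o := by
    rw [h.ho]
    exact Nat.mul_pos (by omega) (by omega)
  obtain ⟨a₁, ha₁⟩ : ∃ a₁ : ℤ, a₁ = max (∑ x ∈ low A z 0, z x)
    (∑ x ∈ low A z 0, z x + ((c : ℤ) - #(low A z 0) - #(row A z 0))) := ⟨_, rfl⟩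
  obtain ⟨a₂, ha₂⟩ : ∃ a₂ : ℤ, a₂ = min (∑ x ∈ high A z b, z x + ((c : ℤ) - #(high A z b)) * b)
      (∑ x ∈ high A z b, z x + ((c : ℤ) - #(high A z b)) * b -
        ((c : ℤ) - #(high A z b) - #(row A z b))) := ⟨_, rfl⟩
  have key : ∀ Y : ℤ, ∑ x ∈ A, z x - a₂ < Y → Y < ∑ x ∈ A, z x - a₁ → Flex H e A n Y := by
    intro Y h1 h2
    have h3 := ENDS.flex_mid h hb hFF hm' (y := ∑ x ∈ A, z x - Y) (by omega) (by omega) (by omega)
      (by omega)
    rwa [sub_sub_cancel] at h3
  rcases le_or_gt (a₁ + o + 1) a₂ with h1 | h1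
  · exact hit_of_flex ho hoe (Y₁ := ∑ x ∈ A, z x - a₂ + 1) (Y₂ := ∑ x ∈ A, z x - a₁ - 1) (by omega)
      fun Y h2 h3 => key Y (by omega) (by omega)
  · obtain ⟨h2, h3, κ, hκ₁, hκ₂, h4, h5⟩ := ENDS.tight h hb ha₁ ha₂ (by omega)
    have ho' : (0 : ℤ) < o := by exact_mod_cast ho
    have h6 := Int.emod_add_mul_ediv (∑ x ∈ A, z x - a₁) o
    have h7 := Int.emod_nonneg (∑ x ∈ A, z x - a₁) ho'.ne'
    have h8 := Int.emod_lt_of_pos (∑ x ∈ A, z x - a₁) ho'
    rcases h7.eq_or_lt with h9 | h9
    · -- the sum is a multiple of `o`: the rows are full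
      rw [← h9, zero_add] at h6
      set a := (∑ x ∈ A, z x - a₁) / o with ha
      have h10 : (o : ℤ) = b * m := by exact_mod_cast h.ho
      have h11 : (b : ℤ) * (2 * (m * a)) = b * (m * (b + 1) + 2 * κ) := by
        rw [← h4, ← h6, h10]
        ring
      have hb0 : (b : ℤ) ≠ 0 := by
        have : 0 < b := by omega
        exact_mod_cast this.ne'
      have h12 := mul_left_cancel₀ hb0 h11
      have h13 : (m : ℤ) * (2 * a - (b + 1)) = 2 * κ := by linear_combination h12
      have hm0 : (0 : ℤ) < m := by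
        have : 0 < m := by omega
        exact_mod_cast this
      have h14 : 2 * a - ((b : ℤ) + 1) = 0 := by
        rcases lt_trichotomy (2 * a - ((b : ℤ) + 1)) 0 with h15 | h15 | h15
        · exfalso
          have h16 : (m : ℤ) * (2 * a - (b + 1)) ≤ m * (-1) :=
            mul_le_mul_of_nonneg_left (by omega) hm0.le
          omega
        · exact h15
        · exfalso
          have h16 : (m : ℤ) * 1 ≤ m * (2 * a - (b + 1)) :=
            mul_le_mul_of_nonneg_left (by omega) hm0.le
          omega
      rw [h14, mul_zero] at h13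
      obtain ⟨h15, h16, h17⟩ := h5 (by omega)
      have hbo : Odd b := by
        rcases Nat.even_or_odd b with h18 | h18
        · exfalso
          obtain ⟨k, hk⟩ := h18
          omega
        · exact h18
      have hmo : SumZero H := by
        rcases hcase with h18 | h18 | h18
        · omega
        · exact absurd hbo (Nat.not_odd_iff_even.2 h18)
        · exact h18
      exact ENDSM.full_case h hn0 h3 h15 h16 h17 hbo hmo
    · refine hit_of_flex_mul hoe (a := (∑ x ∈ A, z x - a₁) / o) (key _ ?_ ?_)
      · rw [mul_comm]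
        omega
      · rw [mul_comm]
        omega

end Pool.Agent.Lib.MPa7239a.RG
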