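import Pool.Agent.Lib.MP_a7239a_co.RK.FULL

/-!
# FULL for a general group (Theorem G, module FULL, helper28)

As `GC/DL` and `RK/FULL`, with a bound `w` for the number of solutions of `2 x = s` in place of `4`.
-/

set_option autoImplicit false

open Finset

namespace Pool.Agent.Lib.MPa7239a.RG

open Pool.Agent.Lib.MPa7239a.GC
open Pool.Agent.Lib.MPa7239a.RK

/-- the solutions of `2 x = s` are at most as many as the elements of order at most two -/
theorem card_double_le {G : Type*} [AddCommGroup G] [Fintype G] [DecidableEq G] (s : G) :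
    #{x : G | x + x = s} ≤ #{x : G | x + x = 0} := by
  by_cases h : ∃ x₁ : G, x₁ + x₁ = s
  · obtain ⟨x₁, hx₁⟩ := h
    refine card_le_card_of_injOn (fun x => x - x₁) ?_ (fun a _ b _ hab => sub_left_injective hab)
    intro x hx
    rw [mem_coe, mem_filter] at hx ⊢
    refine ⟨mem_univ _, ?_⟩
    have : x - x₁ + (x - x₁) = (x + x) - (x₁ + x₁) := by abel
    rw [this, hx.2, hx₁, sub_self]
  · rw [filter_false_of_mem (fun x _ hx => h ⟨x, hx⟩)]
    simp

theorem dense_coset_w {G : Type*} [AddCommGroup G] [Fintype G] [DecidableEq G] {w : ℕ}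
    (hw : ∀ s : G, #{x : G | x + x = s} ≤ w) (K : AddSubgroup G) (B : Finset G) (x₀ : G)
    (hB : ∀ x ∈ B, x - x₀ ∈ K) {k : ℕ} (hk : k + 2 ≤ #B) (hK : Nat.card K + (w + 1) ≤ 2 * (k + 2))
    {y : G} (hy : y - k • x₀ ∈ K) : Hit B k y := by
  classical
  obtain ⟨B', hB', hc⟩ := exists_subset_card_eq hk
  set s : G := ∑ a ∈ B', a - y with hs
  have hsum : ∑ a ∈ B', a - (k + 2) • x₀ ∈ K := by
    have h1 : ∑ a ∈ B', (a - x₀) ∈ K := K.sum_mem fun a ha => hB a (hB' ha)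
    rw [sum_sub_distrib, sum_const, hc] at h1
    exact h1
  have hs2 : s - 2 • x₀ ∈ K := by
    have h2 : s - 2 • x₀ = (∑ a ∈ B', a - (k + 2) • x₀) - (y - k • x₀) := by
      rw [hs, add_smul]
      abel
    rw [h2]
    exact K.sub_mem hsum hy
  set I : Finset G := B'.image (fun a => s - a) with hI
  have hIc : #I = k + 2 := by
    rw [hI, card_image_of_injective _ (sub_right_injective), hc]
  have hsub : B' ∪ I ⊆ (univ : Finset K).image (fun h : K => (h : G) + x₀) := by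
    intro a ha
    rw [mem_union] at ha
    rw [mem_image]
    rcases ha with ha | ha
    · exact ⟨⟨a - x₀, hB a (hB' ha)⟩, mem_univ _, by simp⟩
    · rw [hI, mem_image] at ha
      obtain ⟨b, hb, rfl⟩ := ha
      refine ⟨⟨s - b - x₀, ?_⟩, mem_univ _, by simp⟩
      have h3 : s - b - x₀ = (s - 2 • x₀) - (b - x₀) := by
        rw [two_nsmul]
        abel
      rw [h3]
      exact K.sub_mem hs2 (hB b (hB' hb))
  have hle : #(B' ∪ I) ≤ Nat.card K := by
    refine (card_le_card hsub).trans (card_image_le.trans ?_)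
    rw [card_univ, Nat.card_eq_fintype_card]
  have hcap : w + 1 ≤ #(B' ∩ I) := by
    have h4 := card_union_add_card_inter B' I
    omega
  obtain ⟨a, ha, ha2⟩ : ∃ a ∈ B' ∩ I, a ∉ ({x : G | x + x = s} : Finset G) := by
    apply exists_mem_notMem_of_card_lt_card
    have := hw s
    omega
  rw [mem_inter] at ha
  obtain ⟨ha1, haI⟩ := ha
  rw [hI, mem_image] at haI
  obtain ⟨b, hb, hab⟩ := haI
  have hne : a ≠ b := by
    rintro rfl
    apply ha2
    rw [mem_filter]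
    refine ⟨mem_univ _, ?_⟩
    have h8 : s - a = a := hab
    exact (sub_eq_iff_eq_add.1 h8).symm
  have hab' : a + b = s := by rw [← hab]; abel
  refine ⟨(B'.erase a).erase b, (erase_subset _ _).trans ((erase_subset _ _).trans hB'), ?_, ?_⟩
  · rw [card_erase_of_mem (mem_erase.2 ⟨hne.symm, hb⟩), card_erase_of_mem ha1, hc]
    omega
  · have h5 := add_sum_erase (B'.erase a) (fun x : G => x) (mem_erase.2 ⟨hne.symm, hb⟩)
    have h6 := add_sum_erase B' (fun x : G => x) ha1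
    have h7 : ∑ x ∈ (B'.erase a).erase b, x = ∑ x ∈ B', x - (a + b) := by
      rw [← h6, ← h5]
      abel
    rw [h7, hab', hs]
    abel

open Classical in
/-- three adjacent rows, the middle one nearly full -/
theorem three_rows_w {G : Type*} [AddCommGroup G] [Fintype G] {n w : ℕ}
    (hw : ∀ s : G, #{x : G | x + x = s} ≤ w)
    (hG : ∀ x : G, n • x = 0) (H : AddSubgroup G) (e : G) (hH : Nat.card H = n)
    {A : Finset G} (x₀ : G) {E L : ℕ}
    (h₀ : n ≤ #(A.filter (fun x => x - x₀ ∈ H)) + E)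
    (h₁ : L ≤ #(A.filter (fun x => x - x₀ - e ∈ H)))
    (h₂ : L ≤ #(A.filter (fun x => x - x₀ + e ∈ H)))
    (he : e ∉ H) (h2e : e + e ∉ H)
    (hLE : E + 2 ≤ 2 * L) (hLn : 4 * L + (w + 1) ≤ n) : Hit A n 0 := by
  obtain ⟨T₁, hT₁, hc₁⟩ := exists_subset_card_eq h₁
  obtain ⟨T₂, hT₂, hc₂⟩ := exists_subset_card_eq h₂
  have m₁ : ∀ x ∈ T₁, x ∈ A ∧ x - x₀ - e ∈ H := fun x hx => mem_filter.1 (hT₁ hx)
  have m₂ : ∀ x ∈ T₂, x ∈ A ∧ x - x₀ + e ∈ H := fun x hx => mem_filter.1 (hT₂ hx)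
  have s₁ : ∑ x ∈ T₁, x - L • x₀ - L • e ∈ H := by
    have h : ∑ x ∈ T₁, (x - x₀ - e) ∈ H := H.sum_mem fun x hx => (m₁ x hx).2
    rw [sum_sub_distrib, sum_sub_distrib, sum_const, sum_const, hc₁] at h
    exact h
  have s₂ : ∑ x ∈ T₂, x - L • x₀ + L • e ∈ H := by
    have h : ∑ x ∈ T₂, (x - x₀ + e) ∈ H := H.sum_mem fun x hx => (m₂ x hx).2
    rw [sum_add_distrib, sum_sub_distrib, sum_const, sum_const, hc₂] at h
    exact h
  set B : Finset G := A.filter (fun x => x - x₀ ∈ H) with hB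
  obtain ⟨k, hk⟩ : ∃ k, n = k + 2 * L := ⟨n - 2 * L, by omega⟩
  have hy : -(∑ x ∈ T₁, x + ∑ x ∈ T₂, x) - k • x₀ ∈ H := by
    have h : -(∑ x ∈ T₁, x + ∑ x ∈ T₂, x) - k • x₀ =
        -((∑ x ∈ T₁, x - L • x₀ - L • e) + (∑ x ∈ T₂, x - L • x₀ + L • e)) - n • x₀ := by
      rw [hk, add_smul, two_mul, add_smul]
      abel
    rw [h, hG x₀, sub_zero]
    exact H.neg_mem (H.add_mem s₁ s₂)
  obtain ⟨T₀, hT₀, hc₀, hs₀⟩ := dense_coset_w hw H B x₀ (fun x hx => (mem_filter.1 hx).2)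
    (k := k) (by omega) (by rw [hH]; omega) hy
  have m₀ : ∀ x ∈ T₀, x ∈ A ∧ x - x₀ ∈ H := fun x hx => mem_filter.1 (hT₀ hx)
  have d₀₁ : Disjoint T₀ T₁ := by
    rw [disjoint_left]
    intro x h0 h1
    apply he
    have : e = (x - x₀) - (x - x₀ - e) := by abel
    rw [this]
    exact H.sub_mem (m₀ x h0).2 (m₁ x h1).2
  have d₀₂ : Disjoint T₀ T₂ := by
    rw [disjoint_left]
    intro x h0 h1
    apply he
    have : e = (x - x₀ + e) - (x - x₀) := by abel
    rw [this]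
    exact H.sub_mem (m₂ x h1).2 (m₀ x h0).2
  have d₁₂ : Disjoint T₁ T₂ := by
    rw [disjoint_left]
    intro x h0 h1
    apply h2e
    have : e + e = (x - x₀ + e) - (x - x₀ - e) := by abel
    rw [this]
    exact H.sub_mem (m₂ x h1).2 (m₁ x h0).2
  have d : Disjoint T₀ (T₁ ∪ T₂) := disjoint_union_right.2 ⟨d₀₁, d₀₂⟩
  refine ⟨T₀ ∪ (T₁ ∪ T₂), ?_, ?_, ?_⟩
  · intro x hx
    rw [mem_union, mem_union] at hx
    rcases hx with hx | hx | hx
    · exact (m₀ x hx).1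
    · exact (m₁ x hx).1
    · exact (m₂ x hx).1
  · rw [card_union_of_disjoint d, card_union_of_disjoint d₁₂, hc₀, hc₁, hc₂]
    omega
  · rw [sum_union d, sum_union d₁₂, hs₀]
    abel

/-- **FULL**, general form. -/
theorem fat_full_w {G : Type*} [AddCommGroup G] [Fintype G] [DecidableEq G] {w : ℕ}
    (hw : ∀ s : G, #{x : G | x + x = s} ≤ w) {ℓ b : ℕ} (hcard : Nat.card G ≤ 4 ^ ℓ)
    (hb : (b + 1) * Fintype.card G < 2 ^ b) (K : AddSubgroup G) {B : Finset G} {x₀ : G}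
    (hB : ∀ x ∈ B, x - x₀ ∈ K) (hK : Nat.card K + (56 * (ℓ * b) + w) ≤ 2 * #B) {d : ℕ}
    (hd : 2 ≤ d) (hd2 : d + 2 ≤ #B) {y : G} (hy : y - d • x₀ ∈ K) : Hit B d y := by
  classical
  have hw0 : 1 ≤ w := by
    refine le_trans ?_ (hw 0)
    rw [Nat.one_le_iff_ne_zero]
    exact card_ne_zero_of_mem (mem_filter.2 ⟨mem_univ (0 : G), add_zero 0⟩)
  by_cases h1 : Nat.card K + (w + 1) ≤ 2 * (d + 2)
  · exact dense_coset_w hw K B x₀ hB hd2 h1 hy
  by_cases h2 : Nat.card K + (w + 1) ≤ 2 * (#B - d + 2)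
  · refine Hit.compl (by omega) (dense_coset_w hw K B x₀ hB (by omega) h2 ?_)
    have h3 := sum_mem_coset hB
    have h5 : ∑ a ∈ B, a - y - (#B - d) • x₀ = (∑ a ∈ B, a - #B • x₀) - (y - d • x₀) := by
      have h6 : #B • x₀ = (#B - d) • x₀ + d • x₀ := by
        rw [← add_smul]
        congr 1
        omega
      rw [h6]
      abel
    rw [h5]
    exact K.sub_mem h3 hy
  obtain ⟨V, S, hbox⟩ := exists_boxes (⊥ : AddSubgroup G) B (14 * ℓ) b hb
  have hwb : 14 * ℓ * (2 * b) = 28 * (ℓ * b) := by ring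
  have hloss := hbox.loss
  rw [hwb] at hloss
  have hVB : (range (14 * ℓ)).biUnion V ⊆ B := by
    intro x hx
    obtain ⟨i, hi, hxi⟩ := mem_biUnion.1 hx
    exact hbox.sub i (mem_range.1 hi) hxi
  have hVc : #((range (14 * ℓ)).biUnion V) ≤ 28 * (ℓ * b) := by
    rw [← hwb]
    refine (card_biUnion_le_card_mul _ _ _ fun i hi => hbox.card i (mem_range.1 hi)).trans ?_
    rw [card_range]
  have hbot : Fills (⊥ : AddSubgroup G) (∅ : Finset G) := by
    refine ⟨0, 0, fun h hh => ?_⟩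
    rw [AddSubgroup.mem_bot.1 hh]
    exact ⟨∅, Subset.rfl, by simp, by simp⟩
  have hF : Fills K (∅ ∪ (range (14 * ℓ)).biUnion V) := by
    refine fill_of_ball hbot (disjoint_empty_left B) hbox hcard (k := 1) (by omega) ?_
    intro x hx
    rw [mem_ball_one, mem_Dif]
    obtain ⟨a, ha, c, hc, hac⟩ := exists_sub (K := K) (S := S) (x₀ := x₀)
      (fun x hx => hB x (hbox.ssub hx)) (by omega) hx
    exact ⟨a, ha, c, hc, by rw [hac]⟩
  rw [empty_union] at hF
  exact hit_of_fills hVB hB hF (by omega) (by omega) hy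

/-- **FULL** for a group of order at most `n ^ 2`, in the form of the Spec. -/
theorem fatFull {G : Type*} [AddCommGroup G] [Fintype G] [DecidableEq G] {n ℓ w : ℕ}
    (hcard : Nat.card G ≤ n ^ 2) (hw : ∀ s : G, #{x : G | x + x = s} ≤ w) (hℓ : n < 2 ^ ℓ)
    (hb : (3 * ℓ + 1) * n ^ 2 < 2 ^ (3 * ℓ)) (H : AddSubgroup G) :
    FatFull H (600 * ℓ ^ 3 + w) := by
  intro B x₀ hB hK d hd hd2 y hy
  have hn : 1 ≤ n := by
    rcases Nat.eq_zero_or_pos n with h | h
    · rw [h] at hcard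
      have : 0 < Nat.card G := Nat.card_pos
      simp at hcard
    · exact h
  refine fat_full_w hw (ℓ := ℓ) (b := 3 * ℓ) ?_ ?_ H hB ?_ hd hd2 hy
  · calc Nat.card G ≤ n ^ 2 := hcard
      _ ≤ (2 ^ ℓ) ^ 2 := Nat.pow_le_pow_left hℓ.le 2
      _ = 4 ^ ℓ := by rw [← pow_mul, mul_comm, pow_mul]; norm_num
  · rw [← Nat.card_eq_fintype_card]
    exact lt_of_le_of_lt (Nat.mul_le_mul_left _ hcard) hb
  · have h2 : 56 * (ℓ * (3 * ℓ)) = 168 * ℓ ^ 2 := by ring
    have h3 : 168 * ℓ ^ 2 ≤ 600 * ℓ ^ 3 := by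
      rcases Nat.eq_zero_or_pos ℓ with h | h
      · rw [h]
        norm_num
      · calc 168 * ℓ ^ 2 ≤ 600 * ℓ ^ 2 := Nat.mul_le_mul_right _ (by norm_num)
          _ ≤ 600 * ℓ ^ 3 := Nat.mul_le_mul_left _ (Nat.pow_le_pow_right h (by norm_num))
    omega

end Pool.Agent.Lib.MPa7239a.RG
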