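import Pool.Agent.Lib.MP_a7239a_co.RG.AMB
import Pool.Agent.Lib.MP_a7239a_co.RG.ENDS
import Pool.Agent.Lib.MP_a7239a_co.RG.FULL
import Pool.Agent.Lib.MP_a7239a_co.RK.STR0
import Pool.Agent.Lib.MP_a7239a_co.RK.STRR
import Pool.Agent.Lib.MP_a7239a_co.RK.ENDP
import Pool.Agent.Lib.MP_a7239a_co.RK.ENDQ
import Pool.Agent.Lib.MP_a7239a_co.RK.FORM
import Pool.Agent.Lib.MP_a7239a_co.RK.TRANS

/-!
# Theorem G: the upper bounds for a group of exponent `n = t * m` and order `m * n`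
-/

open Finset

namespace Pool.Agent.Lib.MPa7239a.RG

open Pool.Agent.Lib.MPa7239a.GC hiding cs
open Pool.Agent.Lib.MPa7239a.RK

section

variable {G : Type*} [AddCommGroup G] [Fintype G] [DecidableEq G] {n m t c ℓ w loss E L : ℕ}

/-- the case `s ∣ t` -/
theorem core_div (N : Nums n m t ℓ w loss E L) (hexp : ∀ x : G, n • x = 0)
    (hG : Nat.card G = m * n) (hFF : ∀ H : AddSubgroup G, FatFull H (600 * ℓ ^ 3 + w))
    {s o k t' : ℕ} {A S : Finset G} {H : AddSubgroup G} {e q₀ : G} {z : G → ℤ} {u v : ℤ}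
    (h : Amb H e q₀ A S z m t n c s o loss k t' u v)
    (hmc : m ≤ c) (hst : s ∣ t)
    (hcase : m + 1 ≤ c ∨ Even t ∨ #{x : G | x + x = 0} ≠ 4) : Hit A n 0 := by
  have ht := N.ht
  obtain ⟨b, hbs⟩ := hst
  have hs1 := h.s1
  have hb1 : 1 ≤ b := by
    rcases Nat.eq_zero_or_pos b with h1 | h1
    · rw [h1, mul_zero] at hbs
      omega
    · exact h1
  have hbt : b ≤ t := by
    rw [hbs]
    exact Nat.le_mul_of_pos_left b hs1
  have h2 : 100 * (b + 1) ≤ 100 * (t + 1) * (t + 1) := by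
    calc 100 * (b + 1) = 100 * (b + 1) * 1 := (mul_one _).symm
      _ ≤ 100 * (t + 1) * (t + 1) := Nat.mul_le_mul (Nat.mul_le_mul_left _ (by omega)) (by omega)
  have hE' : (b + 3) * (loss + 1) ≤ E := by
    rw [N.hE]
    exact Nat.mul_le_mul_right _ (by omega)
  have hL' : (b + 2) * (E + 10) ≤ L := by
    rw [N.hL]
    exact Nat.mul_le_mul_right _ (by omega)
  have hm1 : 100 * (b + 1) * (L + 10) ≤ m := (Nat.mul_le_mul h2 (by omega)).trans N.big
  have hm2 : 100 * (b + 1) * ((L + 2 * E) + (600 * ℓ ^ 3 + w) + 10) ≤ m :=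
    (Nat.mul_le_mul h2 le_rfl).trans N.big
  have hm3 : 100 * (b + 1) * (L + (600 * ℓ ^ 3 + w) + 10) ≤ m :=
    (Nat.mul_le_mul h2 (by omega)).trans N.big
  rcases Nat.lt_or_ge s 2 with hs | hs
  · have hs' : s = 1 := by omega
    subst hs'
    rw [one_mul] at hbs
    subst hbs
    obtain ⟨q₁, z', hP | hQ⟩ := str1 h hexp ht hmc hE' hL' hm1
    · refine RG.end_S hP ht hexp (hFF H) hm2 ?_
      rcases hcase with h3 | h3 | h3
      · exact Or.inl h3
      · exact Or.inr (Or.inl h3)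
      · refine Or.inr (Or.inr (sumZero_of_card_ne_four (e := e) (Nat.pos_of_ne_zero N.ne_zero)
          hexp hG (N.hn ▸ Dvd.intro_left t rfl) ?_ ?_ h3))
        · rw [h.cardH, mul_one]
        · rw [h.order, ← h.os, mul_one]
    · exact end_Q hQ hexp (hFF H) hL' hm3
  · obtain ⟨q₁, z', hP | hQ⟩ := str0 h hexp hs (hbs.trans (mul_comm s b)) hmc hE' hL' hm1
    · exact end_P hP hs (hFF H) hm2
    · exact end_Q hQ hexp (hFF H) hL' hm3

/-- the numbers in the case `s ∤ t` -/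
theorem core_numbers {t s : ℕ} (hst : s ≤ t) (hs : ¬ s ∣ t) (hs1 : 1 ≤ s) :
    ∃ b ρ : ℕ, t = b * s + ρ ∧ 1 ≤ b ∧ 1 ≤ ρ ∧ ρ < s ∧ b ≤ t := by
  refine ⟨t / s, t % s, ?_, ?_, ?_, Nat.mod_lt _ hs1, Nat.div_le_self t s⟩
  · rw [mul_comm]
    exact (Nat.div_add_mod t s).symm
  · exact Nat.div_pos hst hs1
  · rcases Nat.eq_zero_or_pos (t % s) with h | h
    · exact absurd (Nat.dvd_of_mod_eq_zero h) hs
    · exact h

/-- the case `s ∤ t`: the structure -/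
theorem core_not_div (N : Nums n m t ℓ w loss E L) (hexp : ∀ x : G, n • x = 0)
    (hFF : ∀ H : AddSubgroup G, FatFull H (600 * ℓ ^ 3 + w))
    {s o k t' : ℕ} {A S : Finset G} {H : AddSubgroup G} {e q₀ : G} {z : G → ℤ} {u v : ℤ}
    (h : Amb H e q₀ A S z m t n c s o loss k t' u v)
    (hmc : m ≤ c) (hst : ¬ s ∣ t) (hno : ¬ Hit A n 0) :
    ∃ (b ρ : ℕ) (q₁ : G) (z' : G → ℤ), t = b * s + ρ ∧ 1 ≤ b ∧
      ρ < s ∧ 3 ≤ s ∧ s < t ∧ s ∣ t * m ∧ StrR H e q₁ A z' m n c s o b ρ E ∧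
      100 * s * (b + 1) * (E + (600 * ℓ ^ 3 + w) + 10) ≤ m := by
  have ht := N.ht
  have hs1 := h.s1
  obtain ⟨b, ρ, h1, h2, h3, h4, h5⟩ := core_numbers h.st hst hs1
  have h6 : 100 * s * (b + 1) ≤ 100 * (t + 1) * (t + 1) := by
    have := h.st
    exact Nat.mul_le_mul (Nat.mul_le_mul_left _ (by omega)) (by omega)
  have hE' : (b + 3) * (loss + 1) ≤ E := by
    rw [N.hE]
    exact Nat.mul_le_mul_right _ (by omega)
  have hm1 : 100 * s * (b + 1) * (E + 10) ≤ m := (Nat.mul_le_mul h6 (by omega)).trans N.big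
  have hm2 : 100 * s * (b + 1) * (E + (600 * ℓ ^ 3 + w) + 10) ≤ m :=
    (Nat.mul_le_mul h6 (by omega)).trans N.big
  obtain ⟨q₁, z', hR⟩ := strR h hexp h1 h3 h4 hmc hE' hm1
  have hslt : s < t := by
    refine lt_of_le_of_ne h.st ?_
    rintro rfl
    exact hst dvd_rfl
  have hsd : s ∣ t * m := by
    rw [← N.hn, ← h.os]
    exact Dvd.intro_left o rfl
  have hs2 : s ≠ 2 := by
    rintro rfl
    have hρ : ρ = 1 := by omega
    subst hρ
    exact hno (end_R2 hR (hFF H) hm2)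
  have hs1' : s ≠ 1 := by
    rintro rfl
    exact hst (one_dvd t)
  exact ⟨b, ρ, q₁, z', h1, h2, h4, by omega, hslt, hsd, hR, hm2⟩

/-- the exact upper bound -/
theorem core_exact (N : Nums n m t ℓ w loss E L) (hexp : ∀ x : G, n • x = 0)
    (hG : Nat.card G = m * n) (hFF : ∀ H : AddSubgroup G, FatFull H (600 * ℓ ^ 3 + w))
    (hamb : HasAmb G n m t loss) (hgood : ∀ s, s ∣ t * m → 3 ≤ s → s < t → s ∣ t)
    {A : Finset G} (hA : #A = n + c)
    (hc : (¬ (Odd t ∧ #{x : G | x + x = 0} = 4) ∧ c = m) ∨ c = m + 1) : Hit A n 0 := by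
  have h1 := N.loss_le'
  have h2 := N.two_le
  have hmc : m ≤ c := by omega
  by_contra hno
  obtain ⟨H, e, q₀, S, z, s, o, k, t', u, v, h⟩ := hamb A c hA hmc (by omega) hno
  by_cases hst : s ∣ t
  · refine hno (core_div N hexp hG hFF h hmc hst ?_)
    rcases hc with ⟨h1, h2⟩ | h1
    · rcases Nat.even_or_odd t with h3 | h3
      · exact Or.inr (Or.inl h3)
      · exact Or.inr (Or.inr fun h4 => h1 ⟨h3, h4⟩)
    · exact Or.inl h1.ge
  · obtain ⟨b, ρ, q₁, z', -, -, -, h3, hlt, hd, -⟩ := core_not_div N hexp hFF h hmc hst hno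
    exact hst (hgood s hd h3 hlt)

/-- the case of a large set -/
theorem core_big (N : Nums n m t ℓ w loss E L) (hamb : HasAmb G n m t loss)
    {A : Finset G} (hA : #A = n + c) (hno : ¬ Hit A n 0) : c + 3 * loss < n := by
  have h1 := N.loss_le'
  have h2 := N.two_le
  by_contra hcn
  push Not at hcn
  obtain ⟨c₁, hc₁⟩ : ∃ c₁, c₁ + 3 * loss = n := ⟨n - 3 * loss, by omega⟩
  have hle : m ≤ c₁ := by omega
  obtain ⟨B, hB, hBc⟩ := exists_subset_card_eq (s := A) (n := n + c₁) (by omega)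
  have hnoB : ¬ Hit B n 0 := fun h => hno (Hit.mono hB h)
  obtain ⟨H, e, q₀, S, z, s, o, k, t', u, v, h⟩ := hamb B c₁ hBc hle hc₁.le hnoB
  exact big_c h N.ht N.loss_le hc₁

/-- the upper bound up to one -/
theorem core_cyc (N : Nums n m t ℓ w loss E L) (hexp : ∀ x : G, n • x = 0)
    (hG : Nat.card G = m * n) (hFF : ∀ H : AddSubgroup G, FatFull H (600 * ℓ ^ 3 + w))
    (hamb : HasAmb G n m t loss) {M : ℕ}
    (hM : ∀ A : Finset G, CycFree A n → #A ≤ M)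
    (hM1 : (t + 1) * m ≤ M + 2) (hM2 : Odd t → (t + 1) * m ≤ M + 1)
    {A : Finset G} (hA : #A = M + 2) : Hit A n 0 := by
  have h1 := N.loss_le'
  have e1 : (t + 1) * m = n + m := by
    rw [N.hn]
    ring
  rw [e1] at hM1 hM2
  obtain ⟨c, hc⟩ : ∃ c, M + 2 = n + c := ⟨M + 2 - n, by omega⟩
  have hAc := hA.trans hc
  have hmc : m ≤ c := by omega
  by_contra hno
  obtain ⟨H, e, q₀, S, z, s, o, k, t', u, v, h⟩ :=
    hamb A c hAc hmc (core_big N hamb hAc hno).le hno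
  by_cases hst : s ∣ t
  · refine hno (core_div N hexp hG hFF h hmc hst ?_)
    rcases Nat.even_or_odd t with h3 | h3
    · exact Or.inr (Or.inl h3)
    · have := hM2 h3
      exact Or.inl (by omega)
  · obtain ⟨b, ρ, q₁, z', -, -, -, h3, hlt, hd, hR, hm2⟩ := core_not_div N hexp hFF h hmc hst hno
    have ho1 : m ≤ o := by
      have h7 : m * s ≤ o * s := by
        rw [h.os, N.hn, mul_comm t m]
        exact Nat.mul_le_mul_left _ h.st
      exact Nat.le_of_mul_le_mul_right h7 h.s1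
    refine hno (end_R hR hexp (hFF H) hm2 ?_)
    have hcard : Nat.card H * addOrderOf (e : G ⧸ H) = Nat.card (AddMonoidHom.id G).range := by
      rw [h.order, h.cardH, mul_assoc, mul_comm s o, h.os,
        AddMonoidHom.range_eq_top_of_surjective (AddMonoidHom.id G) Function.surjective_id,
        AddSubgroup.card_top, hG]
    have ho : 1 < addOrderOf (e : G ⧸ H) := by
      rw [h.order]
      omega
    obtain ⟨φ, hφ, hφ0⟩ := exists_quot (AddMonoidHom.id G) (H := H) (e := e)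
      (fun x _ => ⟨x, rfl⟩) ⟨e, rfl⟩ hcard
    intro x hx
    have h4 : ¬ CycFree (A.erase x) n := by
      intro h5
      have h6 := hM _ h5
      rw [card_erase_of_mem hx] at h6
      omega
    have h5 : ∃ T ⊆ A.erase x, #T = n ∧ φ (∑ x ∈ T, x) = 0 := by
      by_contra hcon
      push Not at hcon
      exact h4 ⟨_, φ, ho, hφ, hcon⟩
    obtain ⟨T, hT, hTc, hTs⟩ := h5
    exact ⟨T, hT, hTc, (hφ0 _).1 hTs⟩

/-- the explicit upper bound -/
theorem core_form (N : Nums n m t ℓ w loss E L) (hexp : ∀ x : G, n • x = 0)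
    (hG : Nat.card G = m * n) (hFF : ∀ H : AddSubgroup G, FatFull H (600 * ℓ ^ 3 + w))
    (hamb : HasAmb G n m t loss) {A : Finset G} (hA : #A = n + c) (hmc : m + 1 ≤ c)
    (hno : ¬ Hit A n 0) :
    ∃ s, s ∣ t * m ∧ 3 ≤ s ∧ s < t ∧ ¬ s ∣ t ∧ c ≤ cstar m t s + 1 := by
  obtain ⟨H, e, q₀, S, z, s, o, k, t', u, v, h⟩ :=
    hamb A c hA (by omega) (core_big N hamb hA hno).le hno
  by_cases hst : s ∣ t
  · exact absurd (core_div N hexp hG hFF h (by omega) hst (Or.inl hmc)) hno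
  · obtain ⟨b, ρ, q₁, z', h1, h2, h4, h3, hlt, hd, hR, hm2⟩ :=
      core_not_div N hexp hFF h (by omega) hst hno
    obtain ⟨k', hk'⟩ : ∃ k', k' + ρ = s := ⟨s - ρ, by omega⟩
    obtain ⟨b1, b2, b3⟩ := hR.bounds hexp (hFF H) hm2 hno hk'
    exact ⟨s, hd, h3, hlt, hst, le_cstar h1 h4 h2 (h.os.trans N.hn) hk' b1 b2 b3⟩

/-- everything that is needed -/
theorem exists_core (hexp : ∀ x : G, n • x = 0) (hG : Nat.card G = m * n) (hn : n = t * m)
    (ht : 2 ≤ t) (hm : 10 ^ 40 * (t + 1) ^ 16 * (Nat.log 2 n + 1) ^ 12 ≤ m)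
    (hw : 10 ^ 8 * (t + 1) ^ 2 * #{x : G | x + x = 0} ≤ m) :
    ∃ ℓ loss E L : ℕ, Nums n m t ℓ #{x : G | x + x = 0} loss E L ∧ HasAmb G n m t loss ∧
      ∀ H : AddSubgroup G, FatFull H (600 * ℓ ^ 3 + #{x : G | x + x = 0}) := by
  obtain ⟨ℓ, loss, E, L, N, hamb⟩ := exists_nums hexp hG hn ht hm hw
  have hmn : m ≤ n := by
    rw [hn]
    exact Nat.le_mul_of_pos_left m (by omega)
  have hcard : Nat.card G ≤ n ^ 2 := by
    rw [hG, sq]
    exact Nat.mul_le_mul_right _ hmn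
  exact ⟨ℓ, loss, E, L, N, hamb, fun H => fatFull hcard (fun s => card_double_le s) N.hℓ N.hb H⟩

/-- **the exact upper bound** -/
theorem upper_exact (hexp : ∀ x : G, n • x = 0) (hG : Nat.card G = m * n) (hn : n = t * m)
    (ht : 2 ≤ t) (hm : 10 ^ 40 * (t + 1) ^ 16 * (Nat.log 2 n + 1) ^ 12 ≤ m)
    (hw : 10 ^ 8 * (t + 1) ^ 2 * #{x : G | x + x = 0} ≤ m)
    (hgood : ∀ s, s ∣ n → 3 ≤ s → s < t → s ∣ t) {A : Finset G}
    (hA : (¬ (Odd t ∧ #{x : G | x + x = 0} = 4) ∧ #A = (t + 1) * m) ∨ #A = (t + 1) * m + 1) :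
    Hit A n 0 := by
  obtain ⟨ℓ, loss, E, L, N, hamb, hFF⟩ := exists_core hexp hG hn ht hm hw
  have e1 : (t + 1) * m = n + m := by
    rw [hn]
    ring
  rw [e1] at hA
  subst hn
  rcases hA with ⟨h4, h5⟩ | h5
  · exact core_exact N hexp hG hFF hamb hgood h5 (Or.inl ⟨h4, rfl⟩)
  · exact core_exact N hexp hG hFF hamb hgood (c := m + 1) (by omega) (Or.inr rfl)

/-- **the explicit upper bound** -/
theorem upper_form (hexp : ∀ x : G, n • x = 0) (hG : Nat.card G = m * n) (hn : n = t * m)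
    (ht : 2 ≤ t) (hm : 10 ^ 40 * (t + 1) ^ 16 * (Nat.log 2 n + 1) ^ 12 ≤ m)
    (hw : 10 ^ 8 * (t + 1) ^ 2 * #{x : G | x + x = 0} ≤ m) {A : Finset G} (hA : #A = n + c)
    (hmc : m + 1 ≤ c) (hno : ¬ Hit A n 0) :
    ∃ s, s ∣ n ∧ 3 ≤ s ∧ s < t ∧ ¬ s ∣ t ∧ c ≤ cstar m t s + 1 := by
  obtain ⟨ℓ, loss, E, L, N, hamb, hFF⟩ := exists_core hexp hG hn ht hm hw
  subst hn
  exact core_form N hexp hG hFF hamb hA hmc hno

/-- **the upper bound up to one**, `t` small -/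
theorem upper_cyc (hexp : ∀ x : G, n • x = 0) (hG : Nat.card G = m * n) (hn : n = t * m)
    (ht : 2 ≤ t) (hm : 10 ^ 40 * (t + 1) ^ 16 * (Nat.log 2 n + 1) ^ 12 ≤ m)
    (hw : 10 ^ 8 * (t + 1) ^ 2 * #{x : G | x + x = 0} ≤ m) {M : ℕ}
    (hM : ∀ A : Finset G, CycFree A n → #A ≤ M)
    (hM1 : (t + 1) * m ≤ M + 2) (hM2 : Odd t → (t + 1) * m ≤ M + 1)
    {A : Finset G} (hA : #A = M + 2) : Hit A n 0 := by
  obtain ⟨ℓ, loss, E, L, N, hamb, hFF⟩ := exists_core hexp hG hn ht hm hw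
  exact core_cyc N hexp hG hFF hamb hM hM1 hM2 hA

end

end Pool.Agent.Lib.MPa7239a.RG
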