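import Pool.Agent.Lib.MP_a7239a_co.RG.SUMH
import Pool.Agent.Lib.MP_a7239a_co.GC.EE

/-!
# Two nearly full adjacent rows: the sum of a full row is `0` also for some even `n`
-/

open Finset

namespace Pool.Agent.Lib.MPa7239a.RG

open Pool.Agent.Lib.MPa7239a.GC

/-- a full row -/
theorem hit_full_row_z {G : Type*} [AddCommGroup G] [Finite G] {n : ℕ} (hG : ∀ x : G, n • x = 0)
    {H : AddSubgroup G} (hz : ∀ F : Finset G, (∀ x, x ∈ F ↔ x ∈ H) → ∑ x ∈ F, x = 0)
    {y : G} (hH : Nat.card H = n) {A B : Finset G} (hB : B ⊆ A)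
    (m : ∀ x ∈ B, x - y ∈ H) (hc : #B = n) : Hit A n 0 := by
  classical
  refine ⟨B, hB, hc, ?_⟩
  have hHf : (H : Set G).Finite := Set.toFinite _
  set HF : Finset G := hHf.toFinset with hHF
  have hmem : ∀ x, x ∈ HF ↔ x ∈ H := by
    intro x
    rw [hHF, Set.Finite.mem_toFinset, SetLike.mem_coe]
  have hcard : #HF = Nat.card H := by
    rw [hHF, ← Set.ncard_eq_toFinset_card _ hHf]
    rfl
  have himg : B.image (fun x => x - y) = HF := by
    apply eq_of_subset_of_card_le
    · intro z hz
      rw [mem_image] at hz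
      obtain ⟨x, hx, rfl⟩ := hz
      exact (hmem _).2 (m x hx)
    · rw [card_image_of_injective _ (fun a b hab => sub_left_injective hab), hcard, hH, hc]
  have h1 : ∑ x ∈ B, x - #B • y = ∑ h ∈ HF, h := by
    rw [← himg, sum_image (fun a _ b _ hab => sub_left_injective hab), sum_sub_distrib,
      sum_const]
  rw [hz HF hmem, hc, hG, sub_zero] at h1
  exact h1

/-- the sum of the elements of `H` -/
theorem sum_subgroup_eq_zero {G : Type*} [AddCommGroup G] [DecidableEq G] {H : AddSubgroup G}
    {F : Finset G} (hF : ∀ x, x ∈ F ↔ x ∈ H) (h2 : #(F.filter (fun x => x + x = 0)) ≠ 2) :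
    ∑ x ∈ F, x = 0 :=
  sum_eq_zero_of ((hF 0).2 H.zero_mem) (fun x hx => (hF _).2 (H.neg_mem ((hF x).1 hx)))
    (fun x hx y hy => (hF _).2 (H.add_mem ((hF x).1 hx) ((hF y).1 hy))) h2

/-- the solutions of `x + x = 0` in `G` and in `H`, if `G / H` is cyclic of order `n = k + k`,
generated by an element `e` with `n • e = 0` -/
theorem card_two {G : Type*} [AddCommGroup G] [Fintype G] [DecidableEq G] {n k : ℕ}
    (hn : n = k + k) (hk : 0 < k) (hG : ∀ x : G, n • x = 0) {H : AddSubgroup G} {e : G}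
    (hord : ∀ a : ℤ, a • e ∈ H ↔ (n : ℤ) ∣ a) (hgen : ∀ x : G, ∃ a : ℤ, x - a • e ∈ H)
    {F : Finset G} (hF : ∀ x, x ∈ F ↔ x ∈ H) :
    #{x : G | x + x = 0} = 2 * #(F.filter (fun x => x + x = 0)) := by
  set W := F.filter (fun x => x + x = 0) with hW
  have hmem : ∀ x, x ∈ W ↔ x ∈ H ∧ x + x = 0 := fun x => by rw [hW, mem_filter, hF]
  have hke : k • e + k • e = 0 := by rw [← add_smul, ← hn, hG]
  have hkeH : k • e ∉ H := by
    intro h
    have h1 := (hord k).1 (by rw [natCast_zsmul]; exact h)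
    have h2 := Int.le_of_dvd (by omega) h1
    omega
  have hU : (univ.filter (fun x : G => x + x = 0)) = W ∪ W.image (fun x => x + k • e) := by
    ext x
    rw [mem_filter, mem_union, mem_image, hmem]
    constructor
    · rintro ⟨_, hx⟩
      obtain ⟨a, ha⟩ := hgen x
      have h1 : (a + a) • e ∈ H := by
        have h2 := H.add_mem ha ha
        have h3 : x - a • e + (x - a • e) = (x + x) - (a + a) • e := by
          rw [add_smul]
          abel
        rw [h3, hx, zero_sub] at h2
        have h4 := H.neg_mem h2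
        rwa [neg_neg] at h4
      have h2 := (hord _).1 h1
      obtain ⟨b, hb⟩ := h2
      have h3 : a = k * b := by
        rw [hn] at hb
        push_cast at hb
        have h4 : (2 : ℤ) * a = 2 * (k * b) := by linarith
        linarith
      rcases Int.even_or_odd b with ⟨c, hc⟩ | ⟨c, hc⟩
      · left
        refine ⟨?_, hx⟩
        have h4 : a • e = 0 := by
          have h5 : a = c * n := by
            rw [h3, hc, hn]
            push_cast
            ring
          rw [h5, mul_smul, natCast_zsmul, hG, smul_zero]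
        rw [h4, sub_zero] at ha
        exact ha
      · right
        have h4 : a • e = k • e := by
          have h5 : a = c * n + k := by
            rw [h3, hc, hn]
            push_cast
            ring
          rw [h5, add_smul, mul_smul, natCast_zsmul, natCast_zsmul, hG, smul_zero, zero_add]
        rw [h4] at ha
        refine ⟨x - k • e, (hmem _).2 ⟨ha, ?_⟩, sub_add_cancel _ _⟩
        have h5 : x - k • e + (x - k • e) = (x + x) - (k • e + k • e) := by abel
        rw [h5, hx, hke, sub_zero]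
    · rintro (⟨_, hx⟩ | ⟨y, hy, rfl⟩)
      · exact ⟨mem_univ _, hx⟩
      · refine ⟨mem_univ _, ?_⟩
        have h5 : y + k • e + (y + k • e) = (y + y) + (k • e + k • e) := by abel
        rw [h5, ((hmem y).1 hy).2, hke, add_zero]
  have hdis : Disjoint W (W.image (fun x => x + k • e)) := by
    rw [disjoint_left]
    intro x hx hx'
    obtain ⟨y, hy, rfl⟩ := mem_image.1 hx'
    have h1 := H.sub_mem ((hmem _).1 hx).1 ((hmem _).1 hy).1
    rw [add_sub_cancel_left] at h1
    exact hkeH h1
  rw [hU, card_union_of_disjoint hdis, card_image_of_injective _ (add_left_injective _)]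
  ring

open Classical in
/-- two nearly full adjacent rows -/
theorem two_rows_z {G : Type*} [AddCommGroup G] [Fintype G] {n : ℕ} (hn : 100 ≤ n)
    (hG : ∀ x : G, n • x = 0) (H : AddSubgroup G) (e : G) (hH : Nat.card H = n)
    (hord : ∀ a : ℤ, a • e ∈ H ↔ (n : ℤ) ∣ a) (hgen : ∀ x : G, ∃ a : ℤ, x - a • e ∈ H)
    {A : Finset G} (hA : ((∀ F : Finset G, (∀ x, x ∈ F ↔ x ∈ H) → ∑ x ∈ F, x = 0) ∧
      #A + 1 = 2 * n) ∨ #A = 2 * n + 1) (x₀ : G) {E : ℕ}
    (h₀ : n ≤ #(A.filter (fun x => x - x₀ ∈ H)) + E)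
    (h₁ : n ≤ #(A.filter (fun x => x - x₀ - e ∈ H)) + E) (hE : 100 * E ≤ n) :
    Hit A n 0 := by
  have heH : e ∉ H := by
    intro h
    have h1 := (hord 1).1 (by rw [one_smul]; exact h)
    have h2 : (n : ℤ) ≤ 1 := Int.le_of_dvd one_pos h1
    omega
  -- the values
  have hval : ∀ x : G, ∃ v : ℕ, v < n ∧ x - x₀ - v • e ∈ H := by
    intro x
    obtain ⟨a, ha⟩ := hgen (x - x₀)
    have hn0 : (0 : ℤ) < n := by omega
    refine ⟨(a % n).toNat, ?_, ?_⟩
    · have h1 := Int.emod_lt_of_pos a hn0
      have h2 := Int.emod_nonneg a hn0.ne'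
      omega
    · have h1 : ((a % n).toNat : ℤ) = a % n := Int.toNat_of_nonneg (Int.emod_nonneg a hn0.ne')
      rw [← natCast_zsmul e ((a % n).toNat), h1]
      have h2 : a • e = (a % n) • e := by
        conv_lhs => rw [← Int.emod_add_mul_ediv a n, add_smul, mul_comm, mul_smul,
          natCast_zsmul, hG, smul_zero, add_zero]
      rw [← h2]
      exact ha
  choose v hvn hv using hval
  set B₀ := A.filter (fun x => x - x₀ ∈ H) with hB₀
  set B₁ := A.filter (fun x => x - x₀ - e ∈ H) with hB₁
  have m₀ : ∀ x ∈ B₀, x - x₀ ∈ H := fun x hx => (mem_filter.1 hx).2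
  have m₁ : ∀ x ∈ B₁, x - (x₀ + e) ∈ H := by
    intro x hx
    rw [← sub_sub]
    exact (mem_filter.1 hx).2
  have d01 : Disjoint B₀ B₁ := by
    rw [disjoint_left]
    intro x h1 h2
    apply heH
    have h3 := sub_mem (m₀ x h1) (m₁ x h2)
    rwa [show x - x₀ - (x - (x₀ + e)) = e by abel] at h3
  have bound : ∀ (B : Finset G) (y : G), (∀ x ∈ B, x - y ∈ H) → #B ≤ n := by
    intro B y hB
    have hHf : (H : Set G).Finite := Set.toFinite _
    have hcard : #hHf.toFinset = Nat.card H := by
      rw [← Set.ncard_eq_toFinset_card _ hHf]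
      rfl
    rw [← hH, ← hcard, ← card_image_of_injective B (fun a b hab => sub_left_injective hab :
      Function.Injective (fun x => x - y))]
    apply card_le_card
    intro z hz
    rw [mem_image] at hz
    obtain ⟨x, hx, rfl⟩ := hz
    rw [Set.Finite.mem_toFinset, SetLike.mem_coe]
    exact hB x hx
  have s₀ : B₀ ⊆ A := filter_subset _ _
  have s₁ : B₁ ⊆ A := filter_subset _ _
  have hb₀ := bound B₀ x₀ m₀
  have hb₁ := bound B₁ (x₀ + e) m₁
  obtain ⟨g₀, hg₀⟩ := Nat.exists_eq_add_of_le hb₀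
  obtain ⟨g₁, hg₁⟩ := Nat.exists_eq_add_of_le hb₁
  -- full rows
  by_cases hf : (∀ F : Finset G, (∀ x, x ∈ F ↔ x ∈ H) → ∑ x ∈ F, x = 0) ∧ (g₀ = 0 ∨ g₁ = 0)
  · rcases hf with ⟨hodd, hf | hf⟩
    · exact hit_full_row_z hG hodd hH s₀ m₀ (by omega)
    · exact hit_full_row_z hG hodd hH s₁ m₁ (by omega)
  set Ex := A \ (B₀ ∪ B₁) with hEx
  have hExc : #Ex + (#B₀ + #B₁) = #A := by
    rw [← card_union_of_disjoint d01]
    exact card_sdiff_add_card_eq_card (union_subset s₀ s₁)
  have dEx0 : Disjoint B₀ Ex := by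
    rw [disjoint_left]
    intro x h1 h2
    rw [hEx, mem_sdiff, mem_union] at h2
    exact h2.2 (Or.inl h1)
  have dEx1 : Disjoint B₁ Ex := by
    rw [disjoint_left]
    intro x h1 h2
    rw [hEx, mem_sdiff, mem_union] at h2
    exact h2.2 (Or.inr h1)
  have hv2 : ∀ x ∈ Ex, 2 ≤ v x := by
    intro x hx
    rw [hEx, mem_sdiff, mem_union, not_or, hB₀, hB₁, mem_filter, mem_filter, not_and,
      not_and] at hx
    by_contra hlt
    have h2 : v x = 0 ∨ v x = 1 := by omega
    rcases h2 with h2 | h2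
    · have h3 := hv x
      rw [h2, zero_smul, sub_zero] at h3
      exact hx.2.1 hx.1 h3
    · have h3 := hv x
      rw [h2, one_smul] at h3
      exact hx.2.2 hx.1 h3
  -- one exceptional element in the middle range
  by_cases hmid : ∃ x ∈ Ex, g₁ + 1 ≤ v x ∧ v x + g₀ ≤ n
  · obtain ⟨x, hx, h1, h2⟩ := hmid
    have hvx := hvn x
    have hvx2 := hv2 x hx
    refine hit_of_rows hG hH s₀ s₁ (Y := {x})
      (singleton_subset_iff.2 (sdiff_subset hx)) d01
      (disjoint_of_subset_right (singleton_subset_iff.2 hx) dEx0)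
      (disjoint_of_subset_right (singleton_subset_iff.2 hx) dEx1) m₀ m₁ (s := v x)
      (c₀ := v x - 1) (c₁ := n - v x) ?_ (by omega) (by rw [card_singleton]; omega) ?_
    · rw [sum_singleton, card_singleton, one_smul]
      exact hv x
    · have h5 := le_card_ssum (B := B₁) (c := n - v x) (by omega)
      have h6 := le_card_ssum (B := B₀) (c := v x - 1) (by omega)
      omega
  push Not at hmid
  -- the upper ones
  set Up := Ex.filter (fun x => v x ≤ g₁) with hUp
  set Lo := Ex.filter (fun x => ¬ v x ≤ g₁) with hLo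
  have hUL : #Up + #Lo = #Ex := card_filter_add_card_filter_not _
  by_cases hup : g₁ + 1 ≤ ∑ x ∈ Up, v x
  · exact upper_exceptional hn hG hH s₀ s₁
      ((filter_subset _ _).trans sdiff_subset) d01
      (disjoint_of_subset_right (filter_subset _ _) dEx0)
      (disjoint_of_subset_right (filter_subset _ _) dEx1) m₀ m₁ v (fun x _ => hv x)
      (fun x hx => hv2 x (mem_filter.1 hx).1) hg₀.symm hg₁.symm (by omega) (by omega)
      (fun x hx => (mem_filter.1 hx).2) hup
  -- the lower ones
  by_cases hlo : g₀ + 1 ≤ ∑ x ∈ Lo, (n + 1 - v x)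
  · refine upper_exceptional (x₀ := x₀ + e) (e := -e) hn hG hH s₁ s₀
      ((filter_subset _ _).trans sdiff_subset) d01.symm
      (disjoint_of_subset_right (filter_subset _ _) dEx1)
      (disjoint_of_subset_right (filter_subset _ _) dEx0) m₁ (fun x hx => ?_)
      (fun x => n + 1 - v x) (fun x hx => ?_)
      (fun x hx => ?_) hg₁.symm hg₀.symm (by omega) (by omega)
      (fun x hx => ?_) hlo
    · rw [add_neg_cancel_right]
      exact m₀ x hx
    · have h1 := hv x
      have h2 : (n + 1 - v x) • (-e) = v x • e - e := by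
        have h3 : (n + 1 - v x) • e + v x • e = e := by
          rw [← add_smul, Nat.sub_add_cancel (by have := hvn x; omega), add_smul, hG, zero_add,
            one_smul]
        rw [smul_neg]
        calc -((n + 1 - v x) • e) = v x • e - ((n + 1 - v x) • e + v x • e) := by abel
          _ = v x • e - e := by rw [h3]
      rw [show x - (x₀ + e) - (n + 1 - v x) • (-e) = x - x₀ - e - (n + 1 - v x) • (-e) by abel,
        h2]
      rw [show x - x₀ - e - (v x • e - e) = x - x₀ - v x • e by abel]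
      exact h1
    · have := hvn x
      show 2 ≤ n + 1 - v x
      omega
    · have h1 := mem_filter.1 hx
      have h2 := hmid x h1.1 (by omega)
      show n + 1 - v x ≤ g₀
      omega
  -- counting
  exfalso
  have h3 : #Up * 2 ≤ ∑ x ∈ Up, v x :=
    card_nsmul_le_sum _ _ _ (fun x hx => hv2 x (mem_filter.1 hx).1)
  have h4 : #Lo * 2 ≤ ∑ x ∈ Lo, (n + 1 - v x) :=
    card_nsmul_le_sum _ _ _ (fun x _ => by
      have := hvn x
      show 2 ≤ n + 1 - v x
      omega)
  rcases hA with ⟨hodd, hA⟩ | hA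
  · have h5 : g₀ ≠ 0 ∧ g₁ ≠ 0 := by
      constructor
      · intro h
        exact hf ⟨hodd, Or.inl h⟩
      · intro h
        exact hf ⟨hodd, Or.inr h⟩
    omega
  · omega

end Pool.Agent.Lib.MPa7239a.RG
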