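import Pool.Agent.Lib.MP_a7239a_co.RS.STRA
import Pool.Agent.Lib.MP_a7239a_co.RG.BOHR
import Pool.Agent.Lib.MP_a7239a_co.RG.SPC
import Pool.Agent.Lib.MP_a7239a_co.RG.LINE

/-!
# The structure of a set or a filled subgroup
-/

open Finset

namespace Pool.Agent.Lib.MPa7239a.RG

open Pool.Agent.Lib.MPa7239a.GC hiding cs
open Pool.Agent.Lib.MPa7239a.RS (Df Par full_or_dense exists_pop norm_char_sub_one_le)
open Pool.Agent.Lib.MPa7239a.RS.StraM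

/-- **structure or a filled subgroup** -/
theorem struct_or_full {G : Type*} [AddCommGroup G] [Fintype G] [DecidableEq G]
    {m n ℓ M Λ k : ℕ} [NeZero n] (hexp : ∀ x : G, n • x = 0) (hGc : Fintype.card G ≤ n ^ 2)
    (hpar : Par m n ℓ M Λ k)
    {Γ : AddSubgroup G} (hΓ : Nat.card Γ = m * n)
    {X : Finset G} (hX : ∀ x ∈ X, x ∈ Γ) (hXn : n ≤ #X) :
    ∃ S ⊆ X, ∃ R ⊆ X, Disjoint S R ∧ #X ≤ #S + 288 * M * ℓ ^ 2 ∧ #R ≤ 288 * M * ℓ ^ 2 ∧
      ((∃ (r : ℕ) (c₀ : G), ∀ g ∈ AddSubgroup.closure (Df S : Set G),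
        Hit R r (c₀ + g)) ∨
      (M * #S ≤ 2 * Nat.card (AddSubgroup.closure (Df S : Set G)) ∧
        ∃ (H : AddSubgroup G) (e q : G)
          (z : G → ℤ) (Z : ℕ), H ≤ AddSubgroup.closure (Df S : Set _) ∧
          e ∈ AddSubgroup.closure (Df S : Set G) ∧
          (∀ x ∈ AddSubgroup.closure (Df S : Set G), ∃ a : ℤ, x - a • e ∈ H) ∧
          q ∈ S ∧ (∀ x ∈ S, x - q - z x • e ∈ H) ∧ (∀ x ∈ S, |z x| ≤ Z) ∧ 1 ≤ Z ∧
          4 * M * Z ≤ Λ * addOrderOf (e : G ⧸ H) ∧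
          ∃ (r : ℕ) (c₀ : G), ∀ a : ℤ, |a| ≤ 4 * Z → ∀ h ∈ H,
            Hit R r (c₀ + a • e + h))) := by
  classical
  obtain ⟨hℓ, hb, hM, hmn, hΛ, hk₁, hk₂, hΛ₂, hM₂⟩ := hpar
  have hn : 0 < n := Nat.pos_of_ne_zero (NeZero.ne n)
  -- numbers
  have hℓ1 : 1 ≤ ℓ := by
    rcases Nat.eq_zero_or_pos ℓ with h | h
    · rw [h, pow_zero] at hℓ
      omega
    · exact h
  have hℓ2 : ℓ ^ 2 ≤ ℓ ^ 3 := Nat.pow_le_pow_right hℓ1 (by omega)
  have hlam : 1000 * (288 * M * ℓ ^ 2) ≤ m := by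
    have h1 : M * ℓ ^ 2 ≤ M * ℓ ^ 3 := Nat.mul_le_mul_left _ hℓ2
    nlinarith
  have hm1 : 1 ≤ m := by
    have h1 : 1 ≤ M * ℓ ^ 3 := Nat.one_le_iff_ne_zero.2 (by positivity)
    nlinarith
  have hΛ1 : 1 ≤ Λ := by
    rcases Nat.eq_zero_or_pos Λ with h | h
    · rw [h, zero_mul] at hΛ
      omega
    · exact h
  have hG : Fintype.card G < 2 ^ (2 * ℓ) := by
    refine lt_of_le_of_lt hGc ?_
    rw [pow_mul, pow_right_comm]
    exact Nat.pow_lt_pow_left hℓ (by omega)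
  -- the boxes
  obtain ⟨V, S, hbox⟩ := exists_boxes (⊥ : AddSubgroup G) X (3 * (8 * M * (2 * ℓ)))
    (3 * ℓ) (lt_of_le_of_lt (Nat.mul_le_mul_left _ hGc) hb)
  obtain ⟨F₁, F₂, F₃, r, c₀, z₁, z₂, z₃, hfill, k₁, k₂, k₃, p₁, p₂, p₃⟩ :=
    fillers hbox (N := 8 * M) (L := 2 * ℓ) (by omega) hG rfl
  set w := 3 * (8 * M * (2 * ℓ)) with hw
  set R := (range w).biUnion V with hR
  have hRX : R ⊆ X := by
    intro x hx
    obtain ⟨i, hi, hxi⟩ := mem_biUnion.1 hx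
    exact hbox.sub i (mem_range.1 hi) hxi
  have hSR : Disjoint S R := by
    rw [Finset.disjoint_left]
    intro x hx hx'
    obtain ⟨i, hi, hxi⟩ := mem_biUnion.1 hx'
    exact Finset.disjoint_left.1 (hbox.sdisj i (mem_range.1 hi)) hxi hx
  have hwb : w * (2 * (3 * ℓ)) = 288 * M * ℓ ^ 2 := by
    rw [hw]
    ring
  have hRc : #R ≤ 288 * M * ℓ ^ 2 := by
    rw [← hwb]
    refine card_biUnion_le.trans ?_
    calc ∑ i ∈ range w, #(V i) ≤ ∑ _i ∈ range w, 2 * (3 * ℓ) :=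
          sum_le_sum fun i hi => hbox.card i (mem_range.1 hi)
      _ = w * (2 * (3 * ℓ)) := by rw [sum_const, card_range, smul_eq_mul]
  have hSc : #X ≤ #S + 288 * M * ℓ ^ 2 := by
    have := hbox.loss
    rw [hwb] at this
    exact this
  have hSbig : 999 * n ≤ 1000 * #S := by omega
  have hSne : S.Nonempty := by
    rw [← card_pos]
    omega
  refine ⟨S, hbox.ssub, R, hRX, hSR, hSc, hRc, ?_⟩
  set K := AddSubgroup.closure (Df S : Set G) with hK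
  have hDΓ : ∀ v ∈ Df S, v ∈ Γ := by
    intro v hv
    obtain ⟨p, hp, rfl⟩ := mem_image.1 hv
    rw [mem_product] at hp
    exact Γ.sub_mem (hX _ (hbox.ssub hp.2)) (hX _ (hbox.ssub hp.1))
  have hKΓ : K ≤ Γ := by
    rw [hK, AddSubgroup.closure_le]
    exact fun v hv => hDΓ v hv
  -- full or dense
  rcases full_or_dense hSne hM z₂ z₃ k₂ k₃ p₂ p₃ with hfull | ⟨hd₂, hd₃⟩
  · left
    refine ⟨r, c₀, fun g hg => ?_⟩
    obtain ⟨f₂, hf₂, f₃, hf₃, rfl⟩ := hfull g hg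
    have := hfill 0 z₁ f₂ hf₂ f₃ hf₃
    rw [zero_add] at this
    exact this
  -- the density
  have hdens : ∀ F : Finset G, M * #S ≤ 2 * #F → m * n ≤ Λ * #F := by
    intro F hF
    have h1 : 3 * m * #S ≤ Λ * M * #S := Nat.mul_le_mul_right _ hΛ
    have h2 : Λ * (M * #S) ≤ Λ * (2 * #F) := Nat.mul_le_mul_left _ hF
    have h3 : m * (999 * n) ≤ m * (1000 * #S) := Nat.mul_le_mul_left _ hSbig
    nlinarith
  obtain ⟨g₀, hg₀⟩ := bohr_fill hexp hΓ (fun x hx => hKΓ (k₁ x hx)) (fun x hx => hKΓ (k₂ x hx))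
    (fun x hx => hKΓ (k₃ x hx)) ⟨0, z₁⟩ hΛ1 (hdens F₂ hd₂) (hdens F₃ hd₃)
  -- the large characters
  set Ξ : Set (G →+ ZMod n) := {ξ | (#F₁ : ℝ) ≤ 4 * Λ * ‖cs F₁ ξ‖} with hΞ
  set P := Λ * n / (4 * M) with hP
  have hPM : 4 * M * P ≤ Λ * n := by
    rw [mul_comm]
    exact Nat.div_mul_le_self _ _
  have hsmall : ∀ v ∈ Df S, ∀ ξ ∈ Ξ, (ph ξ v).valMinAbs.natAbs ≤ P := by
    intro v hv ξ hξ
    have h1 := spec_small ⟨0, z₁⟩ hΛ1 (p₁ v hv) hξ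
    rw [hP, Nat.le_div_iff_mul_le (by omega)]
    nlinarith
  have hPn : (4 * k + 4) * P < n := by
    have h1 : (k + 1) * (4 * M * P) ≤ (k + 1) * (Λ * n) := Nat.mul_le_mul_left _ hPM
    have h2 : (k + 1) * Λ * n < M * n := Nat.mul_lt_mul_of_pos_right hk₁ hn
    have h3 : M * ((4 * k + 4) * P) < M * n := by nlinarith
    exact lt_of_mul_lt_mul_left h3 (Nat.zero_le _)
  have hDS : #S ≤ #(Df S) := by
    obtain ⟨s, hs⟩ := hSne
    refine card_le_card_of_injOn (fun x => x - s) ?_ ?_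
    · intro x hx
      exact mem_coe.2 (mem_image.2 ⟨(s, x), mem_product.2 ⟨hs, hx⟩, rfl⟩)
    · intro x _ y _ hxy
      exact sub_left_injective hxy
  have hkD : 25 * (m * n) < (k + 1) ^ 2 * #(Df S) := by
    have h1 : 26 * m * #(Df S) ≤ (k + 1) ^ 2 * #(Df S) := Nat.mul_le_mul_right _ hk₂
    have h2 : m * (999 * n) ≤ m * (1000 * #(Df S)) := Nat.mul_le_mul_left _ (by omega)
    have h3 : 0 < m * n := Nat.mul_pos hm1 hn
    nlinarith
  obtain ⟨e, v₀, heK, hev, hline⟩ := line hΓ hDΓ Ξ hsmall hPn hkD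
  -- the subgroup
  let H : AddSubgroup G :=
    { carrier := {x | x ∈ Γ ∧ ∀ ξ ∈ Ξ, ph ξ x = 0}
      add_mem' := fun {a b} ha hb => ⟨Γ.add_mem ha.1 hb.1, fun ξ hξ => by
        rw [ph_add, ha.2 ξ hξ, hb.2 ξ hξ, add_zero]⟩
      zero_mem' := ⟨Γ.zero_mem, fun ξ _ => ph_zero ξ⟩
      neg_mem' := fun {a} ha => ⟨Γ.neg_mem ha.1, fun ξ hξ => by
        rw [ph_neg, ha.2 ξ hξ, neg_zero]⟩ }
  have hH : ∀ x, x ∈ H ↔ x ∈ Γ ∧ ∀ ξ ∈ Ξ, ph ξ x = 0 := fun x => Iff.rfl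
  -- filling
  have hΛR : (1 : ℝ) ≤ Λ := by exact_mod_cast hΛ1
  have hnR : (0 : ℝ) < n := by exact_mod_cast hn
  have hfillH : ∀ h ∈ H, Hit R r (c₀ + g₀ + h) := by
    intro h hh
    obtain ⟨f₁, hf₁, f₂, hf₂, f₃, hf₃, hs⟩ := hg₀ h (fun ξ hξ => by
      rw [hh.2 ξ hξ, AddChar.map_zero_eq_one, sub_self, norm_zero, mul_zero]
      exact zero_le_one)
    have := hfill f₁ hf₁ f₂ hf₂ f₃ hf₃
    rw [hs, ← add_assoc] at this
    exact this
  by_cases hDH : ∀ v ∈ Df S, v ∈ H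
  · left
    refine ⟨r, c₀ + g₀, fun g hg => hfillH g ?_⟩
    have h1 : K ≤ H := by
      rw [hK, AddSubgroup.closure_le]
      exact fun v hv => hDH v hv
    exact h1 hg
  right
  push Not at hDH
  obtain ⟨v₁, hv₁, hv₁H⟩ := hDH
  obtain ⟨ξ₁, hξ₁, hne⟩ : ∃ ξ ∈ Ξ, ph ξ v₁ ≠ 0 := by
    by_contra hcon
    push Not at hcon
    exact hv₁H ⟨hDΓ v₁ hv₁, hcon⟩
  choose! ζ hζ using hline
  have hv₀ : v₀ ξ₁ ≠ 0 := by
    intro h
    have h1 := hζ v₁ hv₁ ξ₁ hξ₁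
    rw [h, mul_zero, ZMod.valMinAbs_eq_zero] at h1
    exact hne h1
  have hζ1 : ζ v₁ ≠ 0 := by
    intro h
    have h1 := hζ v₁ hv₁ ξ₁ hξ₁
    rw [h, zero_mul, ZMod.valMinAbs_eq_zero] at h1
    exact hne h1
  obtain ⟨v₂, hv₂, hmax⟩ := exists_max_image (Df S) (fun v => (ζ v).natAbs) ⟨v₁, hv₁⟩
  set Z := (ζ v₂).natAbs with hZ
  have hZ1 : 1 ≤ Z := by
    have h1 := hmax v₁ hv₁
    have h2 : 0 < (ζ v₁).natAbs := Int.natAbs_pos.2 hζ1
    omega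
  have hZP : ∀ ξ ∈ Ξ, Z * (v₀ ξ).natAbs ≤ P := by
    intro ξ hξ
    have h1 := hsmall v₂ hv₂ ξ hξ
    rw [hζ v₂ hv₂ ξ hξ, Int.natAbs_mul] at h1
    exact h1
  have hliftD : ∀ v ∈ Df S, v - ζ v • e ∈ H := by
    intro v hv
    refine ⟨Γ.sub_mem (hDΓ v hv) (Γ.zsmul_mem (hKΓ heK) _), fun ξ hξ => ?_⟩
    rw [ph_sub, ph_zsmul, hev ξ hξ]
    have h1 : ((ph ξ v).valMinAbs : ZMod n) = ph ξ v := ZMod.coe_valMinAbs _
    rw [← h1, hζ v hv ξ hξ]
    push_cast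
    ring
  have hSD : ∀ x ∈ S, ∀ y ∈ S, y - x ∈ Df S := fun x hx y hy =>
    mem_image.2 ⟨(x, y), mem_product.2 ⟨hx, hy⟩, rfl⟩
  obtain ⟨q, hq⟩ := hSne
  have hfill2 : ∀ a : ℤ, |a| ≤ 4 * Z → ∀ h ∈ H, Hit R r (c₀ + g₀ + a • e + h) := by
    intro a ha h hh
    obtain ⟨f₁, hf₁, f₂, hf₂, f₃, hf₃, hs⟩ := hg₀ (a • e + h) (fun ξ hξ => by
      rw [ph_add, ph_zsmul, hh.2 ξ hξ, add_zero, hev ξ hξ, ← Int.cast_mul]
      have h1 := norm_char_sub_one_le (n := n) (a * v₀ ξ)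
      set t := ‖(ZMod.stdAddChar ((a * v₀ ξ : ℤ) : ZMod n) : ℂ) - 1‖ with ht
      have h2 : |((a * v₀ ξ : ℤ) : ℝ)| ≤ 4 * P := by
        have h3 : |a * v₀ ξ| ≤ 4 * P := by
          rw [abs_mul]
          have h4 : |v₀ ξ| = ((v₀ ξ).natAbs : ℤ) := Int.abs_eq_natAbs _
          have h5 : (Z : ℤ) * ((v₀ ξ).natAbs : ℤ) ≤ P := by exact_mod_cast hZP ξ hξ
          rw [h4]
          calc |a| * ((v₀ ξ).natAbs : ℤ) ≤ 4 * Z * ((v₀ ξ).natAbs : ℤ) :=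
                mul_le_mul_of_nonneg_right ha (by positivity)
            _ ≤ 4 * P := by linarith
        rw [← Int.cast_abs]
        exact_mod_cast h3
      have h6 : (4 * M * P : ℝ) ≤ Λ * n := by exact_mod_cast hPM
      have h7 : (28 * Λ ^ 2 : ℝ) ≤ M := by exact_mod_cast hΛ₂
      have hMR : (1 : ℝ) ≤ M := by exact_mod_cast hM
      have ht0 : 0 ≤ t := norm_nonneg _
      -- `M n (4 Λ t) ≤ 112 Λ M P ≤ 28 Λ ^ 2 n ≤ M n`
      have h8 : M * (t * n) ≤ M * (28 * P) := by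
        refine mul_le_mul_of_nonneg_left ?_ (by linarith)
        linarith
      have h9 : 4 * Λ * (M * (t * n)) ≤ 4 * Λ * (M * (28 * P)) :=
        mul_le_mul_of_nonneg_left h8 (by linarith)
      have h10 : 28 * (Λ : ℝ) * (4 * M * P) ≤ 28 * Λ * (Λ * n) :=
        mul_le_mul_of_nonneg_left h6 (by linarith)
      have h11 : 28 * (Λ : ℝ) ^ 2 * n ≤ M * n := mul_le_mul_of_nonneg_right h7 hnR.le
      have h12 : (M * n) * (4 * Λ * t) ≤ (M * n) * 1 := by nlinarith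
      exact le_of_mul_le_mul_left h12 (by positivity))
    have := hfill f₁ hf₁ f₂ hf₂ f₃ hf₃
    rw [hs] at this
    have h13 : c₀ + (g₀ + (a • e + h)) = c₀ + g₀ + a • e + h := by abel
    rw [h13] at this
    exact this
  refine ⟨?_, H, e, q, fun x => ζ (x - q), Z, ?_, heK, ?_, hq, ?_, ?_, hZ1, ?_, r, c₀ + g₀, hfill2⟩
  · have h1 : #F₂ ≤ Nat.card K := by
      have hfin : (K : Set G).Finite := Set.toFinite _
      have h5 : F₂ ⊆ hfin.toFinset := by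
        intro y hy
        rw [Set.Finite.mem_toFinset]
        exact k₂ y hy
      refine (card_le_card h5).trans (le_of_eq ?_)
      rw [← Set.ncard_eq_toFinset_card _ hfin]
      exact (Nat.card_coe_set_eq (K : Set G)).symm
    omega
  · intro y hy
    have h1 : ∀ y ∈ H, g₀ + y ∈ K := by
      intro y hy
      obtain ⟨f₁, hf₁, f₂, hf₂, f₃, hf₃, hs⟩ := hg₀ y (fun ξ hξ => by
        rw [hy.2 ξ hξ, AddChar.map_zero_eq_one, sub_self, norm_zero, mul_zero]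
        exact zero_le_one)
      rw [← hs]
      exact K.add_mem (K.add_mem (k₁ _ hf₁) (k₂ _ hf₂)) (k₃ _ hf₃)
    have h2 := K.sub_mem (h1 y hy) (h1 0 H.zero_mem)
    have h3 : g₀ + y - (g₀ + 0) = y := by abel
    rwa [h3] at h2
  · intro x hx
    induction hx using AddSubgroup.closure_induction with
    | mem v hv => exact ⟨ζ v, hliftD v hv⟩
    | zero => exact ⟨0, by rw [zero_smul, sub_zero]; exact H.zero_mem⟩
    | add x y _ _ hx hy =>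
      obtain ⟨a, ha⟩ := hx
      obtain ⟨b, hb⟩ := hy
      refine ⟨a + b, ?_⟩
      have := H.add_mem ha hb
      convert this using 1
      rw [add_smul]
      abel
    | neg x _ hx =>
      obtain ⟨a, ha⟩ := hx
      refine ⟨-a, ?_⟩
      have := H.neg_mem ha
      convert this using 1
      rw [neg_smul]
      abel
  · intro x hx
    exact hliftD _ (hSD q hq x hx)
  · intro x hx
    have h1 := hmax _ (hSD q hq x hx)
    rw [Int.abs_eq_natAbs]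
    exact_mod_cast h1
  · set o := addOrderOf (e : G ⧸ H) with ho
    have ho0 : 0 < o := addOrderOf_pos _
    have h1 : o • e ∈ H := by
      rw [← QuotientAddGroup.eq_zero_iff, QuotientAddGroup.mk_nsmul]
      exact addOrderOf_nsmul_eq_zero _
    have h2 := ((hH _).1 h1).2 ξ₁ hξ₁
    rw [ph_nsmul, hev ξ₁ hξ₁] at h2
    have h3 : (((o : ℤ) * v₀ ξ₁ : ℤ) : ZMod n) = 0 := by
      push_cast
      exact h2
    rw [ZMod.intCast_zmod_eq_zero_iff_dvd] at h3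
    have h4 : (n : ℤ) ≤ |(o : ℤ) * v₀ ξ₁| :=
      Int.le_of_dvd (abs_pos.2 (mul_ne_zero (by omega) hv₀)) ((dvd_abs _ _).2 h3)
    have h5 : n ≤ o * (v₀ ξ₁).natAbs := by
      rw [abs_mul, Nat.abs_cast, Int.abs_eq_natAbs] at h4
      exact_mod_cast h4
    have h6 := hZP ξ₁ hξ₁
    have h7 : 4 * M * Z * n ≤ Λ * o * n := by
      calc 4 * M * Z * n ≤ 4 * M * Z * (o * (v₀ ξ₁).natAbs) := Nat.mul_le_mul_left _ h5
        _ = 4 * M * (Z * (v₀ ξ₁).natAbs) * o := by ring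
        _ ≤ 4 * M * P * o := Nat.mul_le_mul_right _ (Nat.mul_le_mul_left _ h6)
        _ ≤ Λ * n * o := Nat.mul_le_mul_right _ hPM
        _ = Λ * o * n := by ring
    exact le_of_mul_le_mul_right h7 hn

end Pool.Agent.Lib.MPa7239a.RG
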