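import Pool.Agent.Lib.MP_a7239a_co.RS.ROWL
import Pool.Agent.Lib.MP_a7239a_co.RG.STRA

/-!
# The row lemma for groups of every rank
-/

open Finset

namespace Pool.Agent.Lib.MPa7239a.RG

open Pool.Agent.Lib.MPa7239a.GC hiding cs
open Pool.Agent.Lib.MPa7239a.RS (Df Par)
open Pool.Agent.Lib.MPa7239a.RS.ROWLM

/-- **The row lemma.** -/
theorem row_lemma {G : Type*} [AddCommGroup G] [Fintype G] [DecidableEq G]
    {m n ℓ M Λ k : ℕ} [NeZero n] (hexp : ∀ x : G, n • x = 0) (hGc : Fintype.card G ≤ n ^ 2)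
    (hpar : Par m n ℓ M Λ k)
    {Γ : AddSubgroup G} (hΓ : Nat.card Γ = m * n)
    {A : Finset G} (hA : ∀ x ∈ A, x ∈ Γ) (hno : ¬ Hit A n 0)
    (K : AddSubgroup G) (hK : 3 * Nat.card K ≤ M * n) (x₀ : G)
    {B : Finset G} (hBA : B ⊆ A) (hB : ∀ x ∈ B, x - x₀ ∈ K) :
    #B < n + (2 * ℓ + 1) * (288 * M * ℓ ^ 2) := by
  have hn0 : 0 < n := Nat.pos_of_ne_zero (NeZero.ne n)
  have hℓ1 : 1 ≤ ℓ := by
    rcases Nat.eq_zero_or_pos ℓ with h | h
    · exfalso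
      have h1 := hpar.hℓ
      rw [h, pow_zero] at h1
      omega
    · exact h
  refine core hpar.hM ?_ ?_ ?_ ?_ hno K hK x₀ hBA hB
  · -- the loss is at most `n`
    have h1 := hpar.hM₂
    have h2 := hpar.hmn
    have h3 : ℓ ^ 2 ≤ ℓ ^ 3 := Nat.pow_le_pow_right hℓ1 (by norm_num)
    calc 288 * M * ℓ ^ 2 ≤ 288 * M * ℓ ^ 3 := Nat.mul_le_mul_left _ h3
      _ ≤ 2592 * 400000 * M * ℓ ^ 3 := by
          refine Nat.mul_le_mul_right _ (Nat.mul_le_mul_right _ (by norm_num))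
      _ ≤ n := h1.trans h2
  · exact hexp
  · refine lt_of_le_of_lt hGc ?_
    rw [mul_comm 2 ℓ, pow_mul, sq, sq]
    exact Nat.mul_lt_mul'' hpar.hℓ hpar.hℓ
  · intro X hX hXn
    obtain ⟨S, hS, R, hR, hSR, h1, h2, h3⟩ :=
      struct_or_full hexp hGc hpar hΓ (fun x hx => hA x (hX hx)) hXn
    refine ⟨S, hS, R, hR, hSR, h1, h2, ?_⟩
    rcases h3 with h3 | h3
    · exact Or.inl h3
    · exact Or.inr h3.1

end Pool.Agent.Lib.MPa7239a.RG
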