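import Pool.Agent.Lib.MP_a7239a_co.RS.GT
import Pool.Agent.Lib.MP_a7239a_co.RG.MINK
import Pool.Agent.Lib.MP_a7239a_co.RG.FULL3
import Pool.Agent.Lib.MP_a7239a_co.RG.EEZ

/-!
# Groups of order `n ^ 2` and exponent `n`, of every rank

The upper bound of the Gao-Thangadurai conjecture holds for all of them.
-/

set_option autoImplicit false

open Finset

namespace Pool.Agent.Lib.MPa7239a.RG

open Pool.Agent.Lib.MPa7239a.GC hiding cs
open Pool.Agent.Lib.MPa7239a.RS (Par Amj exists_par gt_num)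

open Classical in
/-- three adjacent rows, the middle one nearly full; no condition on the elements of order two -/
theorem three_rows_3 {G : Type*} [AddCommGroup G] [Finite G] {n : ℕ}
    (hG : ∀ x : G, n • x = 0) (H : AddSubgroup G) (e : G) (hH : Nat.card H = n)
    {A : Finset G} (x₀ : G) {E L : ℕ}
    (h₀ : n ≤ #(A.filter (fun x => x - x₀ ∈ H)) + E)
    (h₁ : L ≤ #(A.filter (fun x => x - x₀ - e ∈ H)))
    (h₂ : L ≤ #(A.filter (fun x => x - x₀ + e ∈ H)))
    (he : e ∉ H) (h2e : e + e ∉ H)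
    (hLE : E + 3 ≤ 2 * L) (hLn : 4 * L ≤ n) : Hit A n 0 := by
  obtain ⟨T₁, hT₁, hc₁⟩ := exists_subset_card_eq h₁
  obtain ⟨T₂, hT₂, hc₂⟩ := exists_subset_card_eq h₂
  have m₁ : ∀ x ∈ T₁, x ∈ A ∧ x - x₀ - e ∈ H := fun x hx => mem_filter.1 (hT₁ hx)
  have m₂ : ∀ x ∈ T₂, x ∈ A ∧ x - x₀ + e ∈ H := fun x hx => mem_filter.1 (hT₂ hx)
  have s₁ : ∑ x ∈ T₁, x - L • x₀ - L • e ∈ H := by
    have h : ∑ x ∈ T₁, (x - x₀ - e) ∈ H := H.sum_mem fun x hx => (m₁ x hx).2
    rw [sum_sub_distrib, sum_sub_distrib, sum_const, sum_const, hc₁] at h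
    exact h
  have s₂ : ∑ x ∈ T₂, x - L • x₀ + L • e ∈ H := by
    have h : ∑ x ∈ T₂, (x - x₀ + e) ∈ H := H.sum_mem fun x hx => (m₂ x hx).2
    rw [sum_add_distrib, sum_sub_distrib, sum_const, sum_const, hc₂] at h
    exact h
  set B : Finset G := A.filter (fun x => x - x₀ ∈ H) with hB
  obtain ⟨k, hk⟩ : ∃ k, n = k + 2 * L := ⟨n - 2 * L, by omega⟩
  have hy : -(∑ x ∈ T₁, x + ∑ x ∈ T₂, x) - k • x₀ ∈ H := by
    have h : -(∑ x ∈ T₁, x + ∑ x ∈ T₂, x) - k • x₀ =
        -((∑ x ∈ T₁, x - L • x₀ - L • e) + (∑ x ∈ T₂, x - L • x₀ + L • e)) - n • x₀ := by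
      rw [hk, add_smul, two_mul, add_smul]
      abel
    rw [h, hG x₀, sub_zero]
    exact H.neg_mem (H.add_mem s₁ s₂)
  obtain ⟨T₀, hT₀, hc₀, hs₀⟩ := dense_three H B x₀ (fun x hx => (mem_filter.1 hx).2)
    (k := k) (by omega) (by rw [hH]; omega) hy
  have m₀ : ∀ x ∈ T₀, x ∈ A ∧ x - x₀ ∈ H := fun x hx => mem_filter.1 (hT₀ hx)
  have d₀₁ : Disjoint T₀ T₁ := by
    rw [disjoint_left]
    intro x h0 h1
    apply he
    have : e = (x - x₀) - (x - x₀ - e) := by abel
    rw [this]
    exact H.sub_mem (m₀ x h0).2 (m₁ x h1).2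
  have d₀₂ : Disjoint T₀ T₂ := by
    rw [disjoint_left]
    intro x h0 h1
    apply he
    have : e = (x - x₀ + e) - (x - x₀) := by abel
    rw [this]
    exact H.sub_mem (m₂ x h1).2 (m₀ x h0).2
  have d₁₂ : Disjoint T₁ T₂ := by
    rw [disjoint_left]
    intro x h0 h1
    apply h2e
    have : e + e = (x - x₀ + e) - (x - x₀ - e) := by abel
    rw [this]
    exact H.sub_mem (m₂ x h1).2 (m₁ x h0).2
  have d : Disjoint T₀ (T₁ ∪ T₂) := disjoint_union_right.2 ⟨d₀₁, d₀₂⟩
  refine ⟨T₀ ∪ (T₁ ∪ T₂), ?_, ?_, ?_⟩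
  · intro x hx
    rw [mem_union, mem_union] at hx
    rcases hx with hx | hx | hx
    · exact (m₀ x hx).1
    · exact (m₁ x hx).1
    · exact (m₂ x hx).1
  · rw [card_union_of_disjoint d, card_union_of_disjoint d₁₂, hc₀, hc₁, hc₂]
    omega
  · rw [sum_union d, sum_union d₁₂, hs₀]
    abel

/-- THE UPPER BOUND -/
theorem hit_gt {G : Type*} [AddCommGroup G] [Fintype G] [DecidableEq G] {n : ℕ}
    (hexp : ∀ x : G, n • x = 0) (hGc : Nat.card G = n * n)
    (hn : 10 ^ 40 * (Nat.log 2 n + 1) ^ 12 ≤ n)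
    {A : Finset G}
    (hA : (#{x : G | x + x = 0} ≠ 4 ∧ #A + 1 = 2 * n) ∨ #A = 2 * n + 1) : Hit A n 0 := by
  classical
  by_contra hno
  have hm40 : 10 ^ 40 ≤ n := by
    have h1 : 1 ≤ (Nat.log 2 n + 1) ^ 12 := Nat.one_le_pow _ _ (by omega)
    calc 10 ^ 40 = 10 ^ 40 * 1 := (mul_one _).symm
      _ ≤ 10 ^ 40 * (Nat.log 2 n + 1) ^ 12 := Nat.mul_le_mul_left _ h1
      _ ≤ n := hn
  have hn0 : n ≠ 0 := by
    rintro rfl
    norm_num at hm40
  have : NeZero n := ⟨hn0⟩
  obtain ⟨ℓ, M, Λ, k₀, hpar, hℓ, hL⟩ := exists_par (m := n) (n := n) le_rfl hn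
  obtain ⟨loss, hloss⟩ : ∃ loss, loss = 2592 * M * ℓ ^ 3 := ⟨_, rfl⟩
  rw [← hloss] at hL
  have hloss1 : 1 ≤ loss := by
    rw [hloss]
    exact Nat.mul_pos (Nat.mul_pos (by norm_num) hpar.hM) (Nat.pow_pos (by omega))
  obtain ⟨B, hB, hBc⟩ := exists_subset_card_eq (show n + (n - 3 * loss) ≤ #A by omega)
  have hcardG : Nat.card (⊤ : AddSubgroup G) = n * n := by
    rw [AddSubgroup.card_top, hGc]
  have hGc' : Fintype.card G ≤ n ^ 2 := by
    rw [← Nat.card_eq_fintype_card, hGc, sq]
  obtain ⟨K, H, e, q, S, z, j, o, k, t', Z, u, v, hj1, h⟩ :=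
    exists_amj (τ := n - 3 * loss) hexp hGc' hpar hcardG hloss (A := B) (fun _ _ => AddSubgroup.mem_top _)
      hBc le_rfl (by omega) (by omega) fun hB' => hno (Hit.mono hB hB')
  have hSB := h.sub
  have hSA : S ⊆ A := hSB.trans hB
  -- the rows of `S`
  have hrow : ∀ i : ℤ, ∀ x ∈ S.filter (fun x => z x = i), x - (q + i • e) ∈ H := by
    intro i x hx
    rw [mem_filter] at hx
    have h1 := h.lift x hx.1
    rw [hx.2] at h1
    have h2 : x - (q + i • e) = x - q - i • e := by abel
    rw [h2]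
    exact h1
  obtain ⟨V, hV⟩ := Int.eq_ofNat_of_zero_le (show 0 ≤ v - u by have := h.uv; omega)
  have hR : #(S.filter (fun x => u ≤ z x ∧ z x ≤ v)) ≤ (V + 1) * Nat.card H := by
    have h1 : #(S.filter (fun x => u ≤ z x ∧ z x ≤ v)) ≤ Nat.card H * #(Icc u v) := by
      refine card_le_mul_card_image_of_maps_to (f := z) ?_ _ ?_
      · intro x hx
        rw [mem_filter] at hx
        exact mem_Icc.2 hx.2
      · intro b _
        refine card_le_of_coset H (q + b • e) ?_
        intro x hx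
        rw [mem_filter, mem_filter] at hx
        exact hrow b x (mem_filter.2 ⟨hx.1.1, hx.2⟩)
    rw [Int.card_Icc] at h1
    have h2 : (v + 1 - u).toNat = V + 1 := by omega
    rw [h2, mul_comm] at h1
    exact h1
  obtain ⟨P, hP⟩ : ∃ P, P = #(S.filter (fun x => ¬ (u ≤ z x ∧ z x ≤ v))) := ⟨_, rfl⟩
  obtain ⟨Q, hQ⟩ : ∃ Q, Q = #(S.filter (fun x => ¬ (u - 1 ≤ z x ∧ z x ≤ v + 1))) := ⟨_, rfl⟩
  have hsum : #S = P + #(S.filter (fun x => u ≤ z x ∧ z x ≤ v)) := by
    have := card_filter_add_card_filter_not (s := S) (fun x => u ≤ z x ∧ z x ≤ v)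
    omega
  have hwin : t' * V + (P + Q) + 2 ≤ o := by
    have h1 : (P : ℤ) + Q ≤ ∑ x ∈ S.filter (fun x => v < z x), (z x - v) +
        ∑ x ∈ S.filter (fun x => z x < u), (u - z x) := by
      rw [hP, hQ, card_filter, card_filter, sum_filter, sum_filter, Nat.cast_sum, Nat.cast_sum,
        ← sum_add_distrib, ← sum_add_distrib]
      refine sum_le_sum fun x _ => ?_
      have := h.uv
      split_ifs <;> push_cast <;> omega
    have h2 := h.win
    rw [hV] at h2
    have h3 : ((t' * V + (P + Q) + 2 : ℕ) : ℤ) ≤ o := by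
      push_cast
      linarith
    exact_mod_cast h3
  have hcard : Nat.card H * (o * j) = n * n := by
    have h1 := h.cardH
    have h2 := h.cardK
    rw [← mul_assoc, h1, h2]
  have hSc := h.hloss
  obtain ⟨hon, hj, hcase⟩ := gt_num h.on (by omega) hcard hj1 h.cardS h.kn (loss := loss)
    (by omega) hsum hR hwin (fun hV0 => by
      have h1 : S.filter (fun x => u ≤ z x ∧ z x ≤ v) = S.filter (fun x => z x = u) :=
        filter_congr fun x _ => by omega
      rw [h1]
      exact h.row (q + u • e) _ ((filter_subset _ _).trans hSB) (hrow u))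
  have hHn : Nat.card H = n := by
    rw [hon, hj, mul_one] at hcard
    exact Nat.eq_of_mul_eq_mul_right (by omega) hcard
  have hKtop : K = ⊤ := by
    have h1 := h.cardK
    rw [hj, mul_one] at h1
    exact AddSubgroup.eq_top_of_card_eq K (by rw [h1, hGc])
  have hord : ∀ a : ℤ, a • e ∈ H ↔ (n : ℤ) ∣ a := by
    intro a
    rw [← QuotientAddGroup.eq_zero_iff, QuotientAddGroup.mk_zsmul,
      ← addOrderOf_dvd_iff_zsmul_eq_zero, h.order, hon]
  have hgen : ∀ x : G, ∃ a : ℤ, x - a • e ∈ H := fun x =>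
    h.gen x (by rw [hKtop]; exact AddSubgroup.mem_top _)
  have hA' : ((∀ F : Finset G, (∀ x, x ∈ F ↔ x ∈ H) → ∑ x ∈ F, x = 0) ∧ #A + 1 = 2 * n) ∨
      #A = 2 * n + 1 := by
    rcases hA with ⟨h4, hA⟩ | hA
    · left
      refine ⟨fun F hF => sum_subgroup_eq_zero hF fun h2 => ?_, hA⟩
      rcases Nat.even_or_odd n with ⟨r, hr⟩ | ⟨r, hr⟩
      · apply h4
        have h5 := card_two hr (by omega) hexp hord hgen hF
        rw [h5, h2]
      · have h5 : F.filter (fun x => x + x = 0) ⊆ {0} := by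
          intro x hx
          rw [mem_filter] at hx
          rw [mem_singleton]
          have h6 := hexp x
          rw [hr, add_smul, mul_comm, mul_smul, two_smul, hx.2, smul_zero, zero_add,
            one_smul] at h6
          exact h6
        have h6 := card_le_card h5
        rw [h2, card_singleton] at h6
        omega
    · exact Or.inr hA
  have hrle : ∀ i : ℤ, #(S.filter (fun x => z x = i)) ≤ n := fun i =>
    (card_le_of_coset H _ (hrow i)).trans (le_of_eq hHn)
  -- rows of `A`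
  have hA0 : ∀ i : ℤ, #(S.filter (fun x => z x = i)) ≤
      #(A.filter (fun x => x - (q + i • e) ∈ H)) := fun i =>
    card_le_card fun x hx => mem_filter.2 ⟨hSA (mem_filter.1 hx).1, hrow i x hx⟩
  have hA1 : ∀ i : ℤ, #(S.filter (fun x => z x = i + 1)) ≤
      #(A.filter (fun x => x - (q + i • e) - e ∈ H)) := fun i =>
    card_le_card fun x hx => mem_filter.2 ⟨hSA (mem_filter.1 hx).1, by
      have h1 := hrow (i + 1) x hx
      have h2 : x - (q + i • e) - e = x - (q + (i + 1) • e) := by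
        rw [add_smul, one_smul]
        abel
      rw [h2]
      exact h1⟩
  have hA2 : ∀ i : ℤ, #(S.filter (fun x => z x = i - 1)) ≤
      #(A.filter (fun x => x - (q + i • e) + e ∈ H)) := fun i =>
    card_le_card fun x hx => mem_filter.2 ⟨hSA (mem_filter.1 hx).1, by
      have h1 := hrow (i - 1) x hx
      have h2 : x - (q + i • e) + e = x - (q + (i - 1) • e) := by
        rw [sub_smul, one_smul]
        abel
      rw [h2]
      exact h1⟩
  apply hno
  rcases hcase with hV0 | ⟨hV1, hP4⟩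
  · -- one main row
    have hvu : v = u := by omega
    have h1 : S.filter (fun x => u ≤ z x ∧ z x ≤ v) = S.filter (fun x => z x = u) :=
      filter_congr fun x _ => by omega
    rw [h1] at hsum
    have h3 : P ≤ #(S.filter (fun x => z x = u + 1)) + #(S.filter (fun x => z x = u - 1)) + Q := by
      rw [hP, hQ]
      have h4 : S.filter (fun x => ¬ (u ≤ z x ∧ z x ≤ v)) ⊆
          (S.filter (fun x => z x = u + 1) ∪ S.filter (fun x => z x = u - 1)) ∪
            S.filter (fun x => ¬ (u - 1 ≤ z x ∧ z x ≤ v + 1)) := by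
        intro x hx
        simp only [mem_union, mem_filter] at hx ⊢
        rcases eq_or_ne (z x) (u + 1) with h5 | h5
        · exact Or.inl (Or.inl ⟨hx.1, h5⟩)
        · rcases eq_or_ne (z x) (u - 1) with h6 | h6
          · exact Or.inl (Or.inr ⟨hx.1, h6⟩)
          · exact Or.inr ⟨hx.1, by omega⟩
      exact (card_le_card h4).trans ((card_union_le _ _).trans
        (Nat.add_le_add_right (card_union_le _ _) _))
    have hr := hrle u
    have hr1 := hrle (u + 1)
    have hr2 := hrle (u - 1)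
    rw [hV0, mul_zero, zero_add, hon] at hwin
    have hS2 : 2 * n ≤ #S + 4 * loss := by omega
    rcases Nat.lt_or_ge (#(S.filter (fun x => z x = u + 1))) (2 * loss + 2) with h₁ | h₁
    · refine two_rows_z (by omega) hexp H e hHn hord hgen hA' (q + (u - 1) • e)
        (E := 16 * loss + 10) ?_ ?_ (by omega)
      · have := hA0 (u - 1)
        omega
      · have := hA1 (u - 1)
        rw [sub_add_cancel] at this
        omega
    · rcases Nat.lt_or_ge (#(S.filter (fun x => z x = u - 1))) (2 * loss + 2) with h₂ | h₂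
      · refine two_rows_z (by omega) hexp H e hHn hord hgen hA' (q + u • e)
          (E := 16 * loss + 10) ?_ ?_ (by omega)
        · have := hA0 u
          omega
        · have := hA1 u
          omega
      · refine three_rows_3 hexp H e hHn (q + u • e)
          (E := 4 * loss) (L := 2 * loss + 2) ?_ ?_ ?_ ?_ ?_ (by omega) (by omega)
        · have := hA0 u
          omega
        · have := hA1 u
          omega
        · have := hA2 u
          omega
        · intro he
          have h5 := (hord 1).1 (by rw [one_smul]; exact he)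
          have h6 := Int.le_of_dvd one_pos h5
          omega
        · intro he
          have h5 := (hord 2).1 (by rw [two_smul]; exact he)
          have h6 := Int.le_of_dvd two_pos h5
          omega
  · -- two main rows
    have hvu : v = u + 1 := by omega
    have h3 : #(S.filter (fun x => u ≤ z x ∧ z x ≤ v)) ≤
        #(S.filter (fun x => z x = u)) + #(S.filter (fun x => z x = u + 1)) := by
      refine le_trans (card_le_card ?_) (card_union_le _ _)
      intro x hx
      simp only [mem_union, mem_filter] at hx ⊢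
      rcases eq_or_ne (z x) u with h5 | h5
      · exact Or.inl ⟨hx.1, h5⟩
      · exact Or.inr ⟨hx.1, by omega⟩
    have hr := hrle u
    have hr1 := hrle (u + 1)
    refine two_rows_z (by omega) hexp H e hHn hord hgen hA' (q + u • e)
      (E := 16 * loss + 10) ?_ ?_ (by omega)
    · have := hA0 u
      omega
    · have := hA1 u
      omega

end Pool.Agent.Lib.MPa7239a.RG
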