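import Pool.Agent.Lib.MP_a7239a_co.RG.GT
import Pool.Agent.Lib.MP_a7239a_co.RG.CYCG

/-!
# Groups of order `n ^ 2` and exponent `n`: the value
-/

set_option autoImplicit false

open Finset

namespace Pool.Agent.Lib.MPa7239a.RG

open Pool.Agent.Lib.MPa7239a.GC hiding cs

section

variable {G : Type*} [AddCommGroup G] [Fintype G] [DecidableEq G] {n : ℕ}

omit [Fintype G] [DecidableEq G] in
/-- the kernel of a surjection on `ZMod n` and a generator of the quotient -/
theorem ker_gen [NeZero n] {φ : G →+ ZMod n}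
    (hφ : Function.Surjective φ) : ∃ e : G, φ e = 1 ∧ (∀ a : ℤ, a • e ∈ φ.ker ↔ (n : ℤ) ∣ a) ∧
      ∀ x : G, ∃ a : ℤ, x - a • e ∈ φ.ker := by
  obtain ⟨e, he⟩ := hφ 1
  refine ⟨e, he, fun a => ?_, fun x => ⟨(φ x).val, ?_⟩⟩
  · rw [AddMonoidHom.mem_ker, map_zsmul, he, zsmul_one, ZMod.intCast_zmod_eq_zero_iff_dvd]
  · rw [AddMonoidHom.mem_ker, map_sub, map_zsmul, he, zsmul_one, Int.cast_natCast,
      ZMod.natCast_zmod_val, sub_self]

/-- the sum of the kernel is not `0` if `x + x = 0` has exactly four solutions -/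
theorem sum_ker_ne [NeZero n] (hexp : ∀ x : G, n • x = 0) {φ : G →+ ZMod n}
    (hφ : Function.Surjective φ) (h4 : #{x : G | x + x = 0} = 4) :
    Even n ∧ ∑ x ∈ univ.filter (fun x => φ x = 0), x ≠ 0 := by
  obtain ⟨e, -, hord, hgen⟩ := ker_gen hφ
  rcases Nat.even_or_odd n with ⟨r, hr⟩ | ⟨r, hr⟩
  · refine ⟨⟨r, hr⟩, ?_⟩
    have hF : ∀ x, x ∈ univ.filter (fun x => φ x = 0) ↔ x ∈ φ.ker := by
      intro x
      rw [mem_filter, AddMonoidHom.mem_ker]
      exact ⟨fun h => h.2, fun h => ⟨mem_univ _, h⟩⟩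
    have h5 := card_two hr (by have := NeZero.ne n; omega) hexp hord hgen hF
    refine sum_ne_zero_of ((hF 0).2 (φ.ker).zero_mem)
      (fun x hx => (hF _).2 ((φ.ker).neg_mem ((hF x).1 hx))) (by omega)
  · exfalso
    have h5 : univ.filter (fun x : G => x + x = 0) ⊆ {0} := by
      intro x hx
      rw [mem_filter] at hx
      rw [mem_singleton]
      have h6 := hexp x
      rw [hr, add_smul, mul_comm, mul_smul, two_smul, hx.2, smul_zero, zero_add,
        one_smul] at h6
      exact h6
    have h6 := card_le_card h5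
    rw [h4, card_singleton] at h6
    omega

omit [Fintype G] [DecidableEq G] in
/-- sets with two rows -/
theorem two_row_sum [NeZero n] {φ : G →+ ZMod n} {T : Finset G}
    (hT : ∀ x ∈ T, φ x = 0 ∨ φ x = 1) (hTc : #T = n) (h0 : ∑ x ∈ T, x = 0) :
    (∀ x ∈ T, φ x = 0) ∨ ∀ x ∈ T, φ x = 1 := by
  have h1 : φ (∑ x ∈ T, x) = #(T.filter (fun x => φ x = 1)) := by
    rw [map_sum, card_filter, Nat.cast_sum]
    refine sum_congr rfl fun x hx => ?_
    rcases hT x hx with h | h
    · by_cases h2 : φ x = 1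
      · rw [if_pos h2, h2, Nat.cast_one]
      · rw [if_neg h2, h, Nat.cast_zero]
    · rw [if_pos h, h, Nat.cast_one]
  rw [h0, map_zero] at h1
  have h2 := (ZMod.natCast_eq_zero_iff _ _).1 h1.symm
  have h3 := card_filter_le T (fun x => φ x = 1)
  obtain ⟨c, hc⟩ := h2
  have hn := NeZero.pos n
  have hc2 : c < 2 := by
    by_contra h
    push Not at h
    have h4 : n * 2 ≤ n * c := Nat.mul_le_mul_left n h
    omega
  rcases Nat.eq_zero_or_pos c with h | h
  · left
    intro x hx
    rcases hT x hx with h4 | h4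
    · exact h4
    · exfalso
      rw [h, mul_zero, card_eq_zero, filter_eq_empty_iff] at hc
      exact hc hx h4
  · right
    have h4 : #(T.filter (fun x => φ x = 1)) = #T := by
      obtain rfl : c = 1 := by omega
      rw [hc, mul_one, hTc]
    intro x hx
    have h5 : T.filter (fun x => φ x = 1) = T := eq_of_subset_of_card_le (filter_subset _ _) h4.ge
    rw [← h5, mem_filter] at hx
    exact hx.2

/-- the lower bound -/
theorem exists_free_sq (hexp : AddMonoid.exponent G = n) (hG : Nat.card G = n * n) (hn : 2 ≤ n) :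
    ∃ A : Finset G, #A = (if #{x : G | x + x = 0} = 4 then 2 * n else 2 * n - 2) ∧
      ¬ Hit A n 0 := by
  have : NeZero n := ⟨by omega⟩
  have hexp' : ∀ x : G, n • x = 0 := fun x => by
    rw [← hexp]
    exact AddMonoid.exponent_nsmul_eq_zero x
  obtain ⟨φ, hφ⟩ := exists_phi hexp
  have hfib : ∀ c : ZMod n, #{x : G | φ x = c} = n := by
    intro c
    have h1 := card_fib hφ c
    rw [hG] at h1
    exact Nat.eq_of_mul_eq_mul_left (by omega) h1
  set F₀ := univ.filter (fun x : G => φ x = 0) with hF₀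
  set F₁ := univ.filter (fun x : G => φ x = 1) with hF₁
  have m₀ : ∀ x, x ∈ F₀ ↔ φ x = 0 := fun x => by rw [hF₀, mem_filter]; simp
  have m₁ : ∀ x, x ∈ F₁ ↔ φ x = 1 := fun x => by rw [hF₁, mem_filter]; simp
  have h01 : (0 : ZMod n) ≠ 1 := by
    have : Fact (1 < n) := ⟨by omega⟩
    exact zero_ne_one
  have hd : Disjoint F₀ F₁ := by
    rw [disjoint_left]
    intro x hx hx'
    rw [m₀] at hx
    rw [m₁, hx] at hx'
    exact h01 hx'
  have c₀ : #F₀ = n := hfib 0
  have c₁ : #F₁ = n := hfib 1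
  split_ifs with h4
  · obtain ⟨hev, hne⟩ := sum_ker_ne hexp' hφ h4
    refine ⟨F₀ ∪ F₁, by rw [card_union_of_disjoint hd, c₀, c₁, two_mul], ?_⟩
    rintro ⟨T, hT, hTc, hTs⟩
    rcases two_row_sum (φ := φ) (fun x hx => by
      rcases mem_union.1 (hT hx) with h | h
      · exact Or.inl ((m₀ x).1 h)
      · exact Or.inr ((m₁ x).1 h)) hTc hTs with h | h
    · have h5 : T = F₀ := eq_of_subset_of_card_le (fun x hx => (m₀ x).2 (h x hx))
        (by rw [hTc, c₀])
      rw [h5] at hTs
      exact hne hTs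
    · have h5 : T = F₁ := eq_of_subset_of_card_le (fun x hx => (m₁ x).2 (h x hx))
        (by rw [hTc, c₁])
      obtain ⟨e, he⟩ := hφ 1
      have h6 : F₁ = F₀.image (fun x => x + e) := by
        ext x
        rw [m₁, mem_image]
        constructor
        · intro hx
          exact ⟨x - e, (m₀ _).2 (by rw [map_sub, hx, he, sub_self]), sub_add_cancel _ _⟩
        · rintro ⟨y, hy, rfl⟩
          rw [map_add, (m₀ y).1 hy, he, zero_add]
      rw [h5, h6, sum_image (fun a _ b _ hab => add_left_injective _ hab), sum_add_distrib,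
        sum_const, c₀, hexp', add_zero] at hTs
      exact hne hTs
  · obtain ⟨a, ha⟩ : F₀.Nonempty := by
      rw [← card_pos, c₀]
      omega
    obtain ⟨b, hb⟩ : F₁.Nonempty := by
      rw [← card_pos, c₁]
      omega
    have hd' : Disjoint (F₀.erase a) (F₁.erase b) :=
      disjoint_of_subset_left (erase_subset _ _) (disjoint_of_subset_right (erase_subset _ _) hd)
    refine ⟨F₀.erase a ∪ F₁.erase b, ?_, ?_⟩
    · rw [card_union_of_disjoint hd', card_erase_of_mem ha, card_erase_of_mem hb, c₀, c₁]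
      omega
    rintro ⟨T, hT, hTc, hTs⟩
    rcases two_row_sum (φ := φ) (fun x hx => by
      rcases mem_union.1 (hT hx) with h | h
      · exact Or.inl ((m₀ x).1 (mem_of_mem_erase h))
      · exact Or.inr ((m₁ x).1 (mem_of_mem_erase h))) hTc hTs with h | h
    · have h5 : T ⊆ F₀.erase a := by
        intro x hx
        rcases mem_union.1 (hT hx) with h6 | h6
        · exact h6
        · exact absurd ((h x hx).symm.trans ((m₁ x).1 (mem_of_mem_erase h6))) h01
      have h6 := card_le_card h5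
      rw [card_erase_of_mem ha, c₀, hTc] at h6
      omega
    · have h5 : T ⊆ F₁.erase b := by
        intro x hx
        rcases mem_union.1 (hT hx) with h6 | h6
        · exact absurd (((m₀ x).1 (mem_of_mem_erase h6)).symm.trans (h x hx)) h01
        · exact h6
      have h6 := card_le_card h5
      rw [card_erase_of_mem hb, c₁, hTc] at h6
      omega

/-- the upper bound -/
theorem card_le_sq (hexp : AddMonoid.exponent G = n) (hG : Nat.card G = n * n)
    (hn : 10 ^ 40 * (Nat.log 2 n + 1) ^ 12 ≤ n)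
    {A : Finset G} (hA : ¬ Hit A n 0) :
    #A ≤ if #{x : G | x + x = 0} = 4 then 2 * n else 2 * n - 2 := by
  have hexp' : ∀ x : G, n • x = 0 := fun x => by
    rw [← hexp]
    exact AddMonoid.exponent_nsmul_eq_zero x
  by_contra hlt
  push Not at hlt
  split_ifs at hlt with h4
  · obtain ⟨B, hB, hBc⟩ := exists_subset_card_eq (show 2 * n + 1 ≤ #A by omega)
    exact hA (Hit.mono hB (hit_gt hexp' hG hn (Or.inr hBc)))
  · obtain ⟨B, hB, hBc⟩ := exists_subset_card_eq (show 2 * n - 1 ≤ #A by omega)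
    have hn1 : 1 ≤ n := by
      have h1 : 1 ≤ (Nat.log 2 n + 1) ^ 12 := Nat.one_le_pow _ _ (by omega)
      refine le_trans ?_ hn
      calc 1 = 1 * 1 := rfl
        _ ≤ _ := Nat.mul_le_mul (by norm_num) h1
    exact hA (Hit.mono hB (hit_gt hexp' hG hn (Or.inl ⟨h4, by omega⟩)))

end

end Pool.Agent.Lib.MPa7239a.RG
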