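import Pool.Agent.Lib.MP_a7239a_co.RG.MINK
import Pool.Agent.Lib.MP_a7239a_co.RS.J2

/-!
# The input of the end game: the structure of the whole set
-/

open Finset

namespace Pool.Agent.Lib.MPa7239a.RG

open Pool.Agent.Lib.MPa7239a.GC hiding cs
open Pool.Agent.Lib.MPa7239a.RS (Df Par Amj index_one_gen)

/-- **the structure of a set without zero-sum subsets of `n` elements** -/
theorem input' {G : Type*} [AddCommGroup G] [Fintype G] [DecidableEq G]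
    {m n ℓ M Λ k₀ c τ loss : ℕ} [NeZero n] (hexp : ∀ x : G, n • x = 0)
    (hGc : Fintype.card G ≤ n ^ 2) (hpar : Par m n ℓ M Λ k₀)
    {Γ : AddSubgroup G} (hΓ : Nat.card Γ = m * n)
    (hloss : loss = 2592 * M * ℓ ^ 3) {A : Finset G} (hA : ∀ x ∈ A, x ∈ Γ)
    (hc : #A = n + c) (hτ : τ ≤ c) (hτ₁ : 100 * m ≤ 101 * τ) (hmc : m ≤ c)
    (hmc' : m + 1 ≤ c ∨ n < 3 * m ∨ 2 * (n + m) ≤ m * m) (hdvd : m ∣ n)
    (hcn : c + 3 * loss ≤ n) (hno : ¬ Hit A n 0) :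
    ∃ (H : AddSubgroup G) (e q : G)
      (S : Finset G) (z : G → ℤ) (o k t' Z : ℕ) (u v : ℤ),
      Amj Γ Γ H e q A S z m n c 1 o τ loss k t' Z u v := by
  have hM := hpar.hM
  have hℓ := hpar.hℓ
  have hM₂ := hpar.hM₂
  have hℓ1 : 1 ≤ ℓ := by
    rcases Nat.eq_zero_or_pos ℓ with h | h
    · rw [h, pow_zero] at hℓ
      have := Nat.pos_of_ne_zero (NeZero.ne n)
      omega
    · exact h
  have h1 : 1 ≤ M * ℓ ^ 3 := Nat.one_le_iff_ne_zero.2 (by positivity)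
  have hl : 400000 * loss ≤ m := by
    rw [hloss]
    nlinarith
  have hm : 1000 ≤ m := by nlinarith
  obtain ⟨K, H, e, q, S, z, j, o, k, t', Z, u, v, hj, h⟩ :=
    exists_amj hexp hGc hpar hΓ hloss hA hc hτ (by omega) hcn hno
  have hj1 : j = 1 := index_one_gen hexp (Nat.pos_of_ne_zero (NeZero.ne n)) h hj hτ₁ (by omega) hm hmc hmc' hdvd hno
  subst hj1
  have hK : K = Γ := by
    have h2 : Nat.card K = Nat.card Γ := by
      have := h.cardK
      rw [hΓ, ← this, mul_one]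
    exact AddSubgroup.eq_of_le_of_card_ge h.KΓ h2.ge
  subst hK
  exact ⟨H, e, q, S, z, o, k, t', Z, u, v, h⟩

/-- the structure of a set without zero-sum subsets of `n` elements, `m + 1 ≤ c` if `3 m ≤ n` -/
theorem input {G : Type*} [AddCommGroup G] [Fintype G] [DecidableEq G]
    {m n ℓ M Λ k₀ c τ loss : ℕ} [NeZero n] (hexp : ∀ x : G, n • x = 0)
    (hGc : Fintype.card G ≤ n ^ 2) (hpar : Par m n ℓ M Λ k₀)
    {Γ : AddSubgroup G} (hΓ : Nat.card Γ = m * n)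
    (hloss : loss = 2592 * M * ℓ ^ 3) {A : Finset G} (hA : ∀ x ∈ A, x ∈ Γ)
    (hc : #A = n + c) (hτ : τ ≤ c) (hτ₁ : 100 * m ≤ 101 * τ) (hmc : m ≤ c)
    (hmc' : 3 * m ≤ n → m + 1 ≤ c) (_hmn : 2 * m ≤ n) (hdvd : m ∣ n) (hcn : c + 3 * loss ≤ n)
    (hno : ¬ Hit A n 0) :
    ∃ (H : AddSubgroup G) (e q : G)
      (S : Finset G) (z : G → ℤ) (o k t' Z : ℕ) (u v : ℤ),
      Amj Γ Γ H e q A S z m n c 1 o τ loss k t' Z u v := by
  refine input' hexp hGc hpar hΓ hloss hA hc hτ hτ₁ hmc ?_ hdvd hcn hno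
  rcases Nat.lt_or_ge n (3 * m) with h | h
  · exact Or.inr (Or.inl h)
  · exact Or.inl (hmc' h)

end Pool.Agent.Lib.MPa7239a.RG
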