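import Pool.Agent.Lib.MP_a7239a_co.RG.Defs
import Pool.Agent.Lib.MP_a7239a_co.RG.CYCG
import Pool.Agent.Lib.MP_a7239a_co.RK.LOW

/-!
# Lower bounds for a group of exponent `n = t * m` and order `m * n` with at most four solutions of
`x + x = 0`
-/

set_option autoImplicit false

open Finset

namespace Pool.Agent.Lib.MPa7239a.RG

open Pool.Agent.Lib.MPa7239a.GC
open Pool.Agent.Lib.MPa7239a.RK

namespace LowgM

variable {G : Type*} [AddCommGroup G] [Fintype G] [DecidableEq G]

omit [Fintype G] in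
/-- a subgroup with exactly one element of order two has nonzero sum -/
theorem sum_ne_zero_of {H : Finset G} (hneg : ∀ x ∈ H, -x ∈ H) {z : G} (hz : z ∈ H) (hz0 : z ≠ 0)
    (hzz : z + z = 0) (huniq : ∀ x ∈ H, x + x = 0 → x = 0 ∨ x = z) : ∑ x ∈ H, x ≠ 0 := by
  rw [← add_sum_erase H (fun x => x) hz]
  have h1 : ∑ x ∈ H.erase z, x = 0 := by
    refine sum_involution (fun x _ => -x) ?_ ?_ ?_ ?_
    · intro x _
      exact add_neg_cancel x
    · intro x hx hx0 h
      have h2 : x + x = 0 := by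
        nth_rw 1 [← h]
        exact neg_add_cancel x
      rcases huniq x (mem_of_mem_erase hx) h2 with h3 | h3
      · exact hx0 h3
      · exact ne_of_mem_erase hx h3
    · intro x hx
      rw [mem_erase] at hx ⊢
      refine ⟨fun h => hx.1 ?_, hneg x hx.2⟩
      have h2 : x = -z := by rw [← h, neg_neg]
      rw [h2]
      exact neg_eq_of_add_eq_zero_left hzz
    · intro x _
      exact neg_neg x
  rw [h1, add_zero]
  exact hz0

/-- the two-element subgroup: at most four solutions of `x + x = 0`, one of them outside `H` -/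
theorem uniq_of {H : AddSubgroup G} (hw : #{x : G | x + x = 0} ≤ 4) {y : G} (hy : y + y = 0)
    (hyH : y ∉ H) {z : G} (hz : z ∈ H) (hz0 : z ≠ 0) (hzz : z + z = 0) :
    ∀ x ∈ H, x + x = 0 → x = 0 ∨ x = z := by
  intro x hx hxx
  by_contra hcon
  push Not at hcon
  -- six solutions
  have h1 : ({0, z, x} : Finset G) ∪ ({y, y + z, y + x} : Finset G) ⊆
      univ.filter (fun x : G => x + x = 0) := by
    intro a ha
    rw [mem_filter]
    refine ⟨mem_univ _, ?_⟩
    simp only [mem_union, mem_insert, mem_singleton] at ha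
    rcases ha with (h | h | h) | (h | h | h) <;> rw [h]
    · exact add_zero 0
    · exact hzz
    · exact hxx
    · exact hy
    · rw [add_add_add_comm, hy, hzz, add_zero]
    · rw [add_add_add_comm, hy, hxx, add_zero]
  have h2 : Disjoint ({0, z, x} : Finset G) ({y, y + z, y + x} : Finset G) := by
    rw [disjoint_left]
    intro a ha ha'
    have h3 : a ∈ H := by
      simp only [mem_insert, mem_singleton] at ha
      rcases ha with h | h | h <;> rw [h]
      · exact H.zero_mem
      · exact hz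
      · exact hx
    simp only [mem_insert, mem_singleton] at ha'
    rcases ha' with h | h | h
    · exact hyH (h ▸ h3)
    · apply hyH
      have h4 := H.sub_mem h3 hz
      rw [h, add_sub_cancel_right] at h4
      exact h4
    · apply hyH
      have h4 := H.sub_mem h3 hx
      rw [h, add_sub_cancel_right] at h4
      exact h4
  have h3 : #({0, z, x} : Finset G) = 3 := by
    rw [card_eq_three]
    exact ⟨0, z, x, hz0.symm, fun h => hcon.1 h.symm, fun h => hcon.2 h.symm, rfl⟩
  have h4 : #({y, y + z, y + x} : Finset G) = 3 := by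
    rw [card_eq_three]
    refine ⟨y, y + z, y + x, ?_, ?_, ?_, rfl⟩
    · intro h
      exact hz0 (left_eq_add.1 h)
    · intro h
      exact hcon.1 (left_eq_add.1 h)
    · intro h
      exact hcon.2 (add_left_cancel h).symm
  have h5 := card_le_card h1
  rw [card_union_of_disjoint h2, h3, h4] at h5
  omega

omit [Fintype G] [DecidableEq G] in
/-- an element of order two in a subgroup of even order -/
theorem exists_two [Finite G] (H : AddSubgroup G) (h : Even (Nat.card H)) :
    ∃ z ∈ H, z ≠ 0 ∧ z + z = 0 := by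
  have : Fact (Nat.Prime 2) := ⟨Nat.prime_two⟩
  obtain ⟨z, hz⟩ := exists_prime_addOrderOf_dvd_card' (G := H) 2 h.two_dvd
  refine ⟨z, z.2, ?_, ?_⟩
  · intro h0
    have h1 : z = 0 := Subtype.ext h0
    rw [h1, addOrderOf_zero] at hz
    omega
  · have h1 : (2 : ℕ) • z = 0 := by
      rw [← hz]
      exact addOrderOf_nsmul_eq_zero z
    rw [two_smul] at h1
    exact congrArg Subtype.val h1

omit [Fintype G] [DecidableEq G] in
theorem eq_zero_of_odd [Finite G] (H : AddSubgroup G) (h : ¬ Even (Nat.card H)) {x : G}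
    (hx : x ∈ H) (hxx : x + x = 0) : x = 0 := by
  have h1 : addOrderOf (⟨x, hx⟩ : H) ∣ 2 := by
    apply addOrderOf_dvd_of_nsmul_eq_zero
    rw [two_smul]
    exact Subtype.ext hxx
  have h2 : addOrderOf (⟨x, hx⟩ : H) ∣ Nat.card H := addOrderOf_dvd_natCard _
  have h3 : Nat.Coprime 2 (Nat.card H) := by
    rw [Nat.coprime_two_left, ← Nat.not_even_iff_odd]
    exact h
  have h4 : addOrderOf (⟨x, hx⟩ : H) = 1 := Nat.eq_one_of_dvd_coprimes h3 h1 h2
  rw [AddMonoid.addOrderOf_eq_one_iff] at h4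
  exact congrArg Subtype.val h4

theorem two_val {n : ℕ} [NeZero n] {a : ZMod n} (ha : a + a = 0) (ha0 : a ≠ 0) :
    a.val + a.val = n := by
  have h1 : 0 < a.val := by
    rcases Nat.eq_zero_or_pos a.val with h | h
    · exact absurd ((ZMod.val_eq_zero a).1 h) ha0
    · exact h
  have h2 := ZMod.val_lt a
  have h3 : ((a.val + a.val : ℕ) : ZMod n) = 0 := by
    rw [Nat.cast_add, ZMod.natCast_zmod_val, ha]
  rw [ZMod.natCast_eq_zero_iff] at h3
  obtain ⟨k, hk⟩ := h3
  have h4 : k < 2 := by
    by_contra h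
    push Not at h
    have : n * 2 ≤ n * k := Nat.mul_le_mul_left _ h
    omega
  have h5 : k ≠ 0 := by
    rintro rfl
    omega
  obtain rfl : k = 1 := by omega
  omega

omit [Fintype G] [DecidableEq G] in
/-- the section `ZMod n → G` of `φ` -/
theorem exists_section {n : ℕ} (hG : ∀ x : G, n • x = 0) {φ : G →+ ZMod n}
    (hφ : Function.Surjective φ) : ∃ γ : ZMod n →+ G, ∀ a, φ (γ a) = a := by
  obtain ⟨g, hg⟩ := hφ 1
  have hn : (zmultiplesHom G g) (n : ℤ) = 0 := by
    rw [zmultiplesHom_apply, natCast_zsmul, hG]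
  refine ⟨ZMod.lift n ⟨zmultiplesHom G g, hn⟩, fun a => ?_⟩
  obtain ⟨k, rfl⟩ := ZMod.intCast_surjective a
  rw [ZMod.lift_coe]
  change φ (k • g) = _
  rw [map_zsmul, hg, zsmul_one]

/-- a homomorphism onto `ZMod m` whose kernel has a nonzero sum -/
theorem exists_good {n m t : ℕ} [NeZero n] [NeZero m] (hn : AddMonoid.exponent G = n)
    (hnt : n = t * m) (hcard : Nat.card G = m * n) (hev : Even n)
    (hw : #{x : G | x + x = 0} ≤ 4) :
    ∃ φ : G →+ ZMod m, Function.Surjective φ ∧ ∑ x ∈ univ.filter (fun x => φ x = 0), x ≠ 0 := by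
  have hG : ∀ x : G, n • x = 0 := fun x => by
    rw [← hn]
    exact AddMonoid.exponent_nsmul_eq_zero x
  have hm0 : m ≠ 0 := NeZero.ne m
  have hn0 : n ≠ 0 := NeZero.ne n
  obtain ⟨φ₀, hφ₀⟩ := exists_phi hn
  obtain ⟨γ, hγ⟩ := exists_section hG hφ₀
  have hdvd : m ∣ n := hnt ▸ Dvd.intro_left t rfl
  set r : ZMod n →+ ZMod m := (ZMod.castHom hdvd (ZMod m)).toAddMonoidHom with hr
  have hrs : Function.Surjective r := ZMod.castHom_surjective hdvd
  have hK : Nat.card φ₀.ker = m := card_ker hφ₀ hcard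
  -- the kernel of a surjection onto `ZMod m`
  have hker : ∀ φ : G →+ ZMod m, Function.Surjective φ → Nat.card φ.ker = n := fun φ hφ =>
    card_ker hφ (by rw [hcard, mul_comm])
  have key : ∀ φ : G →+ ZMod m, Function.Surjective φ →
      (∀ z ∈ φ.ker, z ≠ 0 → z + z = 0 → ∀ x ∈ φ.ker, x + x = 0 → x = 0 ∨ x = z) →
      ∑ x ∈ univ.filter (fun x => φ x = 0), x ≠ 0 := by
    intro φ hφ huniq
    obtain ⟨z, hz, hz0, hzz⟩ := exists_two φ.ker (by rw [hker φ hφ]; exact hev)
    refine sum_ne_zero_of ?_ (z := z) ?_ hz0 hzz ?_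
    · intro x hx
      rw [mem_filter] at hx ⊢
      exact ⟨mem_univ _, by rw [map_neg, hx.2, neg_zero]⟩
    · exact mem_filter.2 ⟨mem_univ _, hz⟩
    · intro x hx hxx
      exact huniq z hz hz0 hzz x (mem_filter.1 hx).2 hxx
  rcases Nat.even_or_odd m with hme | hmo
  · -- `m` even
    obtain ⟨z, hz, hz0, hzz⟩ := exists_two φ₀.ker (by rw [hK]; exact hme)
    obtain ⟨χ, hχ⟩ := exists_apply_ne_zero (G := φ₀.ker) hm0 (fun x => by
      rw [← hK]
      exact card_nsmul_eq_zero') (x := ⟨z, hz⟩) (fun h => hz0 (congrArg Subtype.val h))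
    set p : G →+ φ₀.ker := ((AddMonoidHom.id G) - γ.comp φ₀).codRestrict φ₀.ker (fun x => by
      rw [AddMonoidHom.mem_ker]
      simp [hγ]) with hp
    have hpz : p z = ⟨z, hz⟩ := by
      apply Subtype.ext
      have h1 : φ₀ z = 0 := hz
      simp [hp, h1]
    have hpγ : ∀ a, p (γ a) = 0 := by
      intro a
      apply Subtype.ext
      simp [hp, hγ]
    refine ⟨χ.comp p + r.comp φ₀, ?_, key _ ?_ ?_⟩
    · intro c
      obtain ⟨a, ha⟩ := hrs c
      refine ⟨γ a, ?_⟩
      rw [AddMonoidHom.add_apply, AddMonoidHom.comp_apply, AddMonoidHom.comp_apply, hpγ, map_zero,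
        zero_add, hγ, ha]
    · intro c
      obtain ⟨a, ha⟩ := hrs c
      refine ⟨γ a, ?_⟩
      rw [AddMonoidHom.add_apply, AddMonoidHom.comp_apply, AddMonoidHom.comp_apply, hpγ, map_zero,
        zero_add, hγ, ha]
    · intro u hu hu0 huu
      refine uniq_of hw (y := z) hzz ?_ hu hu0 huu
      rw [AddMonoidHom.mem_ker, AddMonoidHom.add_apply, AddMonoidHom.comp_apply,
        AddMonoidHom.comp_apply, hpz]
      have h1 : φ₀ z = 0 := hz
      rw [h1, map_zero, add_zero]
      exact hχ
  · -- `m` odd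
    refine ⟨r.comp φ₀, hrs.comp hφ₀, key _ (hrs.comp hφ₀) ?_⟩
    intro u _ hu0 huu x _ hxx
    rw [or_iff_not_imp_left]
    intro hx0
    have hodd : ¬ Even (Nat.card φ₀.ker) := by
      rw [hK, Nat.not_even_iff_odd]
      exact hmo
    have h1 : ∀ y : G, y ≠ 0 → y + y = 0 → (φ₀ y).val + (φ₀ y).val = n := by
      intro y hy0 hyy
      refine two_val (by rw [← map_add, hyy, map_zero]) fun h => hy0 ?_
      exact eq_zero_of_odd φ₀.ker hodd h hyy
    have h2 : φ₀ x = φ₀ u := by
      apply ZMod.val_injective n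
      have e1 := h1 x hx0 hxx
      have e2 := h1 u hu0 huu
      omega
    have h3 : x - u = 0 := by
      refine eq_zero_of_odd φ₀.ker hodd ?_ ?_
      · rw [AddMonoidHom.mem_ker, map_sub, h2, sub_self]
      · rw [sub_add_sub_comm, hxx, huu, sub_zero]
    exact sub_eq_zero.1 h3

end LowgM

open LowgM

/-- **the lower bound `(t + 1) m - 1`** -/
theorem low_even {G : Type*} [AddCommGroup G] [Fintype G] [DecidableEq G] {m n t : ℕ} (ht : 1 ≤ t)
    (hm : 2 ≤ m) (hn : AddMonoid.exponent G = n) (hnt : n = t * m) (hcard : Nat.card G = m * n)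
    (hev : Even n) (hw : #{x : G | x + x = 0} ≤ 4) :
    ∃ A : Finset G, #A + 1 = (t + 1) * m ∧ ¬ Hit A n 0 := by
  have hn0 : 0 < n := by
    rw [hnt]
    exact Nat.mul_pos (by omega) (by omega)
  have : NeZero n := ⟨hn0.ne'⟩
  have : NeZero m := ⟨by omega⟩
  have hmn : m ≤ n := by
    rw [hnt]
    exact Nat.le_mul_of_pos_left m (by omega)
  obtain ⟨φ, hφ, hsum⟩ := exists_good hn hnt hcard hev hw
  have hfib : ∀ c : ZMod m, #{x : G | φ x = c} = n := by
    intro c
    have h1 := card_fib hφ c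
    rw [hcard] at h1
    exact Nat.eq_of_mul_eq_mul_left (by omega) h1
  obtain ⟨B, hB, hBc⟩ := exists_subset_card_eq (s := univ.filter (fun x : G => φ x = 1))
    (n := m - 1) (by rw [hfib]; omega)
  set H : Finset G := univ.filter (fun x => φ x = 0) with hH
  have : Nontrivial (ZMod m) := ZMod.nontrivial_iff.2 (by omega)
  have hdis : Disjoint H B := by
    rw [disjoint_left]
    intro x hx hx'
    have h1 := (mem_filter.1 hx).2
    have h2 := (mem_filter.1 (hB hx')).2
    rw [h1] at h2
    exact zero_ne_one h2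
  refine ⟨H ∪ B, ?_, ?_⟩
  · rw [card_union_of_disjoint hdis, hfib, hBc, hnt, add_mul, one_mul]
    omega
  · rintro ⟨T, hT, hTc, hTs⟩
    have h1 : φ (∑ x ∈ T, x) = ((#(T.filter (fun x => φ x = 1)) : ℕ) : ZMod m) := by
      rw [map_sum, card_filter, Nat.cast_sum]
      refine sum_congr rfl fun x hx => ?_
      rcases mem_union.1 (hT hx) with h | h
      · have h2 := (mem_filter.1 h).2
        rw [if_neg (by rw [h2]; exact zero_ne_one), h2, Nat.cast_zero]
      · have h2 := (mem_filter.1 (hB h)).2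
        rw [if_pos h2, h2, Nat.cast_one]
    rw [hTs, map_zero, eq_comm, ZMod.natCast_eq_zero_iff] at h1
    have h2 : #(T.filter (fun x => φ x = 1)) ≤ m - 1 := by
      rw [← hBc]
      refine card_le_card fun x hx => ?_
      rw [mem_filter] at hx
      rcases mem_union.1 (hT hx.1) with h | h
      · have h3 := (mem_filter.1 h).2
        rw [hx.2] at h3
        exact absurd h3 one_ne_zero
      · exact h
    have h3 : #(T.filter (fun x => φ x = 1)) = 0 := by
      by_contra h4
      have := Nat.le_of_dvd (by omega) h1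
      omega
    rw [card_eq_zero, filter_eq_empty_iff] at h3
    have h4 : T ⊆ H := by
      intro x hx
      rcases mem_union.1 (hT hx) with h | h
      · exact h
      · exact absurd (mem_filter.1 (hB h)).2 (h3 hx)
    have h5 : T = H := eq_of_subset_of_card_le h4 (by rw [hfib, hTc])
    rw [h5] at hTs
    exact hsum hTs

/-- **the lower bound `(t + 1) m`** -/
theorem low_full {G : Type*} [AddCommGroup G] [Fintype G] [DecidableEq G] {m n t : ℕ} (ht : 1 ≤ t)
    (hto : Odd t) (hme : Even m) (hn : AddMonoid.exponent G = n) (hnt : n = t * m)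
    (hcard : Nat.card G = m * n) (hw : #{x : G | x + x = 0} ≤ 4) :
    ∃ A : Finset G, #A = (t + 1) * m ∧ ¬ Hit A n 0 := by
  have hG : ∀ x : G, n • x = 0 := fun x => by
    rw [← hn]
    exact AddMonoid.exponent_nsmul_eq_zero x
  have hn0 : n ≠ 0 := by
    rw [← hn]
    exact AddMonoid.exponent_ne_zero_of_finite
  have hm0 : m ≠ 0 := by
    rintro rfl
    exact hn0 (by rw [hnt, mul_zero])
  have : NeZero n := ⟨hn0⟩
  have : NeZero m := ⟨hm0⟩
  have hm2 : 2 ≤ m := by
    obtain ⟨k, hk⟩ := hme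
    omega
  have htn : t < n := by
    rw [hnt]
    nlinarith
  obtain ⟨φ, hφ⟩ := exists_phi hn
  have hfib : ∀ c : ZMod n, #{x : G | φ x = c} = m := by
    intro c
    have h1 := card_fib hφ c
    rw [hcard, mul_comm m] at h1
    exact Nat.eq_of_mul_eq_mul_left (by omega) h1
  obtain ⟨g, hg⟩ := hφ 1
  have hval : ∀ j ≤ t, ((j : ℕ) : ZMod n).val = j := fun j hj =>
    ZMod.val_cast_of_lt (by omega)
  -- the sum of the kernel
  set σ : G := ∑ x ∈ univ.filter (fun x => φ x = 0), x with hσ
  have hneg : ∀ x ∈ univ.filter (fun x : G => φ x = 0), -x ∈ univ.filter (fun x => φ x = 0) := by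
    intro x hx
    rw [mem_filter] at hx ⊢
    exact ⟨mem_univ _, by rw [map_neg, hx.2, neg_zero]⟩
  have hσ0 : σ ≠ 0 := by
    obtain ⟨z, hz, hz0, hzz⟩ := exists_two φ.ker (by rw [card_ker hφ hcard]; exact hme)
    obtain ⟨k, hk⟩ := hme
    have hy : (t * k) • g + (t * k) • g = 0 := by
      rw [← add_smul]
      have h1 : t * k + t * k = n := by
        rw [hnt, hk]
        ring
      rw [h1, hG]
    refine sum_ne_zero_of hneg (z := z) (mem_filter.2 ⟨mem_univ _, hz⟩) hz0 hzz ?_
    intro x hx hxx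
    refine uniq_of hw hy ?_ hz hz0 hzz x (mem_filter.1 hx).2 hxx
    rw [AddMonoidHom.mem_ker, map_nsmul, hg, nsmul_one, ZMod.natCast_eq_zero_iff]
    intro h1
    have h2 : 0 < t * k := Nat.mul_pos (by omega) (by omega)
    have h3 := Nat.le_of_dvd h2 h1
    have h4 : t * k + t * k = n := by
      rw [hnt, hk]
      ring
    omega
  have hσ2 : σ + σ = 0 := by
    have h1 : ∑ x ∈ univ.filter (fun x : G => φ x = 0), (-x) = σ := by
      refine sum_bij (fun x _ => -x) hneg (fun _ _ _ _ h => neg_injective h)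
        (fun x hx => ⟨-x, hneg x hx, neg_neg x⟩) fun _ _ => rfl
    rw [sum_neg_distrib, ← hσ] at h1
    nth_rw 1 [← h1]
    exact neg_add_cancel σ
  -- the rows
  have hrow : ∀ j : ℕ, ∑ x ∈ univ.filter (fun x => φ x = (j : ZMod n)), x = σ + (m * j) • g := by
    intro j
    have h1 : ∑ x ∈ univ.filter (fun x => φ x = (j : ZMod n)), x =
        ∑ x ∈ univ.filter (fun x => φ x = 0), (x + j • g) := by
      symm
      refine sum_bij (fun x _ => x + j • g) ?_ (fun _ _ _ _ h => add_right_cancel h) ?_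
        fun _ _ => rfl
      · intro x hx
        rw [mem_filter] at hx ⊢
        exact ⟨mem_univ _, by rw [map_add, hx.2, zero_add, map_nsmul, hg, nsmul_one]⟩
      · intro x hx
        refine ⟨x - j • g, ?_, sub_add_cancel x _⟩
        rw [mem_filter] at hx ⊢
        exact ⟨mem_univ _, by rw [map_sub, hx.2, map_nsmul, hg, nsmul_one, sub_self]⟩
    rw [h1, sum_add_distrib, ← hσ, sum_const, hfib, smul_smul]
  set F : Finset G := (range (t + 1)).biUnion (fun j => univ.filter (fun x => φ x = (j : ZMod n)))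
    with hF
  have hdis : Set.PairwiseDisjoint (range (t + 1) : Set ℕ)
      (fun j : ℕ => univ.filter (fun x => φ x = (j : ZMod n))) := by
    intro i hi j hj hij
    rw [Function.onFun, disjoint_left]
    intro x hx hx'
    have h1 := (mem_filter.1 hx).2
    rw [(mem_filter.1 hx').2] at h1
    rw [coe_range, Set.mem_Iio] at hi hj
    have h2 := congrArg ZMod.val h1
    rw [hval j (by omega), hval i (by omega)] at h2
    exact hij h2.symm
  have hFc : #F = (t + 1) * m := by
    rw [hF, card_biUnion hdis, sum_congr rfl fun j _ => hfib _, sum_const, card_range, smul_eq_mul]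
  have hFs : ∑ x ∈ F, x = (t + 1) • σ := by
    rw [hF, sum_biUnion hdis, sum_congr rfl fun j _ => hrow j, sum_add_distrib, sum_const,
      card_range, ← sum_smul, ← mul_sum]
    obtain ⟨r, hr⟩ := hto
    have h1 : m * ∑ j ∈ range (t + 1), j = (r + 1) * n := by
      have h2 := sum_range_id_mul_two (t + 1)
      rw [Nat.add_sub_cancel] at h2
      have h3 : (m * ∑ j ∈ range (t + 1), j) * 2 = ((r + 1) * n) * 2 := by
        rw [mul_assoc, h2, hnt, hr]
        ring
      omega
    rw [h1, mul_smul, hG, smul_zero, add_zero]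
  have hlev : ∀ x ∈ F, (φ x).val ≤ t := by
    intro x hx
    obtain ⟨j, hj, hxj⟩ := mem_biUnion.1 hx
    rw [mem_range] at hj
    rw [(mem_filter.1 hxj).2, hval j (by omega)]
    omega
  have hFlev : ∑ x ∈ F, (φ x).val * 2 = m * (t * (t + 1)) := by
    rw [hF, sum_biUnion hdis]
    have h1 : ∀ j ∈ range (t + 1), ∑ x ∈ univ.filter (fun x => φ x = (j : ZMod n)),
        (φ x).val * 2 = m * (j * 2) := by
      intro j hj
      rw [mem_range] at hj
      rw [← hfib (j : ZMod n), ← smul_eq_mul, ← sum_const]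
      refine sum_congr rfl fun x hx => ?_
      rw [(mem_filter.1 hx).2, hval j (by omega)]
    rw [sum_congr rfl h1, ← mul_sum, ← sum_mul, sum_range_id_mul_two, Nat.add_sub_cancel,
      mul_comm t]
  refine ⟨F, hFc, ?_⟩
  rintro ⟨T, hT, hTc, hTs⟩
  have h0 : n ∣ ∑ x ∈ T, (φ x).val := by
    rw [← ZMod.natCast_eq_zero_iff, Nat.cast_sum]
    have h1 : ∑ x ∈ T, (((φ x).val : ℕ) : ZMod n) = φ (∑ x ∈ T, x) := by
      rw [map_sum]
      exact sum_congr rfl fun x _ => ZMod.natCast_zmod_val _
    rw [h1, hTs, map_zero]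
  have h1 := sum_sdiff (f := fun x : G => (φ x).val) hT
  have hle : ∀ x ∈ F \ T, (φ x).val ≤ t := fun x hx => hlev x (mem_sdiff.1 hx).1
  have hDc : #(F \ T) = m := by
    rw [card_sdiff_of_subset hT, hFc, hTc, hnt, add_mul, one_mul]
    omega
  have h3 : ∑ x ∈ F \ T, (φ x).val ≤ m * t := by
    have := sum_le_card_nsmul (F \ T) (fun x => (φ x).val) t hle
    rwa [hDc] at this
  rw [← sum_mul] at hFlev
  obtain ⟨k, hk⟩ := h0
  obtain ⟨r, hr⟩ := hto
  have h4 : ∑ x ∈ F, (φ x).val = n * (r + 1) := by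
    have : (∑ x ∈ F, (φ x).val) * 2 = n * (r + 1) * 2 := by
      rw [hFlev, hnt, hr]
      ring
    omega
  -- the omitted row
  have h5 : ∃ j : ℕ, (j = 0 ∨ j = t) ∧ ∀ x ∈ F \ T, (φ x).val = j := by
    have h6 : n * k ≤ n * (r + 1) := by omega
    have h7 : n * r ≤ n * k := by
      have h8 : n * (r + 1) = n * r + n := by ring
      have h9 : m * t = n := by rw [hnt, mul_comm]
      omega
    have h6' := Nat.le_of_mul_le_mul_left h6 (by omega)
    have h7' := Nat.le_of_mul_le_mul_left h7 (by omega)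
    rcases (show k = r + 1 ∨ k = r by omega) with h | h
    · refine ⟨0, Or.inl rfl, fun x hx => ?_⟩
      have h8 : ∑ x ∈ F \ T, (φ x).val = 0 := by
        rw [hk, h4, h] at h1
        omega
      exact (sum_eq_zero_iff.1 h8) x hx
    · refine ⟨t, Or.inr rfl, fun x hx => ?_⟩
      have h8 : ∑ x ∈ F \ T, (φ x).val = m * t := by
        rw [hk, h4, h] at h1
        have h10 : n * (r + 1) = n * r + m * t := by
          rw [hnt]
          ring
        omega
      by_contra hne
      have hlt : (φ x).val < t := lt_of_le_of_ne (hle x hx) hne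
      have h10 : ∑ x ∈ F \ T, (φ x).val < ∑ _x ∈ F \ T, t := sum_lt_sum hle ⟨x, hx, hlt⟩
      rw [sum_const, hDc, smul_eq_mul] at h10
      omega
  obtain ⟨j, hj, hjD⟩ := h5
  have h6 : F \ T = univ.filter (fun x => φ x = (j : ZMod n)) := by
    refine eq_of_subset_of_card_le (fun x hx => ?_) ?_
    · rw [mem_filter]
      refine ⟨mem_univ _, ?_⟩
      rw [← hjD x hx, ZMod.natCast_zmod_val]
    · rw [hfib, hDc]
  have h7 := sum_sdiff (f := fun x : G => x) hT
  rw [hTs, add_zero, h6, hrow, hFs] at h7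
  have h8 : (m * j) • g = 0 := by
    rcases hj with h | h
    · rw [h, mul_zero, zero_smul]
    · rw [h, mul_comm, ← hnt, hG]
  rw [h8, add_zero, hr] at h7
  have h9 : (2 * r + 1 + 1) • σ = 0 := by
    have h10 : 2 * r + 1 + 1 = (r + 1) * 2 := by ring
    rw [h10, mul_smul, two_smul, hσ2, smul_zero]
  exact hσ0 (h7.trans h9)

end Pool.Agent.Lib.MPa7239a.RG
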