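import Pool.Agent.Lib.MP_a7239a_co.RB.RULES
import Pool.Agent.Lib.MP_a7239a_co.RB.GAME
import Pool.Agent.Lib.MP_a7239a_co.RG.FULL3

/-!
# The rules of the end game for any set without a solution: at least three elements of a fat row,
no condition on the elements of order two, no deletion
-/

set_option autoImplicit false

open Finset

namespace Pool.Agent.Lib.MPa7239a.RG

open Pool.Agent.Lib.MPa7239a.GC
open Pool.Agent.Lib.MPa7239a.RK
open Pool.Agent.Lib.MPa7239a.RB

/-- the rules; `h` is the size of a full row -/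
structure Rules3 {o : ℕ} [NeZero o] (r : ZMod o → ℕ) (h θ c : ℕ) : Prop where
  row_le : ∀ u, r u ≤ h
  rule1 : ∀ d, Adm r c d → ∀ u, h + θ ≤ 2 * r u → 3 ≤ d u → r u < d u + 3
  rule2 : ∀ d, Adm r c d → ∀ u v, u ≠ v → 1 ≤ d u → d u < r u → 1 ≤ d v → d v < r v →
    max (d u) (r u - d u) + 1 + (max (d v) (r v - d v) + 1) ≤ h

/-- the rules of a set without solution -/
theorem rules3_of {G : Type*} [AddCommGroup G] [Finite G] [DecidableEq G] {o : ℕ} [NeZero o]
    (φ : G →+ ZMod o) (hφ : Function.Surjective φ) {A : Finset G} {n c h θ : ℕ}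
    (hA : #A = n + c) (hh : Nat.card φ.ker = h) (hFF : FatFull3 φ.ker θ)
    (hno : ¬ Hit A n 0) : Rules3 (cnt φ A) h θ c := by
  subst hh
  have hker : ∀ x y : G, φ x = φ y → x - y ∈ φ.ker := fun x y h => by
    rw [AddMonoidHom.mem_ker, map_sub, h, sub_self]
  -- every admissible vector comes from a set `T`
  have real : ∀ d, Adm (cnt φ A) c d → ∃ T ⊆ A, #T = n ∧ φ (∑ x ∈ T, x) = 0 ∧
      ∀ u, cnt φ T u = cnt φ A u - d u := by
    intro d hd
    obtain ⟨Y, hY, hYd⟩ := exists_real A φ hd.le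
    have hYc : #Y = c := by
      rw [← hd.card, ← sum_cnt Y φ]
      exact sum_congr rfl fun u _ => hYd u
    refine ⟨A \ Y, sdiff_subset, ?_, ?_, fun u => by rw [cnt_sdiff φ hY, hYd]⟩
    · rw [card_sdiff_of_subset hY, hA, hYc]
      omega
    · have h1 := sum_sdiff (f := fun x : G => x) hY
      have h2 : φ (∑ x ∈ Y, x) = φ (∑ x ∈ A, x) := by
        rw [← sum_cnt_smul, ← sum_cnt_smul, ← hd.sum]
        exact sum_congr rfl fun u _ => by rw [hYd u]
      rw [← h1, map_add] at h2
      exact right_eq_add.1 h2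
  refine ⟨?_, ?_, ?_⟩
  · intro u
    obtain ⟨g, hg⟩ := hφ u
    exact card_le_of_coset φ.ker g fun x hx => hker _ _ ((mem_filter.1 hx).2.trans hg.symm)
  · -- rule 1
    intro d hd u hu h2
    by_contra hcon
    have hcon' : d u + 3 ≤ cnt φ A u := by omega
    obtain ⟨T, hT, hTn, hTs, hTd⟩ := real d hd
    obtain ⟨g, hg⟩ := hφ u
    refine hno (hit_replace hT hTn (filter_subset (fun x => φ x = u) A) ?_)
    have h3 : T ∩ A.filter (fun x => φ x = u) = T.filter (fun x => φ x = u) := by
      ext x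
      rw [mem_inter, mem_filter, mem_filter]
      exact ⟨fun h => ⟨h.1, h.2.2⟩, fun h => ⟨h.1, hT h.1, h.2⟩⟩
    have h4 : #(T ∩ A.filter (fun x => φ x = u)) = cnt φ A u - d u := by
      rw [h3]
      exact hTd u
    refine hFF _ g (fun x hx => hker _ _ ((mem_filter.1 hx).2.trans hg.symm)) hu _ ?_ ?_ _ ?_
    · rw [h4]
      omega
    · rw [h4]
      show cnt φ A u - d u + 3 ≤ cnt φ A u
      omega
    · rw [AddMonoidHom.mem_ker, map_sub, map_neg, map_nsmul, hg]
      have h5 := sum_inter_add_sum_sdiff T (A.filter fun x => φ x = u) (fun x : G => x)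
      have h6 : φ (∑ x ∈ T ∩ A.filter (fun x => φ x = u), x) =
          #(T ∩ A.filter (fun x => φ x = u)) • u := by
        rw [map_sum, sum_congr rfl (g := fun _ => u) fun x hx => by
          rw [mem_inter, mem_filter] at hx
          exact hx.2.2, sum_const]
      rw [← h5, map_add, h6] at hTs
      rw [sub_eq_add_neg, ← neg_add, add_comm, hTs, neg_zero]
  · -- rule 2
    intro d hd u v huv h1 h2 h3 h4
    by_contra hcon
    obtain ⟨T, hT, hTn, hTs, hTd⟩ := real d hd
    obtain ⟨g, hg⟩ := hφ u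
    obtain ⟨g', hg'⟩ := hφ v
    set R₁ := A.filter (fun x => φ x = u) with hR₁
    set R₂ := A.filter (fun x => φ x = v) with hR₂
    have hc₁ : #R₁ = cnt φ A u := rfl
    have hc₂ : #R₂ = cnt φ A v := rfl
    obtain ⟨Q₁, hQ₁, hQ₁c⟩ := exists_sums R₁ (a := cnt φ A u - d u) (by omega) (by omega)
    obtain ⟨Q₂, hQ₂, hQ₂c⟩ := exists_sums R₂ (a := cnt φ A v - d v) (by omega) (by omega)
    have hdis : Disjoint R₁ R₂ := disjoint_left.2 fun x hx hx' =>
      huv ((mem_filter.1 hx).2.symm.trans (mem_filter.1 hx').2)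
    have hcos : ∀ (w : ZMod o) (g : G), φ g = w → ∀ (k : ℕ) (y : G),
        Hit (A.filter fun x => φ x = w) k y → y - k • g ∈ φ.ker := by
      rintro w g hg k y ⟨X, hX, hXc, hXs⟩
      rw [← hXs, ← hXc]
      exact sum_mem_coset fun x hx => hker _ _ ((mem_filter.1 (hX hx)).2.trans hg.symm)
    have h5 : T ∩ (R₁ ∪ R₂) = T.filter (fun x => φ x = u) ∪ T.filter (fun x => φ x = v) := by
      ext x
      rw [mem_inter, mem_union, mem_union, mem_filter, mem_filter, mem_filter, mem_filter]
      constructor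
      · rintro ⟨h, h' | h'⟩
        · exact Or.inl ⟨h, h'.2⟩
        · exact Or.inr ⟨h, h'.2⟩
      · rintro (h | h)
        · exact ⟨h.1, Or.inl ⟨hT h.1, h.2⟩⟩
        · exact ⟨h.1, Or.inr ⟨hT h.1, h.2⟩⟩
    have hdis' : Disjoint (T.filter fun x => φ x = u) (T.filter fun x => φ x = v) :=
      disjoint_left.2 fun x hx hx' => huv ((mem_filter.1 hx).2.symm.trans (mem_filter.1 hx').2)
    have h6 : #(T ∩ (R₁ ∪ R₂)) = cnt φ A u - d u + (cnt φ A v - d v) := by
      rw [h5, card_union_of_disjoint hdis', ← hTd u, ← hTd v]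
      rfl
    refine hno (hit_replace hT hTn (union_subset (filter_subset _ A) (filter_subset _ A) :
      R₁ ∪ R₂ ⊆ A) ?_)
    obtain ⟨a, ha, b, hb, hab⟩ := exists_add (H := φ.ker) (S := Q₁) (T := Q₂)
      (x := (cnt φ A u - d u) • g) (y := (cnt φ A v - d v) • g')
      (w := -∑ x ∈ T \ (R₁ ∪ R₂), x) (fun y hy => hcos u g hg _ y (hQ₁ y hy))
      (fun y hy => hcos v g' hg' _ y (hQ₂ y hy)) (by
        rw [AddMonoidHom.mem_ker, map_sub, map_sub, map_neg, map_nsmul, map_nsmul, hg, hg']
        have h7 := sum_inter_add_sum_sdiff T (R₁ ∪ R₂) (fun x : G => x)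
        have h8 : φ (∑ x ∈ T ∩ (R₁ ∪ R₂), x) =
            (cnt φ A u - d u) • u + (cnt φ A v - d v) • v := by
          rw [h5, sum_union hdis', map_add, map_sum, map_sum,
            sum_congr rfl (g := fun _ => u) fun x hx => (mem_filter.1 hx).2,
            sum_congr rfl (g := fun _ => v) fun x hx => (mem_filter.1 hx).2, sum_const, sum_const,
            ← hTd u, ← hTd v]
          rfl
        rw [← h7, map_add, h8] at hTs
        rw [sub_sub, ← neg_add', add_comm, hTs, neg_zero]) (by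
        have : max (d u) (cnt φ A u - d u) =
          max (cnt φ A u - d u) (#R₁ - (cnt φ A u - d u)) := by
          rw [hc₁, Nat.sub_sub_self h2.le, max_comm]
        have : max (d v) (cnt φ A v - d v) =
          max (cnt φ A v - d v) (#R₂ - (cnt φ A v - d v)) := by
          rw [hc₂, Nat.sub_sub_self h4.le, max_comm]
        omega)
    obtain ⟨X, hX, hXc, hXs⟩ := hQ₁ a ha
    obtain ⟨X', hX', hXc', hXs'⟩ := hQ₂ b hb
    have hdd : Disjoint X X' := disjoint_of_subset_left hX (disjoint_of_subset_right hX' hdis)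
    refine ⟨X ∪ X', union_subset_union hX hX', ?_, ?_⟩
    · rw [card_union_of_disjoint hdd, hXc, hXc', h6]
    · rw [sum_union hdd, hXs, hXs', hab]

end Pool.Agent.Lib.MPa7239a.RG
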