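import Mathlib

/-!
# The sum of the elements of a finite abelian group

It is `0` if the number of solutions of `x + x = 0` is not `2`, and it is the involution if there
is exactly one.
-/

set_option autoImplicit false

open Finset

namespace Pool.Agent.Lib.MPa7239a.RG

/-- pairs with constant sum -/
theorem sum_pairs {α M : Type*} [DecidableEq α] [AddCommMonoid M] (g : α → α) (f : α → M) (c : M) :
    ∀ T : Finset α, (∀ x ∈ T, g x ∈ T) → (∀ x ∈ T, g (g x) = x) → (∀ x ∈ T, g x ≠ x) →
      (∀ x ∈ T, f x + f (g x) = c) → ∃ k : ℕ, #T = 2 * k ∧ ∑ x ∈ T, f x = k • c := by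
  intro T
  induction T using Finset.strongInduction with
  | H T ih =>
    intro h1 h2 h3 h4
    rcases T.eq_empty_or_nonempty with hT | ⟨x, hx⟩
    · subst hT
      exact ⟨0, by simp, by simp⟩
    · have hgx := h1 x hx
      have hne := h3 x hx
      have hgx' : g x ∈ T.erase x := mem_erase.2 ⟨hne, hgx⟩
      set T' := (T.erase x).erase (g x) with hT'
      have hsub : T' ⊆ T := (erase_subset _ _).trans (erase_subset _ _)
      have hlt : T' ⊂ T := by
        refine ssubset_of_subset_of_ne hsub ?_
        intro h
        have h5 : x ∈ T' := by rw [h]; exact hx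
        rw [hT', mem_erase, mem_erase] at h5
        exact h5.2.1 rfl
      have hmem : ∀ y ∈ T', y ≠ g x ∧ y ≠ x ∧ y ∈ T := by
        intro y hy
        rw [hT', mem_erase, mem_erase] at hy
        exact hy
      obtain ⟨k, hk, hs⟩ := ih T' hlt (fun y hy => by
          obtain ⟨a, b, c'⟩ := hmem y hy
          rw [hT', mem_erase, mem_erase]
          refine ⟨fun h => ?_, fun h => ?_, h1 y c'⟩
          · apply b
            rw [← h2 y c', h, h2 x hx]
          · apply a
            rw [← h2 y c', h])
        (fun y hy => h2 y (hsub hy)) (fun y hy => h3 y (hsub hy)) (fun y hy => h4 y (hsub hy))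
      refine ⟨k + 1, ?_, ?_⟩
      · have h5 : #T' = #T - 1 - 1 := by
          rw [hT', card_erase_of_mem hgx', card_erase_of_mem hx]
        have h6 : 1 < #T := by
          rw [one_lt_card]
          exact ⟨x, hx, g x, hgx, hne.symm⟩
        omega
      · rw [← add_sum_erase T f hx, ← add_sum_erase (T.erase x) f hgx', ← hT', hs, ← add_assoc,
          h4 x hx, add_smul, one_smul, add_comm]

section

variable {G : Type*} [AddCommGroup G] [DecidableEq G]

/-- the sum is the sum of the solutions of `x + x = 0` -/
theorem sum_eq_two {H : Finset G} (hneg : ∀ x ∈ H, -x ∈ H) :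
    ∑ x ∈ H, x = ∑ x ∈ H.filter (fun x => x + x = 0), x := by
  rw [← sum_filter_add_sum_filter_not H (fun x => x + x = 0)]
  have h1 : ∑ x ∈ H.filter (fun x => ¬ x + x = 0), x = 0 := by
    refine sum_involution (fun x _ => -x) ?_ ?_ ?_ ?_
    · intro x _
      exact add_neg_cancel x
    · intro x hx _ h
      rw [mem_filter] at hx
      apply hx.2
      have h2 : x + x = x + -x := by rw [h]
      rw [h2, add_neg_cancel]
    · intro x hx
      rw [mem_filter] at hx ⊢
      refine ⟨hneg x hx.1, fun h => hx.2 ?_⟩
      have h2 : x + x = -(-x + -x) := by abel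
      rw [h2, h, neg_zero]
    · intro x _
      exact neg_neg x
  rw [h1, add_zero]

/-- the sum of the elements of a group with a number of solutions of `x + x = 0` different from
`2` -/
theorem sum_eq_zero_of {H : Finset G} (h0 : (0 : G) ∈ H) (hneg : ∀ x ∈ H, -x ∈ H)
    (hadd : ∀ x ∈ H, ∀ y ∈ H, x + y ∈ H) (h2 : #(H.filter (fun x => x + x = 0)) ≠ 2) :
    ∑ x ∈ H, x = 0 := by
  rw [sum_eq_two hneg]
  set T := H.filter (fun x => x + x = 0) with hT
  have hmem : ∀ x, x ∈ T ↔ x ∈ H ∧ x + x = 0 := fun x => by rw [hT, mem_filter]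
  by_contra hs
  set s := ∑ x ∈ T, x with hsd
  have haddT : ∀ x ∈ T, ∀ y ∈ T, x + y ∈ T := by
    intro x hx y hy
    rw [hmem] at hx hy ⊢
    refine ⟨hadd x hx.1 y hy.1, ?_⟩
    have h3 : x + y + (x + y) = (x + x) + (y + y) := by abel
    rw [h3, hx.2, hy.2, add_zero]
  have h0T : (0 : G) ∈ T := (hmem 0).2 ⟨h0, add_zero 0⟩
  have hsT : s ∈ T := by
    rw [hsd]
    exact sum_induction (fun x : G => x) (fun x => x ∈ T) (fun a b ha hb => haddT a ha b hb) h0T
      (fun x hx => hx)
  have hss := ((hmem s).1 hsT).2
  obtain ⟨k, hk, hsum⟩ := sum_pairs (fun x => x + s) (fun x : G => x) s T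
    (fun x hx => haddT x hx s hsT) (fun x _ => by
      rw [add_assoc, hss, add_zero]) (fun x _ h => hs (by
      have h3 : x + s = x + 0 := by rw [add_zero]; exact h
      exact add_left_cancel h3)) (fun x hx => by
      rw [← add_assoc, ((hmem x).1 hx).2, zero_add])
  -- `k` is even
  have hk1 : 1 ≤ k := by
    have : 0 < #T := card_pos.2 ⟨0, h0T⟩
    omega
  have hk2 : 2 ≤ k := by omega
  -- a third element gives a second pairing of the pairs
  obtain ⟨b, hbT, hb0, hbs⟩ : ∃ b ∈ T, b ≠ 0 ∧ b ≠ s := by
    by_contra hcon
    push Not at hcon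
    have h3 : T ⊆ {0, s} := by
      intro x hx
      rw [mem_insert, mem_singleton]
      rcases eq_or_ne x 0 with h | h
      · exact Or.inl h
      · exact Or.inr (hcon x hx h)
    have h4 := (card_le_card h3).trans card_le_two
    omega
  have hbb := ((hmem b).1 hbT).2
  -- the involution `x ↦ x + b` on the set of pairs: use `k • s` with `4 ∣ #T`
  have h4 : ∃ j, #T = 4 * j := by
    -- count the set of pairs
    let P := T.image (fun x => ({x, x + s} : Finset G))
    have hP2 : #T = 2 * #P := by
      have h5 : ∀ p ∈ P, #(T.filter (fun x => ({x, x + s} : Finset G) = p)) = 2 := by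
        intro p hp
        obtain ⟨x, hx, rfl⟩ := mem_image.1 hp
        have h6 : T.filter (fun y => ({y, y + s} : Finset G) = {x, x + s}) = {x, x + s} := by
          ext y
          rw [mem_filter, mem_insert, mem_singleton]
          constructor
          · rintro ⟨_, h⟩
            have h7 : y ∈ ({x, x + s} : Finset G) := by
              rw [← h]
              exact mem_insert_self _ _
            rwa [mem_insert, mem_singleton] at h7
          · rintro (rfl | rfl)
            · exact ⟨hx, rfl⟩
            · refine ⟨haddT x hx s hsT, ?_⟩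
              rw [add_assoc, hss, add_zero, pair_comm]
        rw [h6, card_pair]
        intro h
        apply hs
        have h7 : x + 0 = x + s := by rw [add_zero]; exact h
        exact (add_left_cancel h7).symm
      have h6 := card_eq_sum_card_image (fun x => ({x, x + s} : Finset G)) T
      rw [sum_congr rfl h5, sum_const, smul_eq_mul, mul_comm] at h6
      exact h6
    have e1 : ∀ p ∈ P, p.image (fun x => x + b) ∈ P := by
      intro p hp
      obtain ⟨x, hx, rfl⟩ := mem_image.1 hp
      refine mem_image.2 ⟨x + b, haddT x hx b hbT, ?_⟩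
      rw [image_insert, image_singleton, add_right_comm]
    have e2 : ∀ p ∈ P, (p.image (fun x => x + b)).image (fun x => x + b) = p := by
      intro p hp
      obtain ⟨x, hx, rfl⟩ := mem_image.1 hp
      rw [image_insert, image_singleton, image_insert, image_singleton]
      rw [add_assoc x b b, hbb, add_zero, add_assoc (x + s) b b, hbb, add_zero]
    have e3 : ∀ p ∈ P, p.image (fun x => x + b) ≠ p := by
      intro p hp h
      obtain ⟨x, hx, rfl⟩ := mem_image.1 hp
      rw [image_insert, image_singleton] at h
      have h7 : x + b ∈ ({x, x + s} : Finset G) := by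
        rw [← h]
        exact mem_insert_self _ _
      rw [mem_insert, mem_singleton] at h7
      rcases h7 with h8 | h8
      · apply hb0
        have h9 : x + b = x + 0 := by rw [add_zero]; exact h8
        exact add_left_cancel h9
      · exact hbs (add_left_cancel h8)
    obtain ⟨j, hj, -⟩ := sum_pairs (fun p : Finset G => p.image (fun x => x + b))
      (fun _ => (0 : ℕ)) 0 P e1 e2 e3 (fun _ _ => rfl)
    exact ⟨j, by omega⟩
  obtain ⟨j, hj⟩ := h4
  apply hs
  have hkj : k = j + j := by omega
  calc s = k • s := hsum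
    _ = 0 := by rw [hkj, add_smul, ← smul_add, hss, smul_zero]

/-- one involution -/
theorem sum_ne_zero_of {H : Finset G} (h0 : (0 : G) ∈ H) (hneg : ∀ x ∈ H, -x ∈ H)
    (h2 : #(H.filter (fun x => x + x = 0)) = 2) : ∑ x ∈ H, x ≠ 0 := by
  rw [sum_eq_two hneg]
  obtain ⟨a, b, hab, hT⟩ := card_eq_two.1 h2
  have h0T : (0 : G) ∈ H.filter (fun x => x + x = 0) := mem_filter.2 ⟨h0, add_zero 0⟩
  rw [hT, sum_pair hab]
  rw [hT, mem_insert, mem_singleton] at h0T
  rcases h0T with h | h
  · rw [← h, zero_add]
    rw [← h] at hab
    exact hab.symm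
  · rw [← h, add_zero]
    rw [← h] at hab
    exact hab

end

end Pool.Agent.Lib.MPa7239a.RG
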