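import Pool.Agent.Lib.MP_a7239a_co.RG.T2E
import Pool.Agent.Lib.MP_a7239a_co.RG.EEZ
import Pool.Agent.Lib.MP_a7239a_co.RG.INP
import Pool.Agent.Lib.MP_a7239a_co.RG.LOWG
import Pool.Agent.Lib.MP_a7239a_co.RB.PHI
import Pool.Agent.Lib.MP_a7239a_co.RS.PARS

/-!
# `|G| = 2 m ^ 2`, exponent `2 m`, more than four elements of order at most two: the upper bound
`3 m - 2`
-/

set_option autoImplicit false

open Finset

namespace Pool.Agent.Lib.MPa7239a.RG

open Pool.Agent.Lib.MPa7239a.GC
open Pool.Agent.Lib.MPa7239a.RK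
open Pool.Agent.Lib.MPa7239a.RS
open Pool.Agent.Lib.MPa7239a.RB

namespace T2M

/-- the elements of order at most two in the kernel -/
theorem two_ker {G : Type*} [AddCommGroup G] [Fintype G] [DecidableEq G] {o : ℕ} [NeZero o]
    (φ : G →+ ZMod o) {F : Finset G} (hF : ∀ x, x ∈ F ↔ x ∈ φ.ker) :
    #{x : G | x + x = 0} ≤ 2 * #(F.filter (fun x => x + x = 0)) := by
  classical
  set W : Finset G := univ.filter (fun x : G => x + x = 0) with hW
  have h1 : #W ≤ #(F.filter (fun x => x + x = 0)) * #(W.image φ) := by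
    refine card_le_mul_card_image W _ fun a ha => ?_
    obtain ⟨x₁, hx₁, rfl⟩ := mem_image.1 ha
    refine card_le_card_of_injOn (fun x => x - x₁) ?_ (fun a _ b _ hab => sub_left_injective hab)
    intro x hx
    rw [mem_coe, mem_filter, hW, mem_filter] at hx
    rw [hW, mem_filter] at hx₁
    rw [mem_coe, mem_filter, hF, AddMonoidHom.mem_ker, map_sub, hx.2, sub_self]
    refine ⟨rfl, ?_⟩
    rw [sub_add_sub_comm, hx.1.2, hx₁.2, sub_self]
  have h2 : #(W.image φ) ≤ 2 := by
    by_contra hcon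
    push Not at hcon
    obtain ⟨a, ha, b, hb, c, hc, hab, hac, hbc⟩ := two_lt_card.1 hcon
    have key : ∀ y ∈ W.image φ, y = 0 ∨ y.val + y.val = o := by
      intro y hy
      obtain ⟨x, hx, rfl⟩ := mem_image.1 hy
      rw [hW, mem_filter] at hx
      rcases eq_or_ne (φ x) 0 with h | h
      · exact Or.inl h
      · exact Or.inr (LowgM.two_val (by rw [← map_add, hx.2, map_zero]) h)
    have inj : ∀ y y' : ZMod o, y.val + y.val = o → y'.val + y'.val = o → y = y' := by
      intro y y' h h'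
      exact ZMod.val_injective o (by omega)
    rcases key a ha with h | h <;> rcases key b hb with h' | h' <;> rcases key c hc with h'' | h''
    · exact hab (h.trans h'.symm)
    · exact hab (h.trans h'.symm)
    · exact hac (h.trans h''.symm)
    · exact hbc (inj _ _ h' h'')
    · exact hbc (h'.trans h''.symm)
    · exact hac (inj _ _ h h'')
    · exact hab (inj _ _ h h')
    · exact hab (inj _ _ h h')
  calc #W ≤ #(F.filter (fun x => x + x = 0)) * #(W.image φ) := h1
    _ ≤ #(F.filter (fun x => x + x = 0)) * 2 := Nat.mul_le_mul_left _ h2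
    _ = 2 * #(F.filter (fun x => x + x = 0)) := mul_comm _ _

/-- the end game for the structure -/
theorem false_of_amj {G : Type*} [AddCommGroup G] [Fintype G] [DecidableEq G] {A : Finset G}
    {H : AddSubgroup G} {e q : G} {S : Finset G} {z : G → ℤ} {m c o τ loss k t' Z θ : ℕ}
    {u v : ℤ} (h : Amj ⊤ ⊤ H e q A S z m (2 * m) c 1 o τ loss k t' Z u v)
    (hcm : c + 1 = m) (hL : 5000 * (loss + 1) ≤ m) (hexp : ∀ x : G, (2 * m) • x = 0)
    (hFF : ∀ K : AddSubgroup G, FatFull3 K θ) (hθ : 100 * θ ≤ m)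
    (hw : 5 ≤ #{x : G | x + x = 0}) (hno : ¬ Hit A (2 * m) 0) : False := by
  classical
  have ho0 : 0 < o := by
    rw [← h.order]
    exact addOrderOf_pos _
  have : NeZero o := ⟨by omega⟩
  obtain ⟨φ, hφ, hker, hφe⟩ := RB.exists_phi (H := H) h.order
    (fun x => h.gen x (AddSubgroup.mem_top x))
  obtain ⟨s, hs⟩ := h.on
  have hos : o * s = 2 * m := hs.symm
  have hφH : ∀ x, φ x = 0 ↔ x ∈ H := by
    intro x
    rw [← AddMonoidHom.mem_ker, hker]
  have hkc : Nat.card φ.ker = m * s := by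
    rw [hker]
    have h3 := h.cardH
    have h5 := h.cardΓ
    rw [h5] at h3
    have h6 : o * Nat.card H = o * (m * s) := by
      rw [mul_comm o, h3, ← hos]
      ring
    exact Nat.eq_of_mul_eq_mul_left ho0 h6
  -- the kernel has at least three elements of order at most two
  have hfour : ∀ F : Finset G, (∀ x, x ∈ F ↔ x ∈ φ.ker) →
      3 ≤ #(F.filter (fun x => x + x = 0)) := by
    intro F hF
    have := two_ker φ hF
    omega
  have hzero : ∀ F : Finset G, (∀ x, x ∈ F ↔ x ∈ φ.ker) → ∑ x ∈ F, x = 0 := by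
    intro F hF
    have := hfour F hF
    exact sum_subgroup_eq_zero hF (by omega)
  have heven : s = 1 → Even m := by
    intro hs1
    rw [hs1, mul_one] at hkc
    have hKf : (φ.ker : Set G).Finite := Set.toFinite _
    have hmem : ∀ x, x ∈ hKf.toFinset ↔ x ∈ φ.ker := by
      intro x
      rw [Set.Finite.mem_toFinset, SetLike.mem_coe]
    have h4 := hfour hKf.toFinset hmem
    obtain ⟨x, hx, hx0⟩ := exists_mem_ne (by omega : 1 < #(hKf.toFinset.filter
      (fun x => x + x = 0))) 0
    rw [mem_filter, hmem] at hx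
    have h5 : addOrderOf (⟨x, hx.1⟩ : φ.ker) ∣ Nat.card φ.ker := addOrderOf_dvd_natCard _
    have h6 : addOrderOf (⟨x, hx.1⟩ : φ.ker) = 2 := by
      refine addOrderOf_eq_prime ?_ ?_
      · rw [two_nsmul]
        exact Subtype.ext hx.2
      · intro h7
        exact hx0 (congrArg Subtype.val h7)
    rw [h6, hkc] at h5
    exact even_iff_two_dvd.2 h5
  -- translation
  set x₀ : G := q + u • e with hx₀
  have hφ₀ : ∀ x : G, x ∈ S → φ (x - x₀) = ((z x - u : ℤ) : ZMod o) := by
    intro x hx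
    have h1 := h.lift _ hx
    have h2 : φ (x - q - z x • e) = 0 := by
      rw [hφH]
      exact h1
    rw [map_sub, map_zsmul, hφe, zsmul_one, sub_eq_zero] at h2
    have h3 : x - x₀ = (x - q) - u • e := by
      rw [hx₀]
      abel
    rw [h3, map_sub, map_zsmul, hφe, zsmul_one, h2]
    push_cast
    ring
  set A₂ := A.image (fun x => x - x₀) with hA₂
  set S₂ := S.image (fun x => x - x₀) with hS₂
  have hsub : Function.Injective (fun x : G => x - x₀) := sub_left_injective
  set z₂ : G → ℤ := fun y => z (y + x₀) - u with hz₂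
  have hz₂' : ∀ x, z₂ (x - x₀) = z x - u := by
    intro x
    rw [hz₂]
    simp only [sub_add_cancel]
  obtain ⟨p, hp⟩ := Int.eq_ofNat_of_zero_le (show 0 ≤ v - u by have := h.uv; omega)
  have hA₂c : #A₂ = 2 * m + c := by rw [hA₂, card_image_of_injective _ hsub, h.card]
  have hS₂c : #S₂ = #S := by rw [hS₂, card_image_of_injective _ hsub]
  have hloss : #A ≤ #S + loss :=
    h.inK A (Subset.refl _) (fun x _ => AddSubgroup.mem_top _)
  have hloss₂ : #A₂ ≤ #S₂ + loss := by
    rw [hA₂, hS₂c, card_image_of_injective _ hsub]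
    exact hloss
  -- the sums
  have hsum : ∀ (P : ℤ → Prop) [DecidablePred P] (f : ℤ → ℤ),
      ∑ x ∈ S₂.filter (fun x => P (z₂ x)), f (z₂ x) =
        ∑ x ∈ S.filter (fun x => P (z x - u)), f (z x - u) := by
    intro P _ f
    rw [hS₂, sum_filter, sum_filter, sum_image (fun x _ y _ hxy => hsub hxy)]
    refine sum_congr rfl fun x _ => ?_
    simp only [hz₂']
  have hwin : t' * p + ∑ x ∈ S₂.filter (fun x => (p : ℤ) < z₂ x), (z₂ x - p) +
      ∑ x ∈ S₂.filter (fun x => z₂ x < 0), (0 - z₂ x) + 2 ≤ o := by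
    have h1 := h.win
    have h2 := hsum (fun a => (p : ℤ) < a) (fun a => a - p)
    have h3 := hsum (fun a => a < 0) (fun a => 0 - a)
    have e1 : S.filter (fun x => (p : ℤ) < z x - u) = S.filter (fun x => v < z x) :=
      filter_congr fun x _ => by omega
    have e2 : S.filter (fun x => z x - u < 0) = S.filter (fun x => z x < u) :=
      filter_congr fun x _ => by omega
    rw [e1] at h2
    rw [e2] at h3
    have e3 : ∑ x ∈ S.filter (fun x => v < z x), (z x - u - p) =
        ∑ x ∈ S.filter (fun x => v < z x), (z x - v) := sum_congr rfl fun x _ => by omega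
    have e4 : ∑ x ∈ S.filter (fun x => z x < u), (0 - (z x - u)) =
        ∑ x ∈ S.filter (fun x => z x < u), (u - z x) := sum_congr rfl fun x _ => by omega
    rw [e3] at h2
    rw [e4] at h3
    rw [h2, h3]
    have h5 : (t' : ℤ) * p = t' * (v - u) := by rw [hp]
    rw [h5]
    exact h1
  -- the translated set has no zero-sum
  have hno₂ : ¬ Hit A₂ (2 * m) 0 := fun h1 => hno (hit_translate (hexp x₀) h1)
  refine end_t2 φ hφ (A := A₂) (S := S₂) z₂ (s := s) (θ := θ) (L := loss) (q := p) hexp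
    hkc (hFF _) hθ hos hcm ?_ ?_ hA₂c (image_subset_image h.sub) hloss₂ hL ?_
    (by rw [hS₂c]; exact h.cardS) h.kn hwin ?_ hno₂
  · exact heven
  · -- a full row
    intro hs2 w
    by_contra hcon
    push Not at hcon
    obtain ⟨y, hy⟩ := hφ w
    rw [hs2, mul_comm] at hkc
    obtain ⟨B, hB, hBc⟩ := exists_subset_card_eq (s := A₂.filter (fun x => φ x = w)) hcon
    refine hno₂ (hit_full_row_z hexp hzero (y := y) hkc (hB.trans (filter_subset _ _)) ?_ hBc)
    intro x hx
    rw [AddMonoidHom.mem_ker, map_sub, hy, (mem_filter.1 (hB hx)).2, sub_self]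
  · intro y hy
    obtain ⟨x, hx, rfl⟩ := mem_image.1 hy
    rw [hz₂', hφ₀ x hx]
  · -- row 0
    intro B hB hB0
    have hinj : Function.Injective (fun y : G => y + x₀) := add_left_injective x₀
    rw [← card_image_of_injective B hinj]
    refine h.row (q + u • e) _ ?_ ?_
    · intro w hw
      obtain ⟨y, hy, rfl⟩ := mem_image.1 hw
      obtain ⟨x, hx, rfl⟩ := mem_image.1 (hB hy)
      simp only [sub_add_cancel]
      exact hx
    · intro w hw
      obtain ⟨y, hy, rfl⟩ := mem_image.1 hw
      have h1 := (hφH y).1 (hB0 y hy)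
      have h2 : y + x₀ - (q + u • e) = y := by
        rw [hx₀]
        abel
      rw [h2]
      exact h1

end T2M

open T2M in
/-- **the upper bound** for `|G| = 2 m ^ 2`, exponent `2 m`, more than four elements of order at most
two: a set of `3 m - 1` elements has a zero-sum subset of `2 m` elements -/
theorem hit_t2 {G : Type*} [AddCommGroup G] [Fintype G] [DecidableEq G] {m n : ℕ}
    (hn : n = 2 * m) (hexp : ∀ x : G, n • x = 0) (hG : Nat.card G = m * n)
    (hw : 5 ≤ #{x : G | x + x = 0}) (hm : 10 ^ 40 * (Nat.log 2 n + 1) ^ 12 ≤ m)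
    {A : Finset G} (hA : #A + 1 = 3 * m) : Hit A n 0 := by
  classical
  have hm40 : 10 ^ 40 ≤ m := by
    have h1 : 1 ≤ (Nat.log 2 n + 1) ^ 12 := Nat.one_le_pow _ _ (by omega)
    calc 10 ^ 40 = 10 ^ 40 * 1 := (mul_one _).symm
      _ ≤ 10 ^ 40 * (Nat.log 2 n + 1) ^ 12 := Nat.mul_le_mul_left _ h1
      _ ≤ m := hm
  subst hn
  have : NeZero (2 * m) := ⟨by omega⟩
  by_contra hno
  obtain ⟨ℓ, M, Λ, k₀, hpar, hℓ, hL⟩ := exists_par (m := m) (n := 2 * m) (by omega) hm
  obtain ⟨loss, hloss⟩ : ∃ loss, loss = 2592 * M * ℓ ^ 3 := ⟨_, rfl⟩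
  rw [← hloss] at hL
  have hℓ1 : 1 ≤ ℓ := by omega
  have hθ : 100 * (600 * ℓ ^ 3 + 4) ≤ m := by
    have h1 : 10 ^ 9 * ℓ ^ 3 ≤ m := by
      refine le_trans ?_ hm
      rw [← hℓ]
      exact Nat.mul_le_mul (by norm_num) (Nat.pow_le_pow_right hℓ1 (by norm_num))
    omega
  have hGn : Nat.card G ≤ (2 * m) ^ 2 := by
    rw [hG, sq]
    exact Nat.mul_le_mul_right _ (by omega)
  have hFF : ∀ K : AddSubgroup G, FatFull3 K (600 * ℓ ^ 3 + 4) := fun K =>
    fatFull3 hGn hpar.hℓ hpar.hb K
  obtain ⟨c, hc⟩ : ∃ c, c + 1 = m := ⟨m - 1, by omega⟩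
  have hcard : Nat.card (⊤ : AddSubgroup G) = m * (2 * m) := by
    rw [AddSubgroup.card_top, hG]
  obtain ⟨K, H, e, q, S, z, j, o, k, t', Z, u, v, hj, h⟩ :=
    exists_amj (τ := c) hexp (by rwa [← Nat.card_eq_fintype_card]) hpar hcard hloss (A := A)
      (fun x _ => AddSubgroup.mem_top x) (c := c) (by omega) le_rfl (by omega) (by omega) hno
  have hj1 : j = 1 := index_one_of hexp (by omega) h hj (by omega) (by omega) (by omega)
    (fun _ h3 => by omega) hno
  subst hj1
  have hK : K = ⊤ := by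
    have h2 : Nat.card K = Nat.card G := by
      have := h.cardK
      rw [mul_one] at this
      rw [this, hG]
    exact AddSubgroup.eq_top_of_card_eq K h2
  subst hK
  exact T2M.false_of_amj h hc (by omega) hexp hFF hθ hw hno

end Pool.Agent.Lib.MPa7239a.RG
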