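import Pool.Agent.Lib.MP_a7239a_co.RG.RULES3

/-!
# `|G| = 2 m ^ 2`, exponent `2 m`: vectors with few rows, covering an interval
-/

set_option autoImplicit false

open Finset

namespace Pool.Agent.Lib.MPa7239a.RG

open Pool.Agent.Lib.MPa7239a.GC
open Pool.Agent.Lib.MPa7239a.RK
open Pool.Agent.Lib.MPa7239a.RB

namespace T2M

section
variable {G : Type*} [AddCommGroup G] {o : ℕ} [NeZero o]

/-- `a`, `b`, `c`, `d` elements in the rows `-1`, `0`, `1`, `2` -/
def vec (o : ℕ) (a b c d : ℕ) (u : ZMod o) : ℕ :=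
  (if u = -1 then a else 0) + (if u = 0 then b else 0) + (if u = 1 then c else 0) +
    (if u = 2 then d else 0)

theorem sum_vec (a b c d : ℕ) : ∑ u, vec o a b c d u = a + b + c + d := by
  unfold vec
  simp only [sum_add_distrib, sum_ite_eq', mem_univ, if_true]

theorem sum_vec_smul (a b c d : ℕ) :
    ∑ u, vec o a b c d u • u = (c : ZMod o) + 2 * d - a := by
  unfold vec
  simp only [add_smul, sum_add_distrib, RB.sum_ite_smul]
  simp only [nsmul_eq_mul]
  ring

omit [NeZero o] in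
theorem four_ne (ho : 4 ≤ o) : (-1 : ZMod o) ≠ 0 ∧ (-1 : ZMod o) ≠ 1 ∧ (-1 : ZMod o) ≠ 2 ∧
    (0 : ZMod o) ≠ 1 ∧ (0 : ZMod o) ≠ 2 ∧ (1 : ZMod o) ≠ 2 := by
  have key : ∀ k : ℕ, 1 ≤ k → k ≤ 3 → ((k : ℕ) : ZMod o) ≠ 0 := by
    intro k hk hk3 h
    rw [ZMod.natCast_eq_zero_iff] at h
    have := Nat.le_of_dvd (by omega) h
    omega
  have k1 : (1 : ZMod o) ≠ 0 := by
    have := key 1 le_rfl (by omega)
    rwa [Nat.cast_one] at this
  have k2 : (2 : ZMod o) ≠ 0 := by
    have := key 2 (by omega) (by omega)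
    rwa [Nat.cast_ofNat] at this
  have k3 : (3 : ZMod o) ≠ 0 := by
    have := key 3 (by omega) (by omega)
    rwa [Nat.cast_ofNat] at this
  refine ⟨neg_ne_zero.2 k1, fun h => k2 ?_, fun h => k3 ?_, k1.symm, k2.symm, fun h => k1 ?_⟩
  · have h1 : (2 : ZMod o) = 1 - (-1) := by ring
    rw [h1, h, sub_self]
  · have h1 : (3 : ZMod o) = 2 - (-1) := by ring
    rw [h1, h, sub_self]
  · have h1 : (1 : ZMod o) = 2 - 1 := by ring
    rw [h1, ← h, sub_self]

theorem vec_at (ho : 4 ≤ o) (a b c d : ℕ) : vec o a b c d (-1) = a ∧ vec o a b c d 0 = b ∧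
    vec o a b c d 1 = c ∧ vec o a b c d 2 = d := by
  obtain ⟨h1, h2, h3, h4, h5, h6⟩ := four_ne ho
  unfold vec
  refine ⟨?_, ?_, ?_, ?_⟩
  · rw [if_pos rfl, if_neg h1, if_neg h2, if_neg h3]
    omega
  · rw [if_neg h1.symm, if_pos rfl, if_neg h4, if_neg h5]
    omega
  · rw [if_neg h2.symm, if_neg h4.symm, if_pos rfl, if_neg h6]
    omega
  · rw [if_neg h3.symm, if_neg h5.symm, if_neg h6.symm, if_pos rfl]
    omega

/-- the vector of a part `Y` and of the rows `-1`, `0`, `1`, `2` -/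
theorem adm_of (ho : 4 ≤ o) {φ : G →+ ZMod o} {A Y : Finset G} (hY : Y ⊆ A) {N a b c d : ℕ}
    (ha : a + cnt φ Y (-1) ≤ cnt φ A (-1)) (hb : b + cnt φ Y 0 ≤ cnt φ A 0)
    (hc : c + cnt φ Y 1 ≤ cnt φ A 1) (hd : d + cnt φ Y 2 ≤ cnt φ A 2)
    (hN : a + b + c + d + #Y = N)
    (hs : (c : ZMod o) + 2 * d - a + φ (∑ x ∈ Y, x) = φ (∑ x ∈ A, x)) :
    Adm (cnt φ A) N (fun u => vec o a b c d u + cnt φ Y u) := by
  obtain ⟨h1, h2, h3, h4⟩ := vec_at ho a b c d
  refine ⟨fun u => ?_, ?_, ?_⟩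
  · show vec o a b c d u + cnt φ Y u ≤ cnt φ A u
    by_cases e1 : u = -1
    · rw [e1, h1]
      exact ha
    by_cases e2 : u = 0
    · rw [e2, h2]
      exact hb
    by_cases e3 : u = 1
    · rw [e3, h3]
      exact hc
    by_cases e4 : u = 2
    · rw [e4, h4]
      exact hd
    have h5 : vec o a b c d u = 0 := by
      unfold vec
      rw [if_neg e1, if_neg e2, if_neg e3, if_neg e4]
    rw [h5, zero_add]
    exact card_le_card (filter_subset_filter _ hY)
  · rw [sum_add_distrib, sum_vec, sum_cnt]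
    exact hN
  · simp only [add_smul, sum_add_distrib]
    rw [sum_vec_smul, sum_cnt_smul, sum_cnt_smul]
    exact hs

end

/-- `v` is covered by a part of `Y` and the interval from `lo` to `M k`, `k` the size of the
part -/
theorem cover {G : Type*} [DecidableEq G] {Y : Finset G} (z : G → ℤ) {W lo v : ℤ} {M : ℕ → ℤ}
    (hz : ∀ y ∈ Y, |z y| ≤ W) (hM : ∀ a b, a ≤ b → M b ≤ M a)
    (hlo : ∀ k ≤ #Y, lo + W ≤ M k + 1)
    (h1 : lo + ∑ y ∈ Y.filter (fun y => z y < 0), z y ≤ v)
    (h2 : v ≤ M #(Y.filter (fun y => 0 < z y)) + ∑ y ∈ Y.filter (fun y => 0 < z y), z y) :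
    ∃ Y' ⊆ Y, lo ≤ v - ∑ y ∈ Y', z y ∧ v - ∑ y ∈ Y', z y ≤ M #Y' := by
  rcases le_or_gt lo v with hv | hv
  · -- the positive ones
    have key : ∀ P ⊆ Y, v ≤ M #P + ∑ y ∈ P, z y →
        ∃ Y' ⊆ P, lo ≤ v - ∑ y ∈ Y', z y ∧ v - ∑ y ∈ Y', z y ≤ M #Y' := by
      intro P
      induction P using Finset.induction_on with
      | empty =>
        intro _ h
        refine ⟨∅, Subset.refl _, ?_, ?_⟩
        · rw [sum_empty, sub_zero]
          exact hv
        · rw [sum_empty, sub_zero]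
          rwa [sum_empty, add_zero] at h
      | insert a P ha ih =>
        intro hP h
        by_cases h3 : v ≤ M #P + ∑ y ∈ P, z y
        · obtain ⟨Y', hY', h4⟩ := ih ((subset_insert a P).trans hP) h3
          exact ⟨Y', hY'.trans (subset_insert a P), h4⟩
        · refine ⟨insert a P, Subset.refl _, ?_, by linarith⟩
          have h4 := hlo #(insert a P) (card_le_card hP)
          have h5 := (abs_le.1 (hz a (hP (mem_insert_self a P)))).2
          have h6 := hM #P #(insert a P) (card_le_card (subset_insert a P))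
          rw [sum_insert ha]
          push Not at h3
          linarith
    obtain ⟨Y', hY', h3⟩ := key _ (filter_subset _ _) h2
    exact ⟨Y', hY'.trans (filter_subset _ _), h3⟩
  · -- the negative ones
    have key : ∀ P ⊆ Y, lo + ∑ y ∈ P, z y ≤ v →
        ∃ Y' ⊆ P, lo ≤ v - ∑ y ∈ Y', z y ∧ v - ∑ y ∈ Y', z y ≤ M #Y' := by
      intro P
      induction P using Finset.induction_on with
      | empty =>
        intro _ h
        rw [sum_empty, add_zero] at h
        linarith
      | insert a P ha ih =>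
        intro hP h
        by_cases h3 : lo + ∑ y ∈ P, z y ≤ v
        · obtain ⟨Y', hY', h4⟩ := ih ((subset_insert a P).trans hP) h3
          exact ⟨Y', hY'.trans (subset_insert a P), h4⟩
        · refine ⟨insert a P, Subset.refl _, by linarith, ?_⟩
          have h4 := hlo #(insert a P) (card_le_card hP)
          have h5 := (abs_le.1 (hz a (hP (mem_insert_self a P)))).1
          rw [sum_insert ha]
          push Not at h3
          linarith
    obtain ⟨Y', hY', h3⟩ := key _ (filter_subset _ _) h1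
    exact ⟨Y', hY'.trans (filter_subset _ _), h3⟩

/-- a representative in a given interval -/
theorem exists_rep {o : ℕ} [NeZero o] (σ : ZMod o) (a : ℤ) :
    ∃ v : ℤ, a ≤ v ∧ v < a + o ∧ ((v : ℤ) : ZMod o) = σ := by
  refine ⟨a + ((σ - (a : ZMod o)).val : ℤ), by omega, ?_, ?_⟩
  · have := ZMod.val_lt (σ - (a : ZMod o))
    omega
  · push_cast
    rw [ZMod.natCast_zmod_val, add_sub_cancel]

section
variable {G : Type*} [AddCommGroup G] [DecidableEq G] {o : ℕ}

/-- translation -/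
theorem cnt_translate (φ : G →+ ZMod o) (A : Finset G) (x₀ : G) (u : ZMod o) :
    cnt φ (A.image (fun x => x - x₀)) u = cnt φ A (u + φ x₀) := by
  unfold cnt
  rw [filter_image, card_image_of_injective _ sub_left_injective]
  congr 1
  refine filter_congr fun x _ => ?_
  rw [map_sub, sub_eq_iff_eq_add]

/-- reflection -/
theorem cnt_reflect (φ : G →+ ZMod o) (A : Finset G) (x₀ : G) (u : ZMod o) :
    cnt φ (A.image (fun x => x₀ - x)) u = cnt φ A (φ x₀ - u) := by
  unfold cnt
  rw [filter_image, card_image_of_injective _ sub_right_injective]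
  congr 1
  refine filter_congr fun x _ => ?_
  rw [map_sub, sub_eq_iff_eq_add, eq_sub_iff_add_eq, eq_comm, add_comm]

theorem hit_reflect {A : Finset G} {n : ℕ} {x₀ : G} (hx : n • x₀ = 0)
    (h : Hit (A.image (fun x => x₀ - x)) n 0) : Hit A n 0 := by
  obtain ⟨T, hT, hTc, hTs⟩ := h
  refine ⟨T.image (fun x => x₀ - x), ?_, ?_, ?_⟩
  · intro y hy
    obtain ⟨x, hx', rfl⟩ := mem_image.1 hy
    obtain ⟨a, ha, rfl⟩ := mem_image.1 (hT hx')
    rwa [sub_sub_cancel]
  · rw [card_image_of_injective _ sub_right_injective, hTc]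
  · rw [sum_image fun a _ b _ hab => sub_right_injective hab, sum_sub_distrib, sum_const, hTc, hx,
      hTs, sub_zero]

theorem hit_translate {A : Finset G} {n : ℕ} {x₀ : G} (hx : n • x₀ = 0)
    (h : Hit (A.image (fun x => x - x₀)) n 0) : Hit A n 0 := by
  obtain ⟨T, hT, hTc, hTs⟩ := h
  refine ⟨T.image (fun x => x + x₀), ?_, ?_, ?_⟩
  · intro y hy
    obtain ⟨x, hx', rfl⟩ := mem_image.1 hy
    obtain ⟨a, ha, rfl⟩ := mem_image.1 (hT hx')
    rwa [sub_add_cancel]
  · rw [card_image_of_injective _ (add_left_injective x₀), hTc]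
  · rw [sum_image fun a _ b _ hab => add_left_injective x₀ hab, sum_add_distrib, sum_const, hTc, hx,
      hTs, add_zero]

end

end T2M

end Pool.Agent.Lib.MPa7239a.RG
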