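import Pool.Agent.Lib.MP_a7239a_co.RG.T2A

/-!
# `|G| = 2 m ^ 2`, exponent `2 m`: rows of `2 m` elements
-/

set_option autoImplicit false

open Finset

namespace Pool.Agent.Lib.MPa7239a.RG

open Pool.Agent.Lib.MPa7239a.GC
open Pool.Agent.Lib.MPa7239a.RK
open Pool.Agent.Lib.MPa7239a.RB

namespace T2M

section
variable {G : Type*} [AddCommGroup G] {o : ℕ}

/-- the elements outside the rows in `R` -/
def out (φ : G →+ ZMod o) (A : Finset G) (R : Finset (ZMod o)) : Finset G :=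
  A.filter (fun x => φ x ∉ R)

theorem out_sub (φ : G →+ ZMod o) (A : Finset G) (R : Finset (ZMod o)) : out φ A R ⊆ A :=
  filter_subset _ _

theorem card_out (φ : G →+ ZMod o) (A : Finset G) (R : Finset (ZMod o)) :
    #A = ∑ u ∈ R, cnt φ A u + #(out φ A R) := by
  rw [← card_filter_add_card_filter_not (s := A) (fun x => φ x ∈ R), out]
  congr 1
  rw [card_eq_sum_card_fiberwise (s := A.filter (fun x => φ x ∈ R)) (f := φ) (t := R)
    fun x hx => mem_coe.2 (mem_filter.1 (mem_coe.1 hx)).2]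
  refine sum_congr rfl fun u hu => ?_
  unfold cnt
  congr 1
  ext x
  simp only [mem_filter]
  constructor
  · rintro ⟨⟨h, _⟩, h'⟩
    exact ⟨h, h'⟩
  · rintro ⟨h, rfl⟩
    exact ⟨⟨h, hu⟩, rfl⟩

theorem sum_out (φ : G →+ ZMod o) (A : Finset G) (R : Finset (ZMod o)) :
    φ (∑ x ∈ A, x) = ∑ u ∈ R, cnt φ A u • u + φ (∑ x ∈ out φ A R, x) := by
  rw [map_sum, map_sum, ← sum_filter_add_sum_filter_not A (fun x => φ x ∈ R), out]
  congr 1
  rw [← sum_fiberwise_of_maps_to (g := φ) (t := R) fun x hx => (mem_filter.1 hx).2]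
  refine sum_congr rfl fun u hu => ?_
  have h1 : (A.filter (fun x => φ x ∈ R)).filter (fun x => φ x = u) =
      A.filter (fun x => φ x = u) := by
    ext x
    simp only [mem_filter]
    constructor
    · rintro ⟨⟨h, _⟩, h'⟩
      exact ⟨h, h'⟩
    · rintro ⟨h, rfl⟩
      exact ⟨⟨h, hu⟩, rfl⟩
  rw [h1, sum_congr rfl (g := fun _ => u) fun x hx => (mem_filter.1 hx).2, sum_const, cnt]

theorem cnt_out (φ : G →+ ZMod o) (A : Finset G) {R : Finset (ZMod o)} {Y : Finset G}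
    (hY : Y ⊆ out φ A R) {u : ZMod o} (hu : u ∈ R) : cnt φ Y u = 0 := by
  unfold cnt
  rw [card_eq_zero, filter_eq_empty_iff]
  intro x hx hxu
  exact (mem_filter.1 (hY hx)).2 (hxu ▸ hu)

theorem cnt_mono (φ : G →+ ZMod o) {A Y : Finset G} (hY : Y ⊆ A) (u : ZMod o) :
    cnt φ Y u ≤ cnt φ A u := card_le_card (filter_subset_filter _ hY)

end

/-- two rows `0` and `1` of at most `2 m` elements, row `0` is the larger one, not full -/
theorem two_rows {G : Type*} [AddCommGroup G] [DecidableEq G] {m c θ : ℕ} [NeZero m]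
    (φ : G →+ ZMod m) {A : Finset G} (hcm : c + 1 = m) (hA : #A = 2 * m + c)
    (g : Rules3 (cnt φ A) (2 * m) θ c) (hθ : 100 * θ ≤ m) (hm : 1000 ≤ m)
    (hf : 100 * #(out φ A {0, 1}) ≤ m) (h01 : cnt φ A 1 ≤ cnt φ A 0)
    (hfull : cnt φ A 0 < 2 * m) : False := by
  classical
  obtain ⟨n1, n2, n3, n4, n5, n6⟩ := four_ne (o := m) (by omega)
  set F := out φ A {0, 1} with hF
  obtain ⟨r₀, hr₀⟩ : ∃ r, r = cnt φ A 0 := ⟨_, rfl⟩
  obtain ⟨r₁, hr₁⟩ : ∃ r, r = cnt φ A 1 := ⟨_, rfl⟩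
  obtain ⟨f, hf'⟩ : ∃ f, f = #F := ⟨_, rfl⟩
  have hcard := card_out φ A {0, 1}
  have hsum := sum_out φ A {0, 1}
  rw [sum_pair n4, ← hF, ← hr₀, ← hr₁, ← hf'] at hcard
  rw [sum_pair n4, ← hF, ← hr₀, ← hr₁, smul_zero, zero_add, nsmul_one] at hsum
  rw [← hf'] at hf
  rw [← hr₀, ← hr₁] at h01
  rw [← hr₀] at hfull
  have hfat : 2 * m + θ ≤ 2 * cnt φ A 0 := by rw [← hr₀]; omega
  have hm0 : ((m : ℕ) : ZMod m) = 0 := ZMod.natCast_self m
  have hFA : F ⊆ A := out_sub φ A _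
  -- vectors with a part `Y` of `F`, `b` elements of row `0`, `d` elements of row `1`
  have vec : ∀ Y ⊆ F, ∀ b d : ℕ, b ≤ r₀ → d ≤ r₁ → b + d + #Y = c →
      (d : ZMod m) + φ (∑ x ∈ Y, x) = φ (∑ x ∈ A, x) →
      Adm (cnt φ A) c (fun u => T2M.vec m 0 b d 0 u + cnt φ Y u) := by
    intro Y hY b d hb hd hc hs
    refine adm_of (by omega) (hY.trans hFA) ?_ ?_ ?_ ?_ (by omega) ?_
    · rw [zero_add]
      exact cnt_mono φ (hY.trans hFA) _
    · rw [cnt_out φ A hY (by simp), ← hr₀]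
      omega
    · rw [cnt_out φ A hY (by simp), ← hr₁]
      omega
    · rw [zero_add]
      exact cnt_mono φ (hY.trans hFA) _
    · rw [Nat.cast_zero, mul_zero, add_zero, sub_zero]
      exact hs
  have vat : ∀ Y ⊆ F, ∀ b d : ℕ, T2M.vec m 0 b d 0 0 + cnt φ Y 0 = b ∧
      T2M.vec m 0 b d 0 1 + cnt φ Y 1 = d := by
    intro Y hY b d
    obtain ⟨-, h2, h3, -⟩ := vec_at (o := m) (by omega) 0 b d 0
    rw [cnt_out φ A hY (by simp), cnt_out φ A hY (by simp), h2, h3]
    exact ⟨add_zero _, add_zero _⟩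
  -- rule 1 for row `0`
  have win1 : ∀ Y ⊆ F, ∀ b d : ℕ, 3 ≤ b → b + 3 ≤ r₀ → d ≤ r₁ → b + d + #Y = c →
      (d : ZMod m) + φ (∑ x ∈ Y, x) = φ (∑ x ∈ A, x) → False := by
    intro Y hY b d hb3 hb hd hc hs
    have h1 := g.rule1 _ (vec Y hY b d (by omega) hd hc hs) 0 hfat
    simp only [(vat Y hY b d).1, ← hr₀] at h1
    have := h1 hb3
    omega
  rcases Nat.lt_or_ge (r₀ + f) (2 * m) with hi | hi
  · -- omit all of `F`
    refine win1 F (Subset.refl _) (r₀ - m) (c + m - r₀ - f) ?_ ?_ ?_ ?_ ?_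
    · omega
    · omega
    · omega
    · omega
    · rw [hsum]
      congr 1
      have h1 : r₁ = (c + m - r₀ - f) + m := by omega
      rw [h1, Nat.cast_add, hm0, add_zero]
  -- now row `0` is nearly full
  have win2 : ∀ Y ⊆ F, ∀ x : ℤ, 0 ≤ x → x ≤ (r₁ : ℤ) - 1 → x ≤ (m : ℤ) - 2 - #Y →
      (x : ZMod m) + φ (∑ x ∈ Y, x) = φ (∑ x ∈ A, x) → False := by
    intro Y hY x hx0 hx1 hx2 hs
    obtain ⟨d, rfl⟩ := Int.eq_ofNat_of_zero_le hx0
    have hYf : #Y ≤ f := by
      rw [hf']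
      exact card_le_card hY
    rw [Int.cast_natCast] at hs
    obtain ⟨b, hb⟩ : ∃ b, b + d + #Y = c := ⟨c - d - #Y, by omega⟩
    rcases Nat.lt_or_ge b 3 with hb3 | hb3
    · have h1 := g.rule2 _ (vec Y hY b d (by omega) (by omega) hb hs) 0 1 n4
      simp only [(vat Y hY b d).1, (vat Y hY b d).2, ← hr₀, ← hr₁] at h1
      have h2 := h1 (by omega) (by omega) (by omega) (by omega)
      have h3 := le_max_right b (r₀ - b)
      have h4 := le_max_left d (r₁ - d)
      omega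
    · exact win1 Y hY b d hb3 (by omega) (by omega) hb hs
  have hf1 : 1 ≤ f := by omega
  -- the lifts of the elements of `F`
  set z : G → ℤ := fun y => (φ y).valMinAbs with hz
  have hzc : ∀ y, ((z y : ℤ) : ZMod m) = φ y := fun y => ZMod.coe_valMinAbs _
  have hzs : ∀ Y : Finset G, ((∑ y ∈ Y, z y : ℤ) : ZMod m) = φ (∑ x ∈ Y, x) := by
    intro Y
    rw [Int.cast_sum, map_sum]
    exact sum_congr rfl fun y _ => hzc y
  have hzn : ∀ y ∈ F, z y ≠ 0 ∧ z y ≠ 1 := by
    intro y hy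
    have h1 := (mem_filter.1 hy).2
    refine ⟨fun h => h1 ?_, fun h => h1 ?_⟩
    · rw [← hzc y, h]
      simp
    · rw [← hzc y, h]
      simp
  have hz2 : ∀ y, 2 * |z y| ≤ m := by
    intro y
    have h1 := ZMod.natAbs_valMinAbs_le (φ y)
    rw [Int.abs_eq_natAbs]
    show 2 * (((φ y).valMinAbs.natAbs : ℕ) : ℤ) ≤ m
    omega
  have hms : ∀ v : ℤ, ((v - m : ℤ) : ZMod m) = v := by
    intro v
    rw [Int.cast_sub, Int.cast_natCast, hm0, sub_zero]
  by_cases hbig : ∃ y ∈ F, (f : ℤ) + 3 ≤ |z y|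
  · obtain ⟨y, hy, hyW⟩ := hbig
    obtain ⟨v, hv0, hv1, hv⟩ := exists_rep (φ (∑ x ∈ A, x)) 0
    by_cases h1 : v ≤ (r₁ : ℤ) - 1 ∧ v ≤ (m : ℤ) - 2
    · refine win2 ∅ (empty_subset _) v hv0 h1.1 ?_ ?_
      · rw [card_empty]
        simpa using h1.2
      · rw [sum_empty, map_zero, add_zero]
        exact hv
    · have hys : {y} ⊆ F := singleton_subset_iff.2 hy
      have h2 := hz2 y
      rcases le_or_gt 0 (z y) with h3 | h3
      · rw [abs_of_nonneg h3] at hyW h2
        refine win2 {y} hys (v - z y) (by omega) (by omega) ?_ ?_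
        · rw [card_singleton]
          push_cast
          omega
        · rw [sum_singleton, ← hv, Int.cast_sub, hzc, sub_add_cancel]
      · rw [abs_of_neg h3] at hyW h2
        refine win2 {y} hys (v - z y - m) (by omega) (by omega) ?_ ?_
        · rw [card_singleton]
          push_cast
          omega
        · rw [sum_singleton, ← hv, hms, Int.cast_sub, hzc, sub_add_cancel]
  · push Not at hbig
    -- the bounds of the sums
    have hP : 2 * (#(F.filter (fun y => 0 < z y)) : ℤ) ≤ ∑ y ∈ F.filter (fun y => 0 < z y), z y := by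
      rw [mul_comm, ← nsmul_eq_mul]
      refine card_nsmul_le_sum _ _ _ fun y hy => ?_
      rw [mem_filter] at hy
      have := hzn y hy.1
      omega
    have hN : (#(F.filter (fun y => z y < 0)) : ℤ) ≤ - ∑ y ∈ F.filter (fun y => z y < 0), z y := by
      rw [← sum_neg_distrib, ← mul_one (#_ : ℤ), ← nsmul_eq_mul]
      refine card_nsmul_le_sum _ _ _ fun y hy => ?_
      rw [mem_filter] at hy
      omega
    have hPN : #(F.filter (fun y => 0 < z y)) + #(F.filter (fun y => z y < 0)) = f := by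
      rw [hf', ← card_filter_add_card_filter_not (s := F) (fun y => 0 < z y)]
      congr 1
      congr 1
      refine filter_congr fun y hy => ?_
      have := hzn y hy
      omega
    set kp := #(F.filter (fun y => 0 < z y)) with hkp
    set kn := #(F.filter (fun y => z y < 0)) with hkn
    set P := ∑ y ∈ F.filter (fun y => 0 < z y), z y with hPd
    set Nn := ∑ y ∈ F.filter (fun y => z y < 0), z y with hNd
    obtain ⟨v, hv0, hv1, hv⟩ := exists_rep (φ (∑ x ∈ A, x)) Nn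
    obtain ⟨Y, hY, h1, h2⟩ := cover (Y := F) z (W := f + 3) (lo := 0) (v := v)
      (M := fun k => min ((r₁ : ℤ) - 1) ((m : ℤ) - 2 - k)) (fun y hy => (hbig y hy).le)
      (fun a b hab => by
        refine min_le_min le_rfl ?_
        have : (a : ℤ) ≤ b := by exact_mod_cast hab
        omega) (fun k hk => by
        have h3 : (k : ℤ) ≤ f := by
          rw [hf']
          exact_mod_cast hk
        have h4 : (0 : ℤ) + (f + 3) - 1 ≤ min ((r₁ : ℤ) - 1) ((m : ℤ) - 2 - k) :=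
          le_min (by omega) (by omega)
        omega) (by omega) (by
        rw [← hkp, ← hPd]
        have h4 : v - P ≤ min ((r₁ : ℤ) - 1) ((m : ℤ) - 2 - kp) := le_min (by omega) (by omega)
        show v ≤ min ((r₁ : ℤ) - 1) ((m : ℤ) - 2 - kp) + P
        omega)
    refine win2 Y hY (v - ∑ y ∈ Y, z y) h1 (h2.trans (min_le_left _ _))
      (h2.trans (min_le_right _ _)) ?_
    rw [Int.cast_sub, hzs, sub_add_cancel]
    exact hv

end T2M

end Pool.Agent.Lib.MPa7239a.RG
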