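import Pool.Agent.Lib.MP_a7239a_co.RG.T2B

/-!
# `|G| = 2 m ^ 2`, exponent `2 m`: rows of `2 m` elements, all cases
-/

set_option autoImplicit false

open Finset

namespace Pool.Agent.Lib.MPa7239a.RG

open Pool.Agent.Lib.MPa7239a.GC
open Pool.Agent.Lib.MPa7239a.RK
open Pool.Agent.Lib.MPa7239a.RB

namespace T2M

/-- a set of `2 m + c` elements without solution and a homomorphism onto `ZMod o` -/
structure Free {G : Type*} [AddCommGroup G] {o : ℕ} [NeZero o] (φ : G →+ ZMod o) (A : Finset G)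
    (m c h θ : ℕ) : Prop where
  surj : Function.Surjective φ
  ker : Nat.card φ.ker = h
  ff : FatFull3 φ.ker θ
  exp : ∀ x : G, (2 * m) • x = 0
  cm : c + 1 = m
  card : #A = 2 * m + c
  no : ¬ Hit A (2 * m) 0

section
variable {G : Type*} [AddCommGroup G] [DecidableEq G] {o : ℕ} [NeZero o] {φ : G →+ ZMod o}
  {A : Finset G} {m c h θ : ℕ}

theorem Free.rules [Finite G] (F : Free φ A m c h θ) : Rules3 (cnt φ A) h θ c :=
  rules3_of φ F.surj F.card F.ker F.ff F.no

theorem Free.translate (F : Free φ A m c h θ) (x₀ : G) :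
    Free φ (A.image (fun x => x - x₀)) m c h θ :=
  ⟨F.surj, F.ker, F.ff, F.exp, F.cm, by
    rw [card_image_of_injective _ sub_left_injective, F.card], fun h =>
    F.no (hit_translate (F.exp x₀) h)⟩

theorem Free.reflect (F : Free φ A m c h θ) (x₀ : G) :
    Free φ (A.image (fun x => x₀ - x)) m c h θ :=
  ⟨F.surj, F.ker, F.ff, F.exp, F.cm, by
    rw [card_image_of_injective _ sub_right_injective, F.card], fun h =>
    F.no (hit_reflect (F.exp x₀) h)⟩

end

/-- two rows `0` and `1` -/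
theorem two_rows' {G : Type*} [AddCommGroup G] [Finite G] [DecidableEq G] {m c θ : ℕ} [NeZero m]
    {φ : G →+ ZMod m} {A : Finset G} (F : Free φ A m c (2 * m) θ) (hθ : 100 * θ ≤ m)
    (hm : 1000 ≤ m) (hf : 100 * (2 * m + c) ≤ 100 * (cnt φ A 0 + cnt φ A 1) + m)
    (hfull : ∀ u, cnt φ A u < 2 * m) : False := by
  classical
  obtain ⟨n1, n2, n3, n4, n5, n6⟩ := four_ne (o := m) (by omega)
  rcases le_total (cnt φ A 1) (cnt φ A 0) with h | h
  · have h1 := card_out φ A {0, 1}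
    rw [sum_pair n4, F.card] at h1
    exact two_rows φ F.cm F.card F.rules hθ hm (by omega) h (hfull 0)
  · obtain ⟨x₀, hx₀⟩ := F.surj 1
    have F' := F.reflect x₀
    have h1 := card_out φ (A.image (fun x => x₀ - x)) {0, 1}
    have e0 : cnt φ (A.image (fun x => x₀ - x)) 0 = cnt φ A 1 := by
      rw [cnt_reflect, hx₀, sub_zero]
    have e1 : cnt φ (A.image (fun x => x₀ - x)) 1 = cnt φ A 0 := by
      rw [cnt_reflect, hx₀, sub_self]
    rw [sum_pair n4, F'.card] at h1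
    refine two_rows φ F'.cm F'.card F'.rules hθ hm (by omega) (by omega) ?_
    rw [e0]
    exact hfull 1

/-- one row `0` -/
theorem one_row {G : Type*} [AddCommGroup G] [Finite G] [DecidableEq G] {m c θ : ℕ} [NeZero m]
    {φ : G →+ ZMod m} {A : Finset G} (F : Free φ A m c (2 * m) θ) (hθ : 100 * θ ≤ m)
    (hm : 1000 ≤ m)
    (hf : 1000 * (2 * m + c) ≤ 1000 * (cnt φ A (-1) + cnt φ A 0 + cnt φ A 1) + m)
    (h0 : 2000 * m ≤ 1000 * cnt φ A 0 + m) (hfull : ∀ u, cnt φ A u < 2 * m) : False := by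
  classical
  obtain ⟨n1, n2, n3, n4, n5, n6⟩ := four_ne (o := m) (by omega)
  have hcm := F.cm
  rcases Nat.lt_or_ge (cnt φ A (-1)) (2 * m - cnt φ A 0 + 3) with h1 | h1
  · exact two_rows' F hθ hm (by omega) hfull
  rcases Nat.lt_or_ge (cnt φ A 1) (2 * m - cnt φ A 0 + 3) with h2 | h2
  · -- reflection
    have e0 : cnt φ (A.image (fun x => 0 - x)) 0 = cnt φ A 0 := by
      rw [cnt_reflect, map_zero, sub_zero]
    have e1 : cnt φ (A.image (fun x => 0 - x)) 1 = cnt φ A (-1) := by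
      rw [cnt_reflect, map_zero, zero_sub]
    refine two_rows' (F.reflect 0) hθ hm (by omega) fun u => ?_
    rw [cnt_reflect]
    exact hfull _
  -- the rows `-1` and `1`
  have hcard := card_out φ A {-1, 0, 1}
  have hsum := sum_out φ A {-1, 0, 1}
  rw [sum_insert (by simp [n1, n2]), sum_pair n4] at hcard hsum
  set Y := out φ A {-1, 0, 1} with hY
  obtain ⟨r, hr⟩ : ∃ r, r = cnt φ A (-1) := ⟨_, rfl⟩
  obtain ⟨r₀, hr₀⟩ : ∃ r, r = cnt φ A 0 := ⟨_, rfl⟩
  obtain ⟨r₁, hr₁⟩ : ∃ r, r = cnt φ A 1 := ⟨_, rfl⟩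
  rw [F.card] at hcard
  have hf0 := hfull 0
  rw [← hr, ← hr₀, ← hr₁] at hcard hsum
  rw [← hr₀] at h1 h2 hf0
  rw [← hr] at h1
  rw [← hr₁] at h2
  rw [← hr, ← hr₀, ← hr₁] at hf
  rw [← hr₀] at h0
  obtain ⟨k, hk⟩ : ∃ k, k = 2 * m - r₀ + 3 := ⟨_, rfl⟩
  rw [← hk] at h1 h2
  have hYA : Y ⊆ A := out_sub φ A _
  have had : Adm (cnt φ A) c (fun u => T2M.vec m (r - k) (r₀ + 2 * k - 2 * m) (r₁ - k) 0 u +
      cnt φ Y u) := by
    refine adm_of (by omega) hYA ?_ ?_ ?_ ?_ ?_ ?_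
    · rw [cnt_out φ A (Subset.refl _) (by simp), ← hr]
      omega
    · rw [cnt_out φ A (Subset.refl _) (by simp), ← hr₀]
      omega
    · rw [cnt_out φ A (Subset.refl _) (by simp), ← hr₁]
      omega
    · rw [zero_add]
      exact cnt_mono φ hYA _
    · omega
    · rw [hsum, ← add_assoc]
      congr 1
      rw [Nat.cast_sub h1, Nat.cast_sub h2, smul_zero, nsmul_one, nsmul_eq_mul]
      push_cast
      ring
  have h3 := F.rules.rule1 _ had 0 (by rw [← hr₀]; omega)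
  obtain ⟨-, h4, -, -⟩ := vec_at (o := m) (by omega) (r - k) (r₀ + 2 * k - 2 * m) (r₁ - k) 0
  simp only [h4, cnt_out φ A (Subset.refl Y) (show (0 : ZMod m) ∈ ({-1, 0, 1} : Finset (ZMod m)) by
    simp), ← hr₀] at h3
  have := h3 (by omega)
  omega

end T2M

end Pool.Agent.Lib.MPa7239a.RG
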