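import Pool.Agent.Lib.MP_a7239a_co.RG.T2C

/-!
# `|G| = 2 m ^ 2`, exponent `2 m`: rows of `m` elements
-/

set_option autoImplicit false

open Finset

namespace Pool.Agent.Lib.MPa7239a.RG

open Pool.Agent.Lib.MPa7239a.GC
open Pool.Agent.Lib.MPa7239a.RK
open Pool.Agent.Lib.MPa7239a.RB

namespace T2M

/-- three nearly full rows `-1`, `0`, `1` -/
theorem three_rows {G : Type*} [AddCommGroup G] [Finite G] [DecidableEq G] {m c θ : ℕ}
    [NeZero (2 * m)] {φ : G →+ ZMod (2 * m)} {A : Finset G} (F : Free φ A m c m θ)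
    (hθ : 100 * θ ≤ m) (hm : 1000 ≤ m)
    (hf : 50 * (2 * m + c) ≤ 50 * (cnt φ A (-1) + cnt φ A 0 + cnt φ A 1) + m) : False := by
  classical
  obtain ⟨n1, n2, n3, n4, n5, n6⟩ := four_ne (o := 2 * m) (by omega)
  have hcm := F.cm
  have hcard := card_out φ A {-1, 0, 1}
  have hsum := sum_out φ A {-1, 0, 1}
  rw [sum_insert (by simp [n1, n2]), sum_pair n4] at hcard hsum
  set Y := out φ A {-1, 0, 1} with hY
  obtain ⟨r, hr⟩ : ∃ r, r = cnt φ A (-1) := ⟨_, rfl⟩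
  obtain ⟨r₀, hr₀⟩ : ∃ r, r = cnt φ A 0 := ⟨_, rfl⟩
  obtain ⟨r₁, hr₁⟩ : ∃ r, r = cnt φ A 1 := ⟨_, rfl⟩
  rw [F.card] at hcard
  have l := F.rules.row_le (-1)
  have l₀ := F.rules.row_le 0
  have l₁ := F.rules.row_le 1
  rw [← hr] at l
  rw [← hr₀] at l₀
  rw [← hr₁] at l₁
  rw [← hr, ← hr₀, ← hr₁] at hcard hsum hf
  have hYA : Y ⊆ A := out_sub φ A _
  have had : Adm (cnt φ A) c (fun u => T2M.vec (2 * m) (3 + (m - r₁))
      (c - #Y - (3 + (m - r₁)) - (3 + (m - r))) (3 + (m - r)) 0 u + cnt φ Y u) := by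
    refine adm_of (by omega) hYA ?_ ?_ ?_ ?_ ?_ ?_
    · rw [cnt_out φ A (Subset.refl _) (by simp), ← hr]
      omega
    · rw [cnt_out φ A (Subset.refl _) (by simp), ← hr₀]
      omega
    · rw [cnt_out φ A (Subset.refl _) (by simp), ← hr₁]
      omega
    · rw [zero_add]
      exact cnt_mono φ hYA _
    · omega
    · rw [hsum, ← add_assoc]
      congr 1
      rw [smul_zero, nsmul_one, nsmul_eq_mul]
      push_cast [Nat.cast_sub l, Nat.cast_sub l₁]
      ring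
  have h3 := F.rules.rule1 _ had (-1) (by rw [← hr]; omega)
  obtain ⟨h4, -, -, -⟩ := vec_at (o := 2 * m) (by omega) (3 + (m - r₁))
      (c - #Y - (3 + (m - r₁)) - (3 + (m - r))) (3 + (m - r)) 0
  simp only [h4, cnt_out φ A (Subset.refl Y)
    (show (-1 : ZMod (2 * m)) ∈ ({-1, 0, 1} : Finset (ZMod (2 * m))) by simp), ← hr] at h3
  have := h3 (by omega)
  omega

/-- the number of omitted elements of the outer row -/
theorem exists_x {m k f ρ δ δ' v : ℤ} (hk : 0 ≤ k) (hkf : k ≤ f) (hδ : 0 ≤ δ) (hδ' : 0 ≤ δ')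
    (hf : 300 * f ≤ m) (hδm : 300 * δ ≤ m) (hδm' : 300 * δ' ≤ m) (hm : 1000 ≤ m)
    (hρ : 2 * δ + δ' + 4 ≤ ρ) (hρ' : ρ + f + δ' + 5 ≤ m)
    (hv : -ρ ≤ v) (hv2 : 2 * v ≤ m - 1 - k) :
    ∃ x, 0 ≤ x ∧ x ≤ ρ ∧ 0 ≤ v + x ∧ v + x + δ' ≤ m ∧ 3 ≤ m - 1 - k - v - 2 * x ∧
      m - 1 - k - v - 2 * x + 3 + δ ≤ m := by
  by_cases h1 : δ + 2 ≤ v
  · exact ⟨0, by omega, by omega, by omega, by omega, by omega, by omega⟩
  by_cases h2 : δ + 2 ≤ -v
  · exact ⟨-v, by omega, by omega, by omega, by omega, by omega, by omega⟩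
  · exact ⟨2 * δ + 3, by omega, by omega, by omega, by omega, by omega, by omega⟩

/-- four rows `-1`, `0`, `1`, `2`; the rows `0`, `1` are nearly full -/
theorem four_rows {G : Type*} [AddCommGroup G] [Finite G] [DecidableEq G] {m c θ : ℕ}
    [NeZero (2 * m)] {φ : G →+ ZMod (2 * m)} {A : Finset G} (F : Free φ A m c m θ)
    (hme : Even m) (hθ : 100 * θ ≤ m) (hm : 1000 ≤ m)
    (hf : 300 * (2 * m + c) ≤
      300 * (cnt φ A (-1) + cnt φ A 0 + cnt φ A 1 + cnt φ A 2) + m)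
    (h0 : 300 * m ≤ 300 * cnt φ A 0 + m) (h1 : 300 * m ≤ 300 * cnt φ A 1 + m) : False := by
  classical
  obtain ⟨n1, n2, n3, n4, n5, n6⟩ := four_ne (o := 2 * m) (by omega)
  have hcm := F.cm
  have hcard := card_out φ A {-1, 0, 1, 2}
  have hsum := sum_out φ A {-1, 0, 1, 2}
  rw [sum_insert (by simp [n1, n2, n3]), sum_insert (by simp [n4, n5]), sum_pair n6] at hcard hsum
  set Y := out φ A {-1, 0, 1, 2} with hY
  have hrow := F.rules.row_le
  obtain ⟨ρ, hρ⟩ : ∃ r, r = cnt φ A (-1) := ⟨_, rfl⟩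
  obtain ⟨r₀, hr₀⟩ : ∃ r, r = cnt φ A 0 := ⟨_, rfl⟩
  obtain ⟨r₁, hr₁⟩ : ∃ r, r = cnt φ A 1 := ⟨_, rfl⟩
  obtain ⟨ρ', hρ'⟩ : ∃ r, r = cnt φ A 2 := ⟨_, rfl⟩
  obtain ⟨f, hfY⟩ : ∃ f, f = #Y := ⟨_, rfl⟩
  rw [F.card] at hcard
  have l := hrow (-1)
  have l₀ := hrow 0
  have l₁ := hrow 1
  have l₂ := hrow 2
  rw [← hρ] at l
  rw [← hr₀] at l₀ h0
  rw [← hr₁] at l₁ h1
  rw [← hρ'] at l₂
  rw [← hρ, ← hr₀, ← hr₁, ← hρ'] at hcard hsum hf
  rw [← hfY] at hcard
  have hm0 : (((2 * m : ℕ)) : ZMod (2 * m)) = 0 := ZMod.natCast_self (2 * m)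
  obtain ⟨δ₀, hδ₀⟩ : ∃ δ, r₀ + δ = m := ⟨m - r₀, by omega⟩
  obtain ⟨δ₁, hδ₁⟩ : ∃ δ, r₁ + δ = m := ⟨m - r₁, by omega⟩
  -- the outer rows are not small
  rcases Nat.lt_or_ge ρ' (2 * δ₁ + δ₀ + 4) with hs | hρ'2
  · refine three_rows F hθ hm ?_
    rw [← hρ, ← hr₀, ← hr₁]
    omega
  rcases Nat.lt_or_ge ρ (2 * δ₀ + δ₁ + 4) with hs | hρ2
  · obtain ⟨x₀, hx₀⟩ := F.surj 1
    refine three_rows (F.translate x₀) hθ hm ?_
    have e1 : (-1 : ZMod (2 * m)) + 1 = 0 := neg_add_cancel 1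
    have e2 : (1 : ZMod (2 * m)) + 1 = 2 := one_add_one_eq_two
    rw [cnt_translate, cnt_translate, cnt_translate, hx₀, e1, zero_add, e2, ← hr₀, ← hr₁, ← hρ']
    omega
  have hYA : Y ⊆ A := out_sub φ A _
  -- all good vectors
  have win : ∀ Y' ⊆ Y, ∀ v : ℤ, -(ρ : ℤ) ≤ v → v ≤ (m : ℤ) - 1 - #Y' + ρ' →
      (v : ZMod (2 * m)) + φ (∑ x ∈ Y', x) = φ (∑ x ∈ A, x) → False := by
    intro Y' hY' v hv1 hv2 hv
    have hk : #Y' ≤ f := by
      rw [hfY]
      exact card_le_card hY'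
    have key : ∀ a b d e : ℕ, a ≤ ρ → b ≤ r₀ → d ≤ r₁ → e ≤ ρ' → a + b + d + e + #Y' = c →
        (v = (d : ℤ) + 2 * e - a) → ((3 ≤ b ∧ b + 3 ≤ r₀) ∨ (3 ≤ d ∧ d + 3 ≤ r₁)) → False := by
      intro a b d e ha hb hd he hN hve hgood
      have had : Adm (cnt φ A) c (fun u => T2M.vec (2 * m) a b d e u + cnt φ Y' u) := by
        refine adm_of (by omega) (hY'.trans hYA) ?_ ?_ ?_ ?_ hN ?_
        · rw [cnt_out φ A hY' (by simp), ← hρ]
          omega
        · rw [cnt_out φ A hY' (by simp), ← hr₀]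
          omega
        · rw [cnt_out φ A hY' (by simp), ← hr₁]
          omega
        · rw [cnt_out φ A hY' (by simp), ← hρ']
          omega
        · rw [← hv, hve]
          push_cast
          ring
      obtain ⟨-, v2, v3, -⟩ := vec_at (o := 2 * m) (by omega) a b d e
      rcases hgood with ⟨g1, g2⟩ | ⟨g1, g2⟩
      · have h3 := F.rules.rule1 _ had 0 (by rw [← hr₀]; omega)
        simp only [v2, cnt_out φ A hY' (show (0 : ZMod (2 * m)) ∈
          ({-1, 0, 1, 2} : Finset (ZMod (2 * m))) by simp), ← hr₀] at h3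
        have := h3 (by omega)
        omega
      · have h3 := F.rules.rule1 _ had 1 (by rw [← hr₁]; omega)
        simp only [v3, cnt_out φ A hY' (show (1 : ZMod (2 * m)) ∈
          ({-1, 0, 1, 2} : Finset (ZMod (2 * m))) by simp), ← hr₁] at h3
        have := h3 (by omega)
        omega
    rcases le_or_gt (2 * v) ((m : ℤ) - 1 - #Y') with hc | hc
    · obtain ⟨x, x1, x2, x3, x4, x5, x6⟩ := exists_x (m := m) (k := #Y') (f := f) (ρ := ρ)
        (δ := δ₀) (δ' := δ₁) (v := v) (by omega) (by omega) (by omega) (by omega) (by omega)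
        (by omega) (by omega) (by omega) (by omega) (by omega) hv1 hc
      obtain ⟨a, rfl⟩ := Int.eq_ofNat_of_zero_le x1
      obtain ⟨d, hd⟩ := Int.eq_ofNat_of_zero_le x3
      obtain ⟨b, hb⟩ := Int.eq_ofNat_of_zero_le (show 0 ≤ (m : ℤ) - 1 - #Y' - v - 2 * a by omega)
      exact key a b d 0 (by omega) (by omega) (by omega) (by omega) (by omega) (by omega)
        (Or.inl (by omega))
    · obtain ⟨x, x1, x2, x3, x4, x5, x6⟩ := exists_x (m := m) (k := #Y') (f := f) (ρ := ρ')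
        (δ := δ₁) (δ' := δ₀) (v := (m : ℤ) - 1 - #Y' - v) (by omega) (by omega) (by omega)
        (by omega) (by omega)
        (by omega) (by omega) (by omega) (by omega) (by omega) (by omega) (by omega)
      obtain ⟨e, rfl⟩ := Int.eq_ofNat_of_zero_le x1
      obtain ⟨b, hb⟩ := Int.eq_ofNat_of_zero_le x3
      obtain ⟨d, hd⟩ := Int.eq_ofNat_of_zero_le
        (show 0 ≤ (m : ℤ) - 1 - #Y' - ((m : ℤ) - 1 - #Y' - v) - 2 * e by omega)
      exact key 0 b d e (by omega) (by omega) (by omega) (by omega) (by omega) (by omega)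
        (Or.inr (by omega))
  have hms : ∀ v : ℤ, ((v - (2 * m : ℕ) : ℤ) : ZMod (2 * m)) = v := by
    intro v
    rw [Int.cast_sub, Int.cast_natCast, hm0, sub_zero]
  obtain ⟨v, hv0, hv1, hv⟩ := exists_rep (φ (∑ x ∈ A, x)) (-(ρ : ℤ))
  have hv1' : v < -(ρ : ℤ) + 2 * m := by exact_mod_cast hv1
  -- the part `∅`
  have hv2 : (m : ℤ) + ρ' ≤ v := by
    by_contra hcon
    refine win ∅ (empty_subset _) v hv0 ?_ ?_
    · rw [card_empty]
      push_cast
      omega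
    · rw [sum_empty, map_zero, add_zero]
      exact hv
  rcases Nat.eq_zero_or_pos f with hf0 | hf1
  · -- no other rows: parity
    have hY0 : Y = ∅ := card_eq_zero.1 (hfY ▸ hf0)
    rw [hY0, sum_empty, map_zero, add_zero] at hsum
    have h3 : v = (m : ℤ) + ρ' := by omega
    have h4 : ((m : ℤ) + ρ' + ρ - r₁ - 2 * ρ' : ZMod (2 * m)) = 0 := by
      have h5 := hv
      rw [h3, hsum, smul_zero, nsmul_one, nsmul_eq_mul, nsmul_eq_mul] at h5
      push_cast at h5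
      push_cast
      linear_combination h5
    have h6 : (((m : ℤ) + ρ' + ρ - r₁ - 2 * ρ' : ℤ) : ZMod (2 * m)) = 0 := by
      push_cast at h4 ⊢
      exact h4
    rw [ZMod.intCast_zmod_eq_zero_iff_dvd] at h6
    obtain ⟨k, hk⟩ := h6
    push_cast at hk
    obtain ⟨p, hp⟩ := hme
    have e1 : r₁ = m := by omega
    have e2 : (ρ : ℤ) + ρ' + 1 = m := by omega
    have h7 : (m : ℤ) - 1 - 2 * ρ' = 2 * (m * k) := by
      have : (2 : ℤ) * (m * k) = 2 * m * k := by ring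
      rw [this, ← hk, e1]
      linarith
    omega
  -- the lifts of the elements of `Y`
  set z : G → ℤ := fun y => (φ y).valMinAbs with hz
  have hzc : ∀ y, ((z y : ℤ) : ZMod (2 * m)) = φ y := fun y => ZMod.coe_valMinAbs _
  have hzs : ∀ Y' : Finset G, ((∑ y ∈ Y', z y : ℤ) : ZMod (2 * m)) = φ (∑ x ∈ Y', x) := by
    intro Y'
    rw [Int.cast_sum, map_sum]
    exact sum_congr rfl fun y _ => hzc y
  have hzn : ∀ y ∈ Y, z y ≠ -1 ∧ z y ≠ 0 ∧ z y ≠ 1 ∧ z y ≠ 2 := by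
    intro y hy
    have h3 := (mem_filter.1 hy).2
    refine ⟨fun h => h3 ?_, fun h => h3 ?_, fun h => h3 ?_, fun h => h3 ?_⟩
    · rw [← hzc y, h]
      simp
    · rw [← hzc y, h]
      simp
    · rw [← hzc y, h]
      simp
    · rw [← hzc y, h]
      simp
  have hz2 : ∀ y, |z y| ≤ m := by
    intro y
    have h3 := ZMod.natAbs_valMinAbs_le (φ y)
    rw [Int.abs_eq_natAbs]
    show (((φ y).valMinAbs.natAbs : ℕ) : ℤ) ≤ m
    omega
  by_cases hbig : ∃ y ∈ Y, (f : ℤ) + 3 ≤ |z y|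
  · obtain ⟨y, hy, hyW⟩ := hbig
    have hys : {y} ⊆ Y := singleton_subset_iff.2 hy
    have h2 := hz2 y
    rcases le_or_gt 0 (z y) with h3 | h3
    · rw [abs_of_nonneg h3] at hyW h2
      refine win {y} hys (v - z y) (by omega) ?_ ?_
      · rw [card_singleton]
        push_cast
        omega
      · rw [sum_singleton, ← hv, Int.cast_sub, hzc, sub_add_cancel]
    · rw [abs_of_neg h3] at hyW h2
      refine win {y} hys (v - z y - (2 * m : ℕ)) (by push_cast; omega) ?_ ?_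
      · rw [card_singleton]
        push_cast
        omega
      · rw [sum_singleton, ← hv, hms, Int.cast_sub, hzc, sub_add_cancel]
  · push Not at hbig
    have hP : 3 * (#(Y.filter (fun y => 0 < z y)) : ℤ) ≤ ∑ y ∈ Y.filter (fun y => 0 < z y), z y := by
      rw [mul_comm, ← nsmul_eq_mul]
      refine card_nsmul_le_sum _ _ _ fun y hy => ?_
      rw [mem_filter] at hy
      have := hzn y hy.1
      omega
    have hN : 2 * (#(Y.filter (fun y => z y < 0)) : ℤ) ≤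
        - ∑ y ∈ Y.filter (fun y => z y < 0), z y := by
      rw [← sum_neg_distrib, mul_comm, ← nsmul_eq_mul]
      refine card_nsmul_le_sum _ _ _ fun y hy => ?_
      rw [mem_filter] at hy
      have := hzn y hy.1
      omega
    have hPN : #(Y.filter (fun y => 0 < z y)) + #(Y.filter (fun y => z y < 0)) = f := by
      rw [hfY, ← card_filter_add_card_filter_not (s := Y) (fun y => 0 < z y)]
      congr 1
      congr 1
      refine filter_congr fun y hy => ?_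
      have := hzn y hy
      omega
    set kp := #(Y.filter (fun y => 0 < z y)) with hkp
    set kn := #(Y.filter (fun y => z y < 0)) with hkn
    set P := ∑ y ∈ Y.filter (fun y => 0 < z y), z y with hPd
    set Nn := ∑ y ∈ Y.filter (fun y => z y < 0), z y with hNd
    obtain ⟨w, hw0, hw1, hw⟩ := exists_rep (φ (∑ x ∈ A, x)) (-(ρ : ℤ) + Nn)
    have hw1' : w < -(ρ : ℤ) + Nn + 2 * m := by exact_mod_cast hw1
    obtain ⟨Y', hY', h3, h4⟩ := cover (Y := Y) z (W := f + 3) (lo := -(ρ : ℤ)) (v := w)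
      (M := fun k => (m : ℤ) - 1 - k + ρ') (fun y hy => (hbig y hy).le)
      (fun a b hab => by
        have : (a : ℤ) ≤ b := by exact_mod_cast hab
        show (m : ℤ) - 1 - b + ρ' ≤ (m : ℤ) - 1 - a + ρ'
        omega) (fun k hk => by
        have h3 : (k : ℤ) ≤ f := by
          rw [hfY]
          exact_mod_cast hk
        show -(ρ : ℤ) + (f + 3) ≤ (m : ℤ) - 1 - k + ρ' + 1
        omega) (by omega) (by
        rw [← hkp, ← hPd]
        show w ≤ (m : ℤ) - 1 - kp + ρ' + P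
        omega)
    refine win Y' hY' (w - ∑ y ∈ Y', z y) h3 h4 ?_
    rw [Int.cast_sub, hzs, sub_add_cancel]
    exact hw

end T2M

end Pool.Agent.Lib.MPa7239a.RG
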