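import Pool.Agent.Lib.MP_a7239a_co.RG.T2D

/-!
# `|G| = 2 m ^ 2`, exponent `2 m`: the end game
-/

set_option autoImplicit false

open Finset

namespace Pool.Agent.Lib.MPa7239a.RG

open Pool.Agent.Lib.MPa7239a.GC
open Pool.Agent.Lib.MPa7239a.RK
open Pool.Agent.Lib.MPa7239a.RB

namespace T2M

/-- the numbers of the window -/
theorem window_numbers {G : Type*} {S : Finset G} (z : G → ℤ) {q : ℕ} :
    ((#(S.filter (fun x => (q : ℤ) < z x)) : ℤ) + #(S.filter (fun x => (q : ℤ) + 1 < z x))) +
      (#(S.filter (fun x => z x < 0)) + #(S.filter (fun x => z x < -1))) ≤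
      ∑ x ∈ S.filter (fun x => (q : ℤ) < z x), (z x - q) +
        ∑ x ∈ S.filter (fun x => z x < 0), (0 - z x) := by
  have h1 : (#(S.filter (fun x => (q : ℤ) < z x)) : ℤ) + #(S.filter (fun x => (q : ℤ) + 1 < z x)) ≤
      ∑ x ∈ S.filter (fun x => (q : ℤ) < z x), (z x - q) := by
    have h2 : S.filter (fun x => (q : ℤ) + 1 < z x) =
        (S.filter (fun x => (q : ℤ) < z x)).filter (fun x => (q : ℤ) + 1 < z x) := by
      rw [filter_filter]
      exact filter_congr fun x _ => by omega
    obtain ⟨X, hX⟩ : ∃ X, X = S.filter (fun x => (q : ℤ) < z x) := ⟨_, rfl⟩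
    rw [h2, ← hX, card_filter, card_eq_sum_ones X, Nat.cast_sum, Nat.cast_sum,
      ← sum_add_distrib]
    refine sum_le_sum fun x hx => ?_
    rw [hX, mem_filter] at hx
    split_ifs <;> push_cast <;> omega
  have h3 : (#(S.filter (fun x => z x < 0)) : ℤ) + #(S.filter (fun x => z x < -1)) ≤
      ∑ x ∈ S.filter (fun x => z x < 0), (0 - z x) := by
    have h2 : S.filter (fun x => z x < -1) =
        (S.filter (fun x => z x < 0)).filter (fun x => z x < -1) := by
      rw [filter_filter]
      exact filter_congr fun x _ => by omega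
    obtain ⟨X, hX⟩ : ∃ X, X = S.filter (fun x => z x < 0) := ⟨_, rfl⟩
    rw [h2, ← hX, card_filter, card_eq_sum_ones X, Nat.cast_sum, Nat.cast_sum,
      ← sum_add_distrib]
    refine sum_le_sum fun x hx => ?_
    rw [hX, mem_filter] at hx
    split_ifs <;> push_cast <;> omega
  linarith

/-- the end game -/
theorem end_t2 {G : Type*} [AddCommGroup G] [Finite G] [DecidableEq G] {o : ℕ} [NeZero o]
    (φ : G →+ ZMod o) (hφ : Function.Surjective φ) {A S : Finset G} (z : G → ℤ)
    {m s c k t' q L θ : ℕ} (hexp : ∀ x : G, (2 * m) • x = 0)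
    (hker : Nat.card φ.ker = m * s) (hFF : FatFull3 φ.ker θ) (hθ : 100 * θ ≤ m)
    (hos : o * s = 2 * m) (hcm : c + 1 = m) (hme : s = 1 → Even m)
    (hfull : s = 2 → ∀ u, cnt φ A u < 2 * m) (hA : #A = 2 * m + c) (hS : S ⊆ A)
    (hloss : #A ≤ #S + L) (hL : 5000 * (L + 1) ≤ m) (hz : ∀ x ∈ S, φ x = (z x : ZMod o))
    (hSc : #S = k + t') (hk : k ≤ 2 * m)
    (hwin : t' * q + ∑ x ∈ S.filter (fun x => (q : ℤ) < z x), (z x - q) +
      ∑ x ∈ S.filter (fun x => z x < 0), (0 - z x) + 2 ≤ o)
    (hrow : ∀ B ⊆ A, (∀ x ∈ B, φ x = 0) → #B < 2 * m + L) (hno : ¬ Hit A (2 * m) 0) : False := by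
  classical
  have hwn := window_numbers (S := S) z (q := q)
  set a₁ := #(S.filter (fun x => (q : ℤ) < z x)) with ha₁
  set b₁ := #(S.filter (fun x => (q : ℤ) + 1 < z x)) with hb₁
  set a₂ := #(S.filter (fun x => z x < 0)) with ha₂
  set b₂ := #(S.filter (fun x => z x < -1)) with hb₂
  have hw : (t' * q : ℤ) + (a₁ + b₁) + (a₂ + b₂) + 2 ≤ o := by linarith
  have hw' : t' * q + (a₁ + b₁) + (a₂ + b₂) + 2 ≤ o := by exact_mod_cast hw
  -- the rows
  have hcnt : ∀ i : ℤ, #(S.filter (fun x => z x = i)) ≤ cnt φ A (i : ZMod o) := by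
    intro i
    refine card_le_card fun x hx => ?_
    rw [mem_filter] at hx ⊢
    exact ⟨hS hx.1, by rw [hz x hx.1, hx.2]⟩
  have hsp : #S = a₁ + a₂ + #(S.filter (fun x => 0 ≤ z x ∧ z x ≤ q)) := by
    have h1 := card_filter_add_card_filter_not (s := S) (fun x => (q : ℤ) < z x)
    have h2 := card_filter_add_card_filter_not (s := S.filter (fun x => ¬ (q : ℤ) < z x))
      (fun x => z x < 0)
    rw [filter_filter, filter_filter] at h2
    have e1 : S.filter (fun x => ¬ (q : ℤ) < z x ∧ z x < 0) = S.filter (fun x => z x < 0) :=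
      filter_congr fun x _ => by omega
    have e2 : S.filter (fun x => ¬ (q : ℤ) < z x ∧ ¬ z x < 0) =
        S.filter (fun x => 0 ≤ z x ∧ z x ≤ q) := filter_congr fun x _ => by omega
    rw [e1, e2] at h2
    omega
  have hq1 : a₁ ≤ b₁ + #(S.filter (fun x => z x = q + 1)) := by
    rw [ha₁, hb₁]
    refine (card_le_card ?_).trans (card_union_le _ _)
    intro x hx
    rw [mem_union, mem_filter, mem_filter]
    rw [mem_filter] at hx
    rcases eq_or_ne (z x) (q + 1) with h | h
    · exact Or.inr ⟨hx.1, h⟩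
    · exact Or.inl ⟨hx.1, by omega⟩
  have hq2 : a₂ ≤ b₂ + #(S.filter (fun x => z x = -1)) := by
    rw [ha₂, hb₂]
    refine (card_le_card ?_).trans (card_union_le _ _)
    intro x hx
    rw [mem_union, mem_filter, mem_filter]
    rw [mem_filter] at hx
    rcases eq_or_ne (z x) (-1) with h | h
    · exact Or.inr ⟨hx.1, h⟩
    · exact Or.inl ⟨hx.1, by omega⟩
  have ht' : m ≤ t' + L + 1 := by omega
  have hs1 : 1 ≤ s := by
    rcases Nat.eq_zero_or_pos s with h | h
    · rw [h, mul_zero] at hos
      omega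
    · exact h
  have c0 := hcnt 0
  have c1 := hcnt 1
  have c2 := hcnt 2
  have cm := hcnt (-1)
  have r0 : q = 0 → #(S.filter (fun x => 0 ≤ z x ∧ z x ≤ q)) = #(S.filter (fun x => z x = 0)) := by
    intro h
    congr 1
    exact filter_congr fun x _ => by omega
  have r1 : q = 1 → #(S.filter (fun x => 0 ≤ z x ∧ z x ≤ q)) ≤ #(S.filter (fun x => z x = 0)) +
      #(S.filter (fun x => z x = 1)) := by
    intro h
    refine (card_le_card ?_).trans (card_union_le _ _)
    intro x hx
    rw [mem_union, mem_filter, mem_filter]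
    rw [mem_filter] at hx
    rcases eq_or_ne (z x) 0 with h' | h'
    · exact Or.inl ⟨hx.1, h'⟩
    · exact Or.inr ⟨hx.1, by omega⟩
  have r2 : q = 2 → #(S.filter (fun x => 0 ≤ z x ∧ z x ≤ q)) ≤ #(S.filter (fun x => z x = 0)) +
      #(S.filter (fun x => z x = 1)) + #(S.filter (fun x => z x = 2)) := by
    intro h
    refine (card_le_card ?_).trans ((card_union_le _ _).trans
      (Nat.add_le_add_right (card_union_le _ _) _))
    intro x hx
    rw [mem_union, mem_union, mem_filter, mem_filter, mem_filter]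
    rw [mem_filter] at hx
    rcases eq_or_ne (z x) 0 with h' | h'
    · exact Or.inl (Or.inl ⟨hx.1, h'⟩)
    · rcases eq_or_ne (z x) 1 with h'' | h''
      · exact Or.inl (Or.inr ⟨hx.1, h''⟩)
      · exact Or.inr ⟨hx.1, by omega⟩
  push_cast at c0 c1 c2 cm
  have hq0 : q = 0 → #(S.filter (fun x => z x = q + 1)) ≤ cnt φ A 1 := by
    intro h
    have h1 := hcnt 1
    push_cast at h1
    rw [h]
    simpa using h1
  have hq1' : q = 1 → #(S.filter (fun x => z x = q + 1)) ≤ cnt φ A 2 := by
    intro h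
    have h1 := hcnt 2
    push_cast at h1
    rw [h]
    exact h1
  -- the three cases of `s`
  rcases Nat.lt_or_ge s 2 with hs2 | hs2
  · obtain rfl : s = 1 := by omega
    rw [mul_one] at hos hker
    subst hos
    have F : Free φ A m c m θ := ⟨hφ, hker, hFF, hexp, hcm, hA, hno⟩
    have hr := F.rules.row_le
    have hr0 := hr 0
    have hr1 := hr 1
    have hr2 := hr 2
    rcases Nat.lt_or_ge q 1 with h | h
    · obtain rfl : q = 0 := by omega
      have := r0 rfl
      have := hq0 rfl
      rw [mul_zero] at hw'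
      exact three_rows F hθ (by omega) (by omega)
    rcases Nat.lt_or_ge q 2 with h' | h'
    · obtain rfl : q = 1 := by omega
      have := r1 rfl
      have := hq1' rfl
      rw [mul_one] at hw'
      exact four_rows F (hme rfl) hθ (by omega) (by omega) (by omega) (by omega)
    rcases Nat.lt_or_ge q 3 with h'' | h''
    · obtain rfl : q = 2 := by omega
      have := r2 rfl
      obtain ⟨x₀, hx₀⟩ := hφ 1
      refine three_rows (F.translate x₀) hθ (by omega) ?_
      have e1 : (-1 : ZMod (2 * m)) + 1 = 0 := neg_add_cancel 1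
      have e2 : (1 : ZMod (2 * m)) + 1 = 2 := one_add_one_eq_two
      rw [cnt_translate, cnt_translate, cnt_translate, hx₀, e1, zero_add, e2]
      omega
    · have : t' * 3 ≤ t' * q := Nat.mul_le_mul_left _ h''
      omega
  rcases Nat.lt_or_ge s 3 with hs3 | hs3
  · obtain rfl : s = 2 := by omega
    obtain rfl : o = m := by omega
    rw [mul_comm] at hker
    have F : Free φ A o c (2 * o) θ := ⟨hφ, hker, hFF, hexp, hcm, hA, hno⟩
    have hr0 := hfull rfl 0
    have hr1 := hfull rfl 1
    rcases Nat.lt_or_ge q 1 with h | h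
    · obtain rfl : q = 0 := by omega
      have := r0 rfl
      have := hq0 rfl
      rw [mul_zero] at hw'
      exact one_row F hθ (by omega) (by omega) (by omega) (hfull rfl)
    rcases Nat.lt_or_ge q 2 with h' | h'
    · obtain rfl : q = 1 := by omega
      have := r1 rfl
      rw [mul_one] at hw'
      exact two_rows' F hθ (by omega) (by omega) (hfull rfl)
    · have : t' * 2 ≤ t' * q := Nat.mul_le_mul_left _ h'
      omega
  · have ho3 : 3 * o ≤ 2 * m := by
      rw [← hos, mul_comm 3]
      exact Nat.mul_le_mul_left _ hs3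
    rcases Nat.lt_or_ge q 1 with h | h
    · obtain rfl : q = 0 := by omega
      have h1 := r0 rfl
      have h2 := hrow (A.filter (fun x => φ x = 0)) (filter_subset _ _)
        fun x hx => (mem_filter.1 hx).2
      have h3 : cnt φ A 0 = #(A.filter (fun x => φ x = 0)) := rfl
      omega
    · have : t' * 1 ≤ t' * q := Nat.mul_le_mul_left _ h
      omega

end T2M

end Pool.Agent.Lib.MPa7239a.RG
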